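import Pool.Agent.Lib_helper16.Poly.CoreP
import Pool.Agent.Lib_helper16.Time.Asymp

/-!
The asymptotic form of the lower bound.
-/

set_option autoImplicit false

namespace Pool.Agent.Poly

open Pool.Agent.Heads
open Pool.Agent.Time (len st Nd Cf len_eq card_nodes sq_le_two_pow)

lemma star1 {g u n K : ℕ} (hu : 0 < u) (hn : u ^ (8 * (g + 1) ^ 2) ≤ n) (hK : K < u ^ 2) :
    (K * u ^ 2) ^ ((2 * g + 1) * (g + 1)) < n := by
  have h0 : 0 < u ^ 2 := Nat.pow_pos hu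
  have h1 : K * u ^ 2 < u ^ 4 := by
    have : u ^ 4 = u ^ 2 * u ^ 2 := by ring
    rw [this]
    exact Nat.mul_lt_mul_of_pos_right hK h0
  calc (K * u ^ 2) ^ ((2 * g + 1) * (g + 1)) < (u ^ 4) ^ ((2 * g + 1) * (g + 1)) :=
        Nat.pow_lt_pow_left h1 (Nat.mul_pos (by omega) (by omega)).ne'
    _ = u ^ (4 * ((2 * g + 1) * (g + 1))) := by rw [← pow_mul]
    _ ≤ u ^ (8 * (g + 1) ^ 2) := Nat.pow_le_pow_right hu (by nlinarith)
    _ ≤ n := hn

lemma star2 {g u n K M : ℕ} (hu : 0 < u) (hn : u ^ (8 * (g + 1) ^ 2) ≤ n) (hK : K < u ^ 2)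
    (hM : M ^ ((2 * g + 1) * (g + 1)) ≤ n ^ g) : K * M ^ (2 * g + 3) * u ^ 2 < n := by
  have hn0 : 0 < n := lt_of_lt_of_le (Nat.pow_pos hu) hn
  set W := (2 * g + 1) * (g + 1) with hW
  have h1 : (K * M ^ (2 * g + 3) * u ^ 2) ^ W < n ^ W := by
    calc (K * M ^ (2 * g + 3) * u ^ 2) ^ W = (K * u ^ 2) ^ W * (M ^ W) ^ (2 * g + 3) := by
          have e2 : (M ^ W) ^ (2 * g + 3) = (M ^ (2 * g + 3)) ^ W := by
            rw [← pow_mul, ← pow_mul, mul_comm]
          rw [e2, ← mul_pow]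
          congr 1
          ring
      _ < n * (n ^ g) ^ (2 * g + 3) := Nat.mul_lt_mul_of_lt_of_le (star1 hu hn hK)
          (Nat.pow_le_pow_left hM _) (Nat.pow_pos (Nat.pow_pos hn0))
      _ = n ^ W := by
          rw [← pow_mul, ← pow_succ', hW]
          congr 1
          ring
  exact lt_of_pow_lt_pow_left₀ W (Nat.zero_le _) h1

lemma star3 {g u n K M T : ℕ} (hu : 0 < u) (hn : u ^ (8 * (g + 1) ^ 2) ≤ n) (hK : K < u ^ 2)
    (hM : M ^ ((2 * g + 1) * (g + 1)) ≤ n ^ g) (hT : T ^ (g + 1) ≤ n ^ (2 * g + 1)) :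
    K * T * M ^ 2 * u ^ 2 < n ^ 2 := by
  have hn0 : 0 < n := lt_of_lt_of_le (Nat.pow_pos hu) hn
  set W := (2 * g + 1) * (g + 1) with hW
  have h1 : (K * T * M ^ 2 * u ^ 2) ^ W < (n ^ 2) ^ W := by
    calc (K * T * M ^ 2 * u ^ 2) ^ W =
          (K * u ^ 2) ^ W * ((T ^ (g + 1)) ^ (2 * g + 1) * (M ^ W) ^ 2) := by
          have e1 : (T ^ (g + 1)) ^ (2 * g + 1) = T ^ W := by
            rw [← pow_mul, hW]
            congr 1
            ring
          have e2 : (M ^ W) ^ 2 = (M ^ 2) ^ W := by rw [← pow_mul, ← pow_mul, mul_comm]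
          rw [e1, e2, ← mul_pow, ← mul_pow]
          congr 1
          ring
      _ < n * ((n ^ (2 * g + 1)) ^ (2 * g + 1) * (n ^ g) ^ 2) := by
          refine Nat.mul_lt_mul_of_lt_of_le (star1 hu hn hK)
            (Nat.mul_le_mul (Nat.pow_le_pow_left hT _) (Nat.pow_le_pow_left hM _)) ?_
          exact Nat.mul_pos (Nat.pow_pos (Nat.pow_pos hn0)) (Nat.pow_pos (Nat.pow_pos hn0))
      _ = (n ^ 2) ^ W := by
          rw [← pow_mul, ← pow_mul, ← pow_add, ← pow_succ', ← pow_mul, hW]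
          congr 1
          ring
  exact lt_of_pow_lt_pow_left₀ W (Nat.zero_le _) h1

lemma small_K {c S K : ℕ} (hK : K ≤ c * (S + 1) ^ 2) (hS : 4 * c ≤ S) : K < (2 ^ S) ^ 2 := by
  have h1 := sq_le_two_pow S
  have h2 : S < 2 ^ S := Nat.lt_two_pow_self
  calc K ≤ c * (S + 1) ^ 2 := hK
    _ ≤ c * (4 * 2 ^ S) := Nat.mul_le_mul_left _ h1
    _ = 4 * c * 2 ^ S := by ring
    _ < 2 ^ S * 2 ^ S := Nat.mul_lt_mul_of_pos_right (by omega) (by positivity)
    _ = (2 ^ S) ^ 2 := by ring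

/-- The number of blocks. -/
lemma exists_blocks (P T n : ℕ) (hn : 0 < n) (hP : 0 < P) :
    ∃ M, 1 ≤ M ∧ (M = 1 ∨ 6 * (M ^ P * n) + 2 ≤ T) ∧ T ≤ 7 * (2 * M) ^ P * n := by
  classical
  have hex : ∃ M, 1 ≤ M ∧ T < 6 * ((M + 1) ^ P * n) + 2 := by
    refine ⟨T + 1, by omega, ?_⟩
    have h1 : (T + 1 + 1) ^ 1 ≤ (T + 1 + 1) ^ P := Nat.pow_le_pow_right (by omega) hP
    rw [pow_one] at h1
    have h2 : (T + 1 + 1) ^ P * 1 ≤ (T + 1 + 1) ^ P * n := Nat.mul_le_mul_left _ hn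
    omega
  refine ⟨Nat.find hex, (Nat.find_spec hex).1, ?_, ?_⟩
  · by_cases h1 : Nat.find hex = 1
    · exact Or.inl h1
    · right
      by_contra hcon
      push Not at hcon
      have h2 := (Nat.find_spec hex).1
      have h3 := Nat.find_min hex (m := Nat.find hex - 1) (by omega)
      apply h3
      refine ⟨by omega, ?_⟩
      rw [Nat.sub_add_cancel h2]
      exact hcon
  · obtain ⟨h1, h2⟩ := Nat.find_spec hex
    set M := Nat.find hex
    have h3 : (M + 1) ^ P ≤ (2 * M) ^ P := Nat.pow_le_pow_left (by omega) _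
    have h4 : (M + 1) ^ P * n ≤ (2 * M) ^ P * n := Nat.mul_le_mul_right _ h3
    have h5 : 0 < (2 * M) ^ P * n := Nat.mul_pos (Nat.pow_pos (by omega)) hn
    have h6 : 7 * (2 * M) ^ P * n = 7 * ((2 * M) ^ P * n) := by ring
    omega

/-- The numerical facts. -/
lemma numericsP (g k s β n S M m T₀ T' c1 c2 : ℕ) (hk : 1 ≤ k) (hβ : 1 ≤ β)
    (hn : n = 2 ^ (8 * (g + 1) ^ 2 * S)) (hM1 : 1 ≤ M)
    (hMW : M ^ ((2 * g + 1) * (g + 1)) ≤ n ^ g)
    (hT0 : T₀ ^ (g + 1) ≤ n ^ (2 * g + 1)) (hTM : T₀ ≤ 7 * (2 * M) ^ (2 * g + 1) * n)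
    (hm2 : n < 24 * M * 2 ^ S * (m + 1))
    (hc1 : c1 = 96 * β * (8 * (g + 1) ^ 2 + 4))
    (hc2 : c2 = 2304 * (8 * β * ((g + 1) * k)) *
      ((2 * s + 2 * k * (8 * (g + 1) ^ 2 + 2) + 1) * (8 * (g + 1) ^ 2)))
    (hS : 4 * c1 + 4 * c2 + 3 * k ^ (2 * g + 2) + 4 ≤ S)
    (hT' : 4 * k ^ (2 * g + 2) * (672 * 2 ^ (2 * g + 1) * (8 * (g + 1) ^ 2)) * T' ≤
      T₀ * (8 * (g + 1) ^ 2 * S)) :
    0 < m ∧
    k ^ (2 * g + 2) * (T' + m * 2 ^ (S - 1) + 1) <
      M ^ (2 * g + 2) * ((S - 2) * (m * 2 ^ (S - 1))) ∧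
    (∀ V E : ℕ, 1 ≤ V → V ≤ M ^ (2 * g + 2) * 2 ^ S → E ≤ (2 * g + 2) * (2 * k * T') / m →
      β * (2 * V + (8 * (g + 1) ^ 2 * S + 1) +
        (2 * s + 2 * k * (8 * (g + 1) ^ 2 * S + 2) + 1) * E + 1) ≤ m) := by
  set e := 8 * (g + 1) ^ 2 with he
  have he1 : 8 ≤ e := by
    have : 1 ≤ (g + 1) ^ 2 := Nat.one_le_pow _ _ (by omega)
    omega
  set u := 2 ^ S with hu
  have hu0 : 0 < u := by positivity
  have hun : u ^ e ≤ n := by
    rw [hn, hu, ← pow_mul, mul_comm]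
  have hn0 : 0 < n := lt_of_lt_of_le (Nat.pow_pos hu0) hun
  have hS1 : 1 ≤ S + 1 := by omega
  -- m is positive
  have hm0 : 0 < m := by
    rcases Nat.eq_zero_or_pos m with h | h
    · exfalso
      rw [h] at hm2
      have h1 : 96 < u ^ 2 := by
        have : 96 ≤ c1 * (S + 1) ^ 2 := by
          rw [hc1]
          have h2 : 1 ≤ (S + 1) ^ 2 := Nat.one_le_pow _ _ hS1
          have h3 : 1 ≤ β * (e + 4) * (S + 1) ^ 2 :=
            Nat.mul_pos (Nat.mul_pos hβ (by omega)) h2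
          calc 96 = 96 * 1 := rfl
            _ ≤ 96 * (β * (e + 4) * (S + 1) ^ 2) := Nat.mul_le_mul_left _ h3
            _ = _ := by ring
        exact small_K this (by omega)
      have h2 := star2 hu0 hun h1 hMW
      have h3 : M ^ 1 ≤ M ^ (2 * g + 3) := Nat.pow_le_pow_right hM1 (by omega)
      rw [pow_one] at h3
      have h4 : u * 1 ≤ u * u := Nat.mul_le_mul_left u hu0
      have h5 : 24 * M * u * (0 + 1) ≤ 96 * M ^ (2 * g + 3) * u ^ 2 := by
        calc 24 * M * u * (0 + 1) = 24 * (M * (u * 1)) := by ring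
          _ ≤ 24 * (M ^ (2 * g + 3) * (u * u)) := Nat.mul_le_mul_left _ (Nat.mul_le_mul h3 h4)
          _ ≤ 96 * (M ^ (2 * g + 3) * (u * u)) := Nat.mul_le_mul_right _ (by norm_num)
          _ = _ := by ring
      omega
    · exact h
  have hn48 : n < 48 * M * u * m := by
    have : 24 * M * u * (m + 1) ≤ 24 * M * u * (2 * m) := Nat.mul_le_mul_left _ (by omega)
    have h2 : 24 * M * u * (2 * m) = 48 * M * u * m := by ring
    omega
  refine ⟨hm0, ?_, ?_⟩
  · -- travel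
    obtain ⟨S', rfl⟩ : ∃ S', S = S' + 1 := ⟨S - 1, by omega⟩
    rw [Nat.add_sub_cancel]
    set X := m * 2 ^ S' with hX
    have hX0 : 0 < X := Nat.mul_pos hm0 (by positivity)
    have hnX : n ≤ 96 * M * X := by
      have : 48 * M * u * m = 96 * M * X := by rw [hu, hX, pow_succ]; ring
      omega
    set kk := k ^ (2 * g + 2) with hkk
    have hT1 : T₀ * (e * (S' + 1)) ≤
        (672 * 2 ^ (2 * g + 1) * e) * (M ^ (2 * g + 2) * X * (S' + 1)) := by
      calc T₀ * (e * (S' + 1)) ≤ (7 * (2 * M) ^ (2 * g + 1) * n) * (e * (S' + 1)) :=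
            Nat.mul_le_mul_right _ hTM
        _ ≤ (7 * (2 * M) ^ (2 * g + 1) * (96 * M * X)) * (e * (S' + 1)) :=
            Nat.mul_le_mul_right _ (Nat.mul_le_mul_left _ hnX)
        _ = _ := by rw [mul_pow]; ring
    have hT2 : 4 * kk * T' ≤ M ^ (2 * g + 2) * X * (S' + 1) := by
      have h1 := hT'.trans hT1
      have h2 : 4 * kk * (672 * 2 ^ (2 * g + 1) * e) * T' =
          (672 * 2 ^ (2 * g + 1) * e) * (4 * kk * T') := by ring
      rw [h2] at h1
      exact Nat.le_of_mul_le_mul_left h1 (by positivity)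
    have hMX : X ≤ M ^ (2 * g + 2) * X := Nat.le_mul_of_pos_left _ (Nat.pow_pos hM1)
    set Z := M ^ (2 * g + 2) * X with hZ
    have h3 : 4 * (kk * (T' + X + 1)) ≤ Z * (S' + 1 + 8 * kk) := by
      have h4 : kk * X ≤ kk * Z := Nat.mul_le_mul_left _ hMX
      have h5 : kk * 1 ≤ kk * Z := Nat.mul_le_mul_left _ (by omega)
      have h6 : 4 * (kk * (T' + X + 1)) = 4 * kk * T' + 4 * (kk * X) + 4 * (kk * 1) := by ring
      have h7 : Z * (S' + 1 + 8 * kk) = Z * (S' + 1) + 8 * (kk * Z) := by ring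
      omega
    have hZ0 : 0 < Z := by omega
    have h4 : Z * (S' + 1 + 8 * kk) < Z * (4 * (S' + 1 - 2)) :=
      Nat.mul_lt_mul_of_pos_left (by omega) hZ0
    have h5 : 4 * (M ^ (2 * g + 2) * ((S' + 1 - 2) * X)) = Z * (4 * (S' + 1 - 2)) := by
      rw [hZ]; ring
    omega
  · -- counting
    intro V E hV1 hV hE
    -- first part
    have hA : 2 * β * ((e * S + 4) * V) ≤ m := by
      have h1 : 96 * β * (e * S + 4) < u ^ 2 := by
        refine small_K (c := c1) ?_ (by omega)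
        rw [hc1]
        have h2 : e * S + 4 ≤ (e + 4) * (S + 1) ^ 2 := by
          have h5 : (e + 4) * (S + 1) = e * S + e + 4 * S + 4 := by ring
          have h6 : (e + 4) * (S + 1) ≤ (e + 4) * (S + 1) ^ 2 :=
            Nat.mul_le_mul_left _ (Nat.le_self_pow (by norm_num) _)
          omega
        calc 96 * β * (e * S + 4) ≤ 96 * β * ((e + 4) * (S + 1) ^ 2) :=
              Nat.mul_le_mul_left _ h2
          _ = _ := by ring
      have h2 := star2 hu0 hun h1 hMW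
      have h3 : 48 * M * u * (2 * β * ((e * S + 4) * V)) ≤
          96 * β * (e * S + 4) * M ^ (2 * g + 3) * u ^ 2 := by
        calc 48 * M * u * (2 * β * ((e * S + 4) * V)) ≤
              48 * M * u * (2 * β * ((e * S + 4) * (M ^ (2 * g + 2) * u))) :=
              Nat.mul_le_mul_left _ (Nat.mul_le_mul_left _ (Nat.mul_le_mul_left _ hV))
          _ = _ := by ring
      have h4 : 48 * M * u * (2 * β * ((e * S + 4) * V)) < 48 * M * u * m := by omega
      exact (Nat.lt_of_mul_lt_mul_left h4).le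
    -- second part
    set ρ := 2 * s + 2 * k * (e * S + 2) + 1 with hρ
    have hB : 2 * β * (ρ * E) ≤ m := by
      have h1 : 2304 * (8 * β * ((g + 1) * k)) * (ρ * (e * S)) < u ^ 2 := by
        refine small_K (c := c2) ?_ (by omega)
        rw [hc2]
        have h2 : ρ * (e * S) ≤ ((2 * s + 2 * k * (e + 2) + 1) * e) * (S + 1) ^ 2 := by
          have h3 : ρ ≤ (2 * s + 2 * k * (e + 2) + 1) * (S + 1) := by
            have h4 : e * S + 2 ≤ (e + 2) * (S + 1) := by nlinarith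
            have h5 : 2 * k * (e * S + 2) ≤ 2 * k * ((e + 2) * (S + 1)) :=
              Nat.mul_le_mul_left _ h4
            have h6 : 2 * s * 1 ≤ 2 * s * (S + 1) := Nat.mul_le_mul_left _ hS1
            have h7 : (2 * s + 2 * k * (e + 2) + 1) * (S + 1) =
              2 * s * (S + 1) + 2 * k * ((e + 2) * (S + 1)) + (S + 1) := by ring
            omega
          calc ρ * (e * S) ≤ ((2 * s + 2 * k * (e + 2) + 1) * (S + 1)) * (e * (S + 1)) :=
                Nat.mul_le_mul h3 (Nat.mul_le_mul_left _ (by omega))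
            _ = _ := by ring
        calc 2304 * (8 * β * ((g + 1) * k)) * (ρ * (e * S)) ≤ 2304 * (8 * β * ((g + 1) * k)) *
              (((2 * s + 2 * k * (e + 2) + 1) * e) * (S + 1) ^ 2) := Nat.mul_le_mul_left _ h2
          _ = _ := by ring
      have h2 := star3 hu0 hun h1 hMW hT0
      have hT1 : T' ≤ T₀ * (e * S) := by
        refine le_trans ?_ hT'
        refine Nat.le_mul_of_pos_left _ ?_
        have : 0 < k ^ (2 * g + 2) := Nat.pow_pos hk
        positivity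
      have hE2 : E * m ≤ (2 * g + 2) * (2 * k * T') :=
        (Nat.mul_le_mul_right m hE).trans (Nat.div_mul_le_self _ _)
      have h3 : (48 * M * u) ^ 2 * (2 * β * (ρ * (E * m))) < (48 * M * u) ^ 2 * (m * m) := by
        calc (48 * M * u) ^ 2 * (2 * β * (ρ * (E * m))) ≤
              (48 * M * u) ^ 2 * (2 * β * (ρ * ((2 * g + 2) * (2 * k * (T₀ * (e * S)))))) := by
              refine Nat.mul_le_mul_left _ (Nat.mul_le_mul_left _ (Nat.mul_le_mul_left _ ?_))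
              exact hE2.trans (Nat.mul_le_mul_left _ (Nat.mul_le_mul_left _ hT1))
          _ = 2304 * (8 * β * ((g + 1) * k)) * (ρ * (e * S)) * T₀ * M ^ 2 * u ^ 2 := by ring
          _ < n ^ 2 := h2
          _ ≤ (48 * M * u * m) ^ 2 := Nat.pow_le_pow_left hn48.le 2
          _ = _ := by ring
      have h4 := Nat.lt_of_mul_lt_mul_left h3
      have h5 : 2 * β * (ρ * (E * m)) = 2 * β * (ρ * E) * m := by ring
      rw [h5] at h4
      exact (Nat.lt_of_mul_lt_mul_right h4).le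
    have h1 : 2 * V + (e * S + 1) + 1 ≤ (e * S + 4) * V := by
      obtain ⟨V', hV'⟩ : ∃ V', V = V' + 1 := ⟨V - 1, by omega⟩
      have h5 : (e * S + 4) * (V' + 1) = e * S * V' + 4 * V' + e * S + 4 := by ring
      rw [hV', h5]
      omega
    have h2 : 2 * β * (2 * V + (e * S + 1) + 1) ≤ 2 * β * ((e * S + 4) * V) :=
      Nat.mul_le_mul_left _ h1
    have h3 : 2 * (β * (2 * V + (e * S + 1) + ρ * E + 1)) =
        2 * β * (2 * V + (e * S + 1) + 1) + 2 * β * (ρ * E) := by ring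
    omega

/-- The lower bound. -/
theorem lowerP (g : ℕ) (T₀ : ℕ → ℕ) (h0 : ∀ n, n + 2 ≤ T₀ n)
    (h1 : ∃ n₁, ∀ n ≥ n₁, T₀ n ^ (g + 1) ≤ n ^ (2 * g + 1)) {k : ℕ} (hk : 1 ≤ k)
    (A : FA (Lt (2 * g + 1)) k)
    (hA : ∀ w, w ∈ A.lang ↔ ∃ t ≤ T₀ w.length, ∃ c, Rn w t (ini (2 * g + 1)) c ∧
      c.state = .acc)
    (T' : ℕ → ℕ) (hT' : ∀ C : ℕ, ∃ N, ∀ n ≥ N, C * T' n ≤ T₀ n * Nat.log 2 n)
    (htime : ∀ w ∈ A.lang, ∃ t ≤ T' w.length, ∃ c,
      ReachN (A.Step w) (A.start, fun _ => 0) t c ∧ c.1 ∈ A.accept) : False := by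
  classical
  have hfin := A.finQ
  obtain ⟨s, hs⟩ : ∃ s, Nat.card A.Q ≤ 2 ^ s := ⟨Nat.card A.Q, Nat.lt_two_pow_self.le⟩
  obtain ⟨β, hβ⟩ : ∃ β, bet (2 * g + 1) ^ β < 1 / 2 :=
    exists_pow_lt_of_lt_one (by norm_num) (bet_lt_one _)
  have hβ1 : 1 ≤ β := by
    rcases Nat.eq_zero_or_pos β with h | h
    · rw [h, pow_zero] at hβ
      norm_num at hβ
    · exact h
  obtain ⟨n₁, h1⟩ := h1
  set e := 8 * (g + 1) ^ 2 with he
  have he1 : 8 ≤ e := by
    have : 1 ≤ (g + 1) ^ 2 := Nat.one_le_pow _ _ (by omega)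
    omega
  obtain ⟨N, hN⟩ := hT' (4 * k ^ (2 * g + 2) * (672 * 2 ^ (2 * g + 1) * e))
  set c1 := 96 * β * (e + 4) with hc1
  set c2 := 2304 * (8 * β * ((g + 1) * k)) * ((2 * s + 2 * k * (e + 2) + 1) * e) with hc2
  set S := 4 * c1 + 4 * c2 + 3 * k ^ (2 * g + 2) + 4 + n₁ + N with hS
  set n := 2 ^ (e * S) with hn
  have hSn : S ≤ n := by
    have h2 : S < 2 ^ S := Nat.lt_two_pow_self
    have h3 : 2 ^ S ≤ 2 ^ (e * S) := Nat.pow_le_pow_right (by norm_num)
      (Nat.le_mul_of_pos_left _ (by omega))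
    omega
  have hlog : Nat.log 2 n = e * S := by rw [hn]; exact Nat.log_pow (by norm_num) _
  have hn0 : 0 < n := by positivity
  have hTn := h1 n (by omega)
  have hN' := hN n (by omega)
  rw [hlog] at hN'
  obtain ⟨M, hM1, hMa, hMb⟩ := exists_blocks (2 * g + 1) (T₀ n) n hn0 (by omega)
  -- the bound for M
  have hMW : M ^ ((2 * g + 1) * (g + 1)) ≤ n ^ g := by
    rcases hMa with h | h
    · rw [h, one_pow]
      exact Nat.one_le_pow _ _ hn0
    · have h2 : M ^ (2 * g + 1) * n ≤ T₀ n := by omega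
      have h3 : (M ^ (2 * g + 1) * n) ^ (g + 1) ≤ n ^ (2 * g + 1) :=
        (Nat.pow_le_pow_left h2 _).trans hTn
      have h4 : (M ^ (2 * g + 1) * n) ^ (g + 1) =
          n ^ (g + 1) * M ^ ((2 * g + 1) * (g + 1)) := by
        rw [mul_pow, ← pow_mul]; ring
      have h5 : n ^ (2 * g + 1) = n ^ (g + 1) * n ^ g := by
        rw [← pow_add]
        congr 1
        ring
      rw [h4, h5] at h3
      exact Nat.le_of_mul_le_mul_left h3 (Nat.pow_pos hn0)
  set m := n / (24 * M * 2 ^ S) with hm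
  have h24 : 0 < 24 * M * 2 ^ S := by positivity
  have hm1 : 24 * M * 2 ^ S * m ≤ n := Nat.mul_div_le _ _
  have hm2 : n < 24 * M * 2 ^ S * (m + 1) := Nat.lt_mul_div_succ n h24
  obtain ⟨hm0, htravel, hcount⟩ := numericsP g k s β n S M m (T₀ n) (T' n) c1 c2 hk hβ1 hn hM1
    hMW hTn hMb hm2 hc1 hc2 (by omega) hN'
  obtain ⟨D, hD⟩ : ∃ D, D + 3 = S := ⟨S - 3, by omega⟩
  -- the length
  have hlen : BL (3 * m) S ≤ 24 * 2 ^ S * m := by
    have h2 := len_eq (3 * m) S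
    have h3 : 3 * m * 2 ^ (S + 2) = 12 * (2 ^ S * m) := by rw [pow_add]; ring
    have h4 : 24 * 2 ^ S * m = 24 * (2 ^ S * m) := by ring
    unfold BL
    omega
  have hMB : M * BL (3 * m) S ≤ n := by
    calc M * BL (3 * m) S ≤ M * (24 * 2 ^ S * m) := Nat.mul_le_mul_left _ hlen
      _ = 24 * M * 2 ^ S * m := by ring
      _ ≤ n := hm1
  obtain ⟨j, hj⟩ : ∃ j, M * BL (3 * m) S + j = n := ⟨n - M * BL (3 * m) S, by omega⟩
  have hBL3 : 3 ≤ BL (3 * m) S := by
    have h2 := Pool.Agent.Time.len_pos (r := 3 * m) (by omega) S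
    unfold BL
    omega
  refine coreP (P := 2 * g + 1) (M := M) (D := D) (m := m) A (by omega) S j (T' n) hD hm0 hM1
    ?_ ?_ ?_ ?_
  · intro Y hY
    obtain ⟨t, -, c, h2, h3⟩ := (hA _).1 hY
    exact ⟨t, c, h2, h3⟩
  · intro Y hY
    have h2 : wd (XY Y) (3 * m) S M j ∈ A.lang := by
      rw [hA, length_wd, hj]
      obtain ⟨t, c, h3, h4, h5⟩ := (run_wd (XY Y) (3 * m) S M j (by omega) (by omega) hM1).1
        ((gd_even Y S (by omega)).1 hY)
      refine ⟨t, h3.trans ?_, c, h4, h5⟩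
      obtain ⟨h6, h7⟩ := time_bound (B := BL (3 * m) S) (M := M) (P := 2 * g + 1) hM1 hBL3
      rcases hMa with h8 | h8
      · have := h6 h8
        have := h0 n
        omega
      · have h9 : M ^ (2 * g + 1) * (M * BL (3 * m) S) ≤ M ^ (2 * g + 1) * n :=
          Nat.mul_le_mul_left _ hMB
        omega
    have h3 := htime _ h2
    rw [length_wd, hj] at h3
    exact h3
  · have e1 : S - 2 = D + 1 := by omega
    rw [e1] at htravel
    exact htravel
  · -- the counting inequality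
    set V := M ^ (2 * g + 1 + 1) * Fintype.card (Nd D) with hV
    set E := (2 * g + 1 + 1) * (2 * k * T' n) / m with hE
    have hNd : 0 < Fintype.card (Nd D) := Fintype.card_pos_iff.2 ⟨⟨[], Nat.zero_le _⟩⟩
    have hV1 : 1 ≤ V := Nat.mul_pos (Nat.pow_pos hM1) hNd
    have hV2 : V ≤ M ^ (2 * g + 2) * 2 ^ S := by
      refine Nat.mul_le_mul_left _ ((card_nodes D).trans ?_)
      exact Nat.pow_le_pow_right (by norm_num) (by omega)
    have hc := hcount V E hV1 hV2 le_rfl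
    set ρ := 2 * s + 2 * k * (e * S + 2) + 1 with hρ
    rw [hj]
    -- the base
    have hR : (Nat.card A.Q * (n + 2) ^ k) ^ 2 + 1 ≤ 2 ^ ρ := by
      have hn2 : n + 2 ≤ 2 ^ (e * S + 2) := by
        rw [pow_add, ← hn]
        omega
      have h2 : Nat.card A.Q * (n + 2) ^ k ≤ 2 ^ (s + k * (e * S + 2)) := by
        rw [pow_add, mul_comm k, pow_mul]
        exact Nat.mul_le_mul hs (Nat.pow_le_pow_left hn2 k)
      have h3 : (Nat.card A.Q * (n + 2) ^ k) ^ 2 ≤ 2 ^ (2 * s + 2 * k * (e * S + 2)) := by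
        calc (Nat.card A.Q * (n + 2) ^ k) ^ 2 ≤ (2 ^ (s + k * (e * S + 2))) ^ 2 :=
              Nat.pow_le_pow_left h2 2
          _ = _ := by rw [← pow_mul]; congr 1; ring
      rw [hρ, pow_succ 2 (2 * s + 2 * k * (e * S + 2))]
      have h4 : 1 ≤ 2 ^ (2 * s + 2 * k * (e * S + 2)) := Nat.one_le_two_pow
      omega
    have hmn : m ≤ 2 ^ (e * S + 1) := by
      have h2 : 1 * m ≤ 24 * M * 2 ^ S * m := Nat.mul_le_mul_right _ h24
      have h3 : 2 ^ (e * S + 1) = 2 * n := by rw [pow_succ, ← hn]; ring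
      omega
    have hprod : V * (m * ((Nat.card A.Q * (n + 2) ^ k) ^ 2 + 1) ^ E) ≤
        2 ^ (V + (e * S + 1) + ρ * E) := by
      rw [pow_add, pow_add, mul_assoc (2 ^ V)]
      refine Nat.mul_le_mul Nat.lt_two_pow_self.le (Nat.mul_le_mul hmn ?_)
      rw [pow_mul]
      exact Nat.pow_le_pow_left hR E
    have hb0 := bet_nonneg (2 * g + 1)
    have hb1 := bet_lt_one (2 * g + 1)
    have hbet : bet (2 * g + 1) ^ m ≤ (1 / 2 : ℝ) ^ (m / β) := by
      calc bet (2 * g + 1) ^ m ≤ bet (2 * g + 1) ^ (β * (m / β)) :=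
            pow_le_pow_of_le_one hb0 hb1.le (Nat.mul_div_le m β)
        _ = (bet (2 * g + 1) ^ β) ^ (m / β) := by rw [pow_mul]
        _ ≤ (1 / 2 : ℝ) ^ (m / β) := pow_le_pow_left₀ (pow_nonneg hb0 _) hβ.le _
    have hdiv : 2 * V + (e * S + 1) + ρ * E < m / β := by
      have h2 : 2 * V + (e * S + 1) + ρ * E + 1 ≤ m / β := by
        rw [Nat.le_div_iff_mul_le hβ1, mul_comm]
        exact hc
      omega
    calc (2 : ℝ) ^ V * ((V : ℕ) * (m * ((Nat.card A.Q * (n + 2) ^ k) ^ 2 + 1) ^ E : ℕ)) *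
          bet (2 * g + 1) ^ m
        ≤ (2 : ℝ) ^ V * (2 : ℝ) ^ (V + (e * S + 1) + ρ * E) * (1 / 2 : ℝ) ^ (m / β) := by
          have h2 : ((V : ℕ) * (m * ((Nat.card A.Q * (n + 2) ^ k) ^ 2 + 1) ^ E : ℕ) : ℝ) ≤
              (2 : ℝ) ^ (V + (e * S + 1) + ρ * E) := by exact_mod_cast hprod
          refine mul_le_mul (mul_le_mul_of_nonneg_left h2 (by positivity)) hbet
            (pow_nonneg hb0 _) (by positivity)
      _ = (2 : ℝ) ^ (2 * V + (e * S + 1) + ρ * E) * (1 / 2 : ℝ) ^ (m / β) := by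
          rw [← pow_add]
          congr 2
          ring
      _ < (2 : ℝ) ^ (m / β) * (1 / 2 : ℝ) ^ (m / β) := by
          refine mul_lt_mul_of_pos_right ?_ (by positivity)
          exact pow_lt_pow_right₀ (by norm_num) hdiv
      _ = 1 := by rw [← mul_pow]; norm_num

end Pool.Agent.Poly
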