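import Pool.Agent.Lib_helper16.Poly.Sess

/-!
The pushdown automaton: the way back to the next tuple of blocks, and the whole run.
-/

set_option autoImplicit false

namespace Pool.Agent.Poly

open Pool.Agent.Heads
open Pool.Agent.Time (len st)

variable {P : ℕ} (X : ℕ → Fin (P + 1) → List Bool → ℕ → Bool) (r S M j : ℕ)

/-- Positions on the way back. -/
def bp (B M : ℕ) (a : Fin (P + 1) → ℕ) (i0 : Fin (P + 1)) (s : ℕ) (i : Fin (P + 1)) : ℕ :=
  if i < i0 then M * B - s else if i0 < i then max (a i * B + 1) ((a i + 1) * B - s)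
    else (a i + 1) * B + 1

/-- The condition for the end of the way back. -/
def Fin' (w : List (Lt P)) (p : Fin (P + 1) → ℕ) (i0 : Fin (P + 1)) : Prop :=
  (∀ j, j < i0 → isLeft (tape w (p j)) = true) ∧ (∀ j, i0 < j → isHash (tape w (p j)) = true)

lemma isLeft_succ {w : List (Lt P)} (p : ℕ) : isLeft (tape w (p + 1)) = false := by
  simp only [tape]
  split <;> rfl

lemma isLeft_iff {w : List (Lt P)} (p : ℕ) : isLeft (tape w p) = true ↔ p = 0 := by
  cases p with
  | zero => simp [tape, isLeft]
  | succ p => rw [isLeft_succ]; simp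

lemma back_step {a : Fin (P + 1) → ℕ} (ha : ∀ i, a i < M) {i0 : Fin (P + 1)} {s : ℕ}
    (h : ¬ Fin' (wd X r S M j) (bp (BL r S) M a i0 s) i0) :
    stp (wd X r S M j) ⟨.back i0, bp (BL r S) M a i0 s, []⟩ =
      some ⟨.back i0, bp (BL r S) M a i0 (s + 1), []⟩ := by
  unfold Fin' at h
  unfold stp
  simp only [dst, if_neg h, Option.map_some]
  congr 2
  funext i
  have hB : 0 < BL r S := by unfold BL; omega
  rcases lt_trichotomy i i0 with hi | hi | hi
  · have e1 : bp (BL r S) M a i0 s i = M * BL r S - s := by simp [bp, hi]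
    have e2 : bp (BL r S) M a i0 (s + 1) i = M * BL r S - (s + 1) := by simp [bp, hi]
    simp only [e1, e2, if_pos hi]
    by_cases hz : M * BL r S - s = 0
    · simp only [if_pos ((isLeft_iff (w := wd X r S M j) _).2 hz), move]
      omega
    · simp only [if_neg (fun h => hz ((isLeft_iff (w := wd X r S M j) _).1 h)), move]
      omega
  · subst hi
    have e1 : ∀ s, bp (BL r S) M a i s i = (a i + 1) * BL r S + 1 := by intro s; simp [bp]
    simp only [e1, lt_irrefl, if_false, move]
  · have hi' : ¬ i < i0 := not_lt.2 hi.le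
    have e1 : ∀ s, bp (BL r S) M a i0 s i = max (a i * BL r S + 1) ((a i + 1) * BL r S - s) := by
      intro s; simp [bp, hi, hi']
    simp only [e1, if_neg hi', if_pos hi]
    have e3 : (a i + 1) * BL r S = a i * BL r S + BL r S := by ring
    rcases Nat.lt_or_ge (a i * BL r S + 1) ((a i + 1) * BL r S - s) with h2 | h2
    · simp only [max_eq_right h2.le]
      obtain ⟨q, hq⟩ : ∃ q, (a i + 1) * BL r S - s = a i * BL r S + q + 1 :=
        ⟨(a i + 1) * BL r S - s - (a i * BL r S + 1), by omega⟩
      have h3 : isHash (tape (wd X r S M j) ((a i + 1) * BL r S - s)) = false := by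
        rw [hq]
        exact wd_not_hash X r S j (ha i) (by omega) (by omega)
      simp only [h3, Bool.false_eq_true, if_false, move]
      omega
    · simp only [max_eq_left h2]
      have h3 : isHash (tape (wd X r S M j) (a i * BL r S + 1)) = true := by
        rw [tape_at (wd_hash X r S j (ha i))]
        rfl
      simp only [h3, if_true, move]
      omega

lemma back_run {a : Fin (P + 1) → ℕ} (ha : ∀ i, a i < M) {i0 : Fin (P + 1)} {D : ℕ}
    (h : ∀ s < D, ¬ Fin' (wd X r S M j) (bp (BL r S) M a i0 s) i0) : ∀ s ≤ D,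
    Rn (wd X r S M j) s ⟨.back i0, bp (BL r S) M a i0 0, []⟩
      ⟨.back i0, bp (BL r S) M a i0 s, []⟩ := by
  intro s
  induction s with
  | zero => intro _; rfl
  | succ s ih =>
    intro hs
    exact (ih (by omega)).trans (Rn.one (back_step X r S M j ha (h s (by omega))))

/-- The next tuple. -/
def nxt (a : Fin (P + 1) → ℕ) (i0 i : Fin (P + 1)) : ℕ :=
  if i < i0 then 0 else if i0 < i then a i else a i + 1

lemma back_last {a : Fin (P + 1) → ℕ} {i0 : Fin (P + 1)} {s : ℕ} (hM : M * BL r S ≤ s ∨
    (i0.val = 0 ∧ BL r S - 1 ≤ s)) (ha : ∀ i, a i < M)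
    (h : Fin' (wd X r S M j) (bp (BL r S) M a i0 s) i0) :
    stp (wd X r S M j) ⟨.back i0, bp (BL r S) M a i0 s, []⟩ =
      some ⟨.go, fun i => nxt a i0 i * BL r S + 1, []⟩ := by
  unfold Fin' at h
  unfold stp
  simp only [dst, if_pos h, Option.map_some]
  congr 2
  funext i
  have hB : 0 < BL r S := by unfold BL; omega
  rcases lt_trichotomy i i0 with hi | hi | hi
  · have e1 : bp (BL r S) M a i0 s i = M * BL r S - s := by simp [bp, hi]
    have e2 := h.1 i hi
    rw [isLeft_iff] at e2
    rw [e2, if_pos hi]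
    simp only [nxt, if_pos hi, move]
    omega
  · subst hi
    have e1 : ∀ s, bp (BL r S) M a i s i = (a i + 1) * BL r S + 1 := by intro s; simp [bp]
    rw [e1, if_neg (lt_irrefl _)]
    simp only [nxt, lt_irrefl, if_false, move]
  · have hi' : ¬ i < i0 := not_lt.2 hi.le
    have e1 : ∀ s, bp (BL r S) M a i0 s i = max (a i * BL r S + 1) ((a i + 1) * BL r S - s) := by
      intro s; simp [bp, hi, hi']
    rw [e1, if_neg hi']
    have e3 : (a i + 1) * BL r S = a i * BL r S + BL r S := by ring
    have e4 : (a i + 1) * BL r S ≤ M * BL r S := Nat.mul_le_mul_right _ (ha i)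
    have e5 : max (a i * BL r S + 1) ((a i + 1) * BL r S - s) = a i * BL r S + 1 := by
      rcases hM with h | ⟨-, h⟩ <;> omega
    rw [e5]
    simp only [nxt, if_neg hi', if_pos hi, move]

/-- The time for the way back. -/
def bt (B M : ℕ) (i0 : Fin (P + 1)) : ℕ := if i0.val = 0 then B - 1 else M * B

/-- From the end of a session to the start of the next session. -/
lemma back_full (hP : 0 < P) {a : Fin (P + 1) → ℕ} (ha : ∀ i, a i < M) {i0 : Fin (P + 1)}
    (h1 : ∀ i < i0, a i + 1 = M) :
    Rn (wd X r S M j) (bt (BL r S) M i0 + 1) ⟨.back i0,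
      fun i => if i = i0 then (a i + 1) * BL r S + 1 else (a i + 1) * BL r S, []⟩
      ⟨.go, fun i => nxt a i0 i * BL r S + 1, []⟩ := by
  have hB : 0 < BL r S := by unfold BL; omega
  have e0 : (fun i => if i = i0 then (a i + 1) * BL r S + 1 else (a i + 1) * BL r S) =
      bp (BL r S) M a i0 0 := by
    funext i
    rcases lt_trichotomy i i0 with hi | hi | hi
    · simp only [bp, if_pos hi, if_neg hi.ne, h1 i hi]
      rfl
    · subst hi
      simp [bp]
    · simp only [bp, if_neg (not_lt.2 hi.le), if_pos hi, if_neg hi.ne']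
      have e3 : (a i + 1) * BL r S = a i * BL r S + BL r S := by ring
      omega
  rw [e0]
  by_cases hz : i0.val = 0
  · have e1 : bt (BL r S) M i0 = BL r S - 1 := by simp [bt, hz]
    rw [e1]
    have hlast : i0 < Fin.last P := by
      rw [Fin.lt_def, hz]
      exact hP
    refine (back_run X r S M j ha (D := BL r S - 1) ?_ _ le_rfl).trans (Rn.one ?_)
    · intro s hs hF
      have h2 := hF.2 (Fin.last P) hlast
      have e3 : (a (Fin.last P) + 1) * BL r S = a (Fin.last P) * BL r S + BL r S := by ring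
      have e4 : bp (BL r S) M a i0 s (Fin.last P) =
          a (Fin.last P) * BL r S + (BL r S - s - 1) + 1 := by
        simp only [bp, if_neg (not_lt.2 hlast.le), if_pos hlast]
        omega
      rw [e4, wd_not_hash X r S j (ha _) (by omega) (by omega)] at h2
      exact absurd h2 (by simp)
    · refine back_last X r S M j (Or.inr ⟨hz, le_rfl⟩) ha ?_
      constructor
      · intro i hi
        rw [Fin.lt_def, hz] at hi
        exact absurd hi (Nat.not_lt_zero _)
      · intro i hi
        have e3 : (a i + 1) * BL r S = a i * BL r S + BL r S := by ring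
        have e4 : bp (BL r S) M a i0 (BL r S - 1) i = a i * BL r S + 1 := by
          simp only [bp, if_neg (not_lt.2 hi.le), if_pos hi]
          omega
        rw [e4, tape_at (wd_hash X r S j (ha i))]
        rfl
  · have e1 : bt (BL r S) M i0 = M * BL r S := by simp [bt, hz]
    rw [e1]
    refine (back_run X r S M j ha (D := M * BL r S) ?_ _ le_rfl).trans (Rn.one ?_)
    · intro s hs hF
      have h0 : (0 : Fin (P + 1)) < i0 := by
        rw [Fin.lt_def]
        exact Nat.pos_of_ne_zero hz
      have h2 := hF.1 0 h0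
      rw [isLeft_iff] at h2
      simp only [bp, if_pos h0] at h2
      omega
    · refine back_last X r S M j (Or.inl le_rfl) ha ?_
      constructor
      · intro i hi
        rw [isLeft_iff]
        simp [bp, hi]
      · intro i hi
        have e4 : (a i + 1) * BL r S ≤ M * BL r S := Nat.mul_le_mul_right _ (ha i)
        have e5 : bp (BL r S) M a i0 (M * BL r S) i = a i * BL r S + 1 := by
          simp only [bp, if_neg (not_lt.2 hi.le), if_pos hi]
          omega
        rw [e5, tape_at (wd_hash X r S j (ha i))]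
        rfl

/-! ### Numbering of the tuples -/

/-- The digits. -/
def dg (M n : ℕ) (i : Fin (P + 1)) : ℕ := n / M ^ i.val % M

lemma dg_low {M n : ℕ} (hM : 0 < M) : ∀ i : ℕ, (∀ i' < i, n / M ^ i' % M + 1 = M) →
    (n + 1) / M ^ i = n / M ^ i + 1 := by
  intro i
  induction i with
  | zero => intro _; simp
  | succ i ih =>
    intro h
    have h1 := ih (fun i' hi' => h i' (by omega))
    have h2 := h i (by omega)
    rw [pow_succ, ← Nat.div_div_eq_div_mul, ← Nat.div_div_eq_div_mul, h1]
    have h3 := Nat.div_add_mod (n / M ^ i) M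
    have h4 : n / M ^ i + 1 = M * (n / M ^ i / M + 1) := by
      rw [mul_add]
      omega
    rw [h4, Nat.mul_div_cancel_left _ hM]

lemma dg_succ {M n : ℕ} (hM : 0 < M) {i0 : Fin (P + 1)} (h0 : dg M n i0 + 1 < M)
    (h1 : ∀ i < i0, dg M n i + 1 = M) : dg M (n + 1) = nxt (dg (P := P) M n) i0 := by
  have low : ∀ i : Fin (P + 1), i ≤ i0 → (n + 1) / M ^ i.val = n / M ^ i.val + 1 := by
    intro i hi
    refine dg_low hM i.val ?_
    intro i' hi'
    exact h1 ⟨i', by have := i.isLt; omega⟩ (by rw [Fin.lt_def]; have := Fin.le_def.1 hi; simp only; omega)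
  funext i
  rcases lt_trichotomy i i0 with hi | hi | hi
  · simp only [nxt, if_pos hi, dg]
    rw [low i hi.le]
    have h2 : n / M ^ i.val % M + 1 = M := h1 i hi
    rw [Nat.add_mod]
    rcases Nat.lt_or_ge 1 M with h | h
    · rw [Nat.mod_eq_of_lt h, h2, Nat.mod_self]
    · have : M = 1 := by omega
      subst this
      exact Nat.mod_one _
  · subst hi
    simp only [nxt, lt_irrefl, if_false, dg]
    rw [low i le_rfl]
    have h2 : n / M ^ i.val % M + 1 < M := h0
    rw [Nat.add_mod]
    have h3 : 1 % M = 1 := Nat.mod_eq_of_lt (by omega)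
    rw [h3, Nat.mod_eq_of_lt h2]
  · simp only [nxt, if_neg (not_lt.2 hi.le), if_pos hi, dg]
    have h2 : n / M ^ i0.val % M + 1 < M := h0
    obtain ⟨d, hd⟩ : ∃ d, i.val = i0.val + 1 + d := ⟨i.val - (i0.val + 1), by
      have := Fin.lt_def.1 hi; omega⟩
    have h3 : (n + 1) / M ^ (i0.val + 1) = n / M ^ (i0.val + 1) := by
      rw [pow_succ, ← Nat.div_div_eq_div_mul, ← Nat.div_div_eq_div_mul, low i0 le_rfl,
        Nat.succ_div, if_neg, add_zero]
      intro h4
      have h5 := Nat.mod_eq_zero_of_dvd h4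
      rw [Nat.add_mod] at h5
      have h6 : 1 % M = 1 := Nat.mod_eq_of_lt (by omega)
      rw [h6, Nat.mod_eq_of_lt h2] at h5
      omega
    rw [hd, pow_add, ← Nat.div_div_eq_div_mul, ← Nat.div_div_eq_div_mul, h3]

lemma dg_lt {M : ℕ} (hM : 0 < M) (n : ℕ) (i : Fin (P + 1)) : dg M n i < M := Nat.mod_lt _ hM

/-- If all digits are maximal, the number is maximal. -/
lemma dg_max {M n : ℕ} (hM : 0 < M) (hn : n < M ^ (P + 1))
    (h : ∀ i : Fin (P + 1), dg M n i + 1 = M) : n + 1 = M ^ (P + 1) := by
  have h1 := dg_low (n := n) hM (P + 1) (fun i hi => h ⟨i, hi⟩)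
  rw [Nat.div_eq_of_lt hn, zero_add] at h1
  have hpos : 0 < M ^ (P + 1) := Nat.pow_pos hM
  by_contra hne
  rw [Nat.div_eq_of_lt (by omega)] at h1
  omega

/-- If the number is not maximal, the first digit which is not maximal. -/
lemma dg_first {M n : ℕ} (hM : 0 < M) (hn : n + 1 < M ^ (P + 1)) :
    ∃ i0 : Fin (P + 1), dg M n i0 + 1 < M ∧ ∀ i < i0, dg M n i + 1 = M := by
  classical
  by_contra hcon
  push Not at hcon
  have key : ∀ m : ℕ, ∀ i : Fin (P + 1), i.val = m → dg M n i + 1 = M := by
    intro m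
    induction m using Nat.strong_induction_on with
    | _ m ih =>
      intro i hi
      by_contra hne
      have h1 : dg M n i + 1 < M := by
        have := dg_lt hM n i
        omega
      obtain ⟨i', hi', h2⟩ := hcon i h1
      exact h2 (ih i'.val (by rw [← hi]; exact hi') i' rfl)
  have := dg_max hM (by omega) (fun i => key i.val i rfl)
  omega

/-- All tuples occur. -/
lemma dg_surj {M : ℕ} (a : Fin (P + 1) → Fin M) : ∃ n < M ^ (P + 1), ∀ i, dg M n i = a i := by
  have h := fun i => finFunctionFinEquiv_symm_apply_val (m := M) (finFunctionFinEquiv a) i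
  refine ⟨finFunctionFinEquiv a, (finFunctionFinEquiv a).isLt, ?_⟩
  intro i
  have h1 := h i
  rw [Equiv.symm_apply_apply] at h1
  exact h1.symm

/-! ### The whole run -/

/-- The potential. -/
def pot (B M n : ℕ) : ℕ := n * (2 * B + 1) + n / M * ((M + 1) * B + 2)

lemma pot_succ {B M n : ℕ} (hM : 0 < M) (hB : 0 < B) {i0 : Fin (P + 1)}
    (h1 : ∀ i < i0, dg M n i + 1 = M) :
    pot B M n + (B + 1 + (bt B M i0 + 1)) ≤ pot B M (n + 1) := by
  unfold pot bt
  split_ifs with h
  · have h2 : n / M ≤ (n + 1) / M := Nat.div_le_div_right (by omega)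
    have h3 : n / M * ((M + 1) * B + 2) ≤ (n + 1) / M * ((M + 1) * B + 2) :=
      Nat.mul_le_mul_right _ h2
    have h4 : (n + 1) * (2 * B + 1) = n * (2 * B + 1) + (2 * B + 1) := by ring
    omega
  · have h0 : (0 : Fin (P + 1)) < i0 := by
      rw [Fin.lt_def]
      exact Nat.pos_of_ne_zero h
    have h2 := dg_low (n := n) hM 1 (fun i hi => by
      have : i = 0 := by omega
      subst this
      exact h1 0 h0)
    rw [pow_one] at h2
    rw [h2]
    have h4 : (n + 1) * (2 * B + 1) = n * (2 * B + 1) + (2 * B + 1) := by ring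
    have h5 : (n / M + 1) * ((M + 1) * B + 2) =
      n / M * ((M + 1) * B + 2) + (M * B + B + 2) := by ring
    omega

/-- The run from the tuple with number `n`. -/
lemma run_from (hP : 0 < P) (hr : 0 < r) (hM : 0 < M) (k : ℕ) : ∀ n, n + k + 1 = M ^ (P + 1) →
    ((∀ n', n ≤ n' → n' < M ^ (P + 1) → Even' X r S (dg M n')) →
      ∃ t c, t + pot (BL r S) M n ≤ BL r S + 1 + pot (BL r S) M (M ^ (P + 1) - 1) ∧
        Rn (wd X r S M j) t ⟨.go, fun i => dg M n i * BL r S + 1, []⟩ c ∧ c.state = .acc) ∧
    ((∃ n', n ≤ n' ∧ n' < M ^ (P + 1) ∧ ¬ Even' X r S (dg M n')) →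
      ¬ AccF (wd X r S M j) ⟨.go, fun i => dg M n i * BL r S + 1, []⟩) := by
  have hB : 0 < BL r S := by unfold BL; omega
  induction k with
  | zero =>
    intro n hn
    have hsr := sess_run X r S M j hr (dg M n) (dg_lt hM n)
    constructor
    · intro h
      have h1 := hsr.1 (h n le_rfl (by omega))
      have hmax : ∀ i : Fin (P + 1), dg M n i + 1 = M := by
        intro i
        by_contra hne
        have hlt : dg M n i + 1 < M := by
          have := dg_lt hM n i
          omega
        have e : n = M ^ (P + 1) - 1 := by omega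
        -- the digits of the maximal number
        have key : ∀ i : Fin (P + 1), dg M (M ^ (P + 1) - 1) i + 1 = M := by
          intro i
          obtain ⟨n', hn', hd⟩ := dg_surj (P := P) (M := M) (fun _ => ⟨M - 1, by omega⟩)
          have h5 : ∀ i : Fin (P + 1), dg M n' i + 1 = M := fun i => by
            rw [hd i]
            simp only
            omega
          have h6 := dg_max hM hn' h5
          have h7 : n' = M ^ (P + 1) - 1 := by omega
          rw [← h7]
          exact h5 i
        rw [e] at hlt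
        have := key i
        omega
      have h2 := sess_acc X r S M j (dg M n) hmax
      refine ⟨BL r S + 1, _, ?_, h1.trans (Rn.one h2), rfl⟩
      have e : n = M ^ (P + 1) - 1 := by omega
      rw [e]
    · rintro ⟨n', h1, h2, h3⟩
      have : n' = n := by omega
      subst this
      exact hsr.2 h3
  | succ k ih =>
    intro n hn
    have hsr := sess_run X r S M j hr (dg M n) (dg_lt hM n)
    obtain ⟨i0, h0, h1⟩ := dg_first (P := P) (n := n) hM (by omega)
    have h2 := sess_end X r S M j (dg M n) (dg_lt hM n) i0 h0 h1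
    have h3 := back_full X r S M j hP (dg_lt hM n) (i0 := i0) h1
    rw [← dg_succ hM h0 h1] at h3
    obtain ⟨ih1, ih2⟩ := ih (n + 1) (by omega)
    have hpot := pot_succ (B := BL r S) hM hB h1
    constructor
    · intro h
      have g1 := hsr.1 (h n le_rfl (by omega))
      obtain ⟨t, c, g2, g3, g4⟩ := ih1 (fun n' hn' hn2 => h n' (by omega) hn2)
      refine ⟨BL r S + 1 + (bt (BL r S) M i0 + 1) + t, c, ?_,
        (((g1.trans (Rn.one h2)).trans h3).trans g3), g4⟩
      omega
    · rintro ⟨n', g1, g2, g3⟩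
      by_cases hE : Even' X r S (dg M n)
      · have g4 := hsr.1 hE
        rw [accF_rn g4, accF_step h2, accF_rn h3]
        apply ih2
        refine ⟨n', ?_, g2, g3⟩
        by_contra hlt
        have : n' = n := by omega
        subst this
        exact g3 hE
      · exact hsr.2 hE

/-- The initial configuration. -/
def ini (P : ℕ) : Cg P := ⟨.start, fun _ => 0, []⟩

/-- The run on the words. -/
theorem run_wd (hP : 0 < P) (hr : 0 < r) (hM : 0 < M) :
    ((∀ a : Fin (P + 1) → Fin M, Even' X r S (fun i => a i)) →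
      ∃ t c, t ≤ BL r S + 2 + pot (BL r S) M (M ^ (P + 1) - 1) ∧
        Rn (wd X r S M j) t (ini P) c ∧ c.state = .acc) ∧
    ((∃ a : Fin (P + 1) → Fin M, ¬ Even' X r S (fun i => a i)) →
      ¬ AccF (wd X r S M j) (ini P)) := by
  have hB : 0 < BL r S := by unfold BL; omega
  have hstart : stp (wd X r S M j) (ini P) =
      some ⟨.go, fun i => dg M 0 i * BL r S + 1, []⟩ := by
    unfold stp ini
    simp only [dst, Option.map_some]
    congr 2
    funext i
    have h1 := length_wd X r S M j
    have h2 : 0 < M * BL r S := Nat.mul_pos hM hB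
    simp only [dg, Nat.zero_div, Nat.zero_mod, move]
    omega
  have hpos : 0 < M ^ (P + 1) := Nat.pow_pos hM
  have h := run_from X r S M j hP hr hM (M ^ (P + 1) - 1) 0 (by omega)
  constructor
  · intro ha
    obtain ⟨t, c, h1, h2, h3⟩ := h.1 (by
      intro n' _ _
      exact ha (fun i => ⟨dg M n' i, dg_lt hM n' i⟩))
    refine ⟨1 + t, c, ?_, (Rn.one hstart).trans h2, h3⟩
    have e : pot (BL r S) M 0 = 0 := by simp [pot]
    omega
  · rintro ⟨a, ha⟩
    rw [accF_step hstart]
    apply h.2
    obtain ⟨n', hn', hd⟩ := dg_surj a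
    refine ⟨n', Nat.zero_le _, hn', ?_⟩
    have e : dg M n' = fun i => (a i : ℕ) := funext hd
    rw [e]
    exact ha

/-- The time bound. -/
lemma time_bound {B M P : ℕ} (hM : 0 < M) (hB : 3 ≤ B) :
    (M = 1 → B + 2 + pot B M (M ^ (P + 1) - 1) ≤ M * B + 2) ∧
    B + 2 + pot B M (M ^ (P + 1) - 1) ≤ 6 * (M ^ P * (M * B)) + 2 := by
  constructor
  · rintro rfl
    simp [pot]
  · unfold pot
    have h1 : (M ^ (P + 1) - 1) / M ≤ M ^ P - 1 := by
      rw [Nat.div_le_iff_le_mul_add_pred hM]
      have : 0 < M ^ P := Nat.pow_pos hM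
      obtain ⟨u, hu⟩ : ∃ u, M ^ P = u + 1 := ⟨M ^ P - 1, by omega⟩
      rw [pow_succ, hu, Nat.add_sub_cancel]
      have : (u + 1) * M = M * u + M := by ring
      omega
    obtain ⟨u, hu⟩ : ∃ u, M ^ P = u + 1 := ⟨M ^ P - 1, by
      have : 0 < M ^ P := Nat.pow_pos hM
      omega⟩
    have h2 : M ^ (P + 1) - 1 + 1 = (u + 1) * M := by
      have : 0 < M ^ (P + 1) := Nat.pow_pos hM
      rw [← hu, ← pow_succ]
      omega
    set N := M ^ (P + 1) - 1 with hN
    rw [hu] at h1 ⊢
    rw [Nat.add_sub_cancel] at h1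
    have h3 : N / M * ((M + 1) * B + 2) ≤ u * ((M + 1) * B + 2) := Nat.mul_le_mul_right _ h1
    have h4 : N * (2 * B + 1) ≤ N * (3 * B) := Nat.mul_le_mul_left _ (by omega)
    have h5 : u * ((M + 1) * B + 2) ≤ u * (3 * (M * B)) := by
      refine Nat.mul_le_mul_left _ ?_
      have h6 : 1 * B ≤ M * B := Nat.mul_le_mul_right _ hM
      have h7 : (M + 1) * B = M * B + B := by ring
      omega
    have h8 : 6 * ((u + 1) * (M * B)) = 3 * ((N + 1) * B) + 3 * ((u + 1) * (M * B)) := by
      rw [h2]; ring
    have h9 : 3 * ((N + 1) * B) = N * (3 * B) + 3 * B := by ring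
    have h10 : 3 * ((u + 1) * (M * B)) = u * (3 * (M * B)) + 3 * (M * B) := by ring
    omega

end Pool.Agent.Poly
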