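import Pool.Agent.Lib_helper16.Poly.ProdP

/-!
A clock with running time of the order of `n ^ (1 + a / b)`, `a < b`.
-/

set_option autoImplicit false

namespace Pool.Agent.Poly

open Pool.Agent.Heads

/-- States of the clock. -/
inductive Qc (b : ℕ) where
  | s0 : Qc b
  | d1 : Bool → Fin b → Qc b
  | d1' : Bool → Fin b → Qc b
  | d2 : Bool → Fin b → Qc b
  | e0 : Qc b
  | e1 : Qc b
  | e2 : Qc b

instance (b : ℕ) : Finite (Qc b) := by
  let e : Qc b → Fin 7 × Bool × Option (Fin b) := fun q => match q with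
    | .s0 => (0, false, none)
    | .d1 w i => (1, w, some i)
    | .d1' w i => (2, w, some i)
    | .d2 w i => (3, w, some i)
    | .e0 => (4, false, none)
    | .e1 => (5, false, none)
    | .e2 => (6, false, none)
  refine Finite.of_injective e ?_
  intro q q' h
  cases q <;> cases q' <;> simp_all [e]

/-- The scanned symbol is the left endmarker. -/
def isL : Sym Unit → Bool
  | Sym.left => true
  | _ => false

/-- The scanned symbol is the right endmarker. -/
def isR : Sym Unit → Bool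
  | Sym.right => true
  | _ => false

/-- The head that carries the number which is doubled. -/
def hd (w : Bool) : Fin 3 := if w then 2 else 0

variable {a b : ℕ}

/-- The state after a doubling. -/
def nx (a : ℕ) (hb : 0 < b) (w : Bool) (i : Fin b) : Qc b :=
  if w = false ∧ i.val < a then .d1 true i else .d1 false ⟨(i.val + 1) % b, Nat.mod_lt _ hb⟩

/-- The transitions of the clock. -/
def cδ (a : ℕ) (hb : 0 < b) : Qc b → (Fin 3 → Sym Unit) → Option (Qc b × (Fin 3 → Dir))
  | .s0, _ => some (.d1 false ⟨0, hb⟩, fun j => if j = 1 then Dir.S else Dir.R)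
  | .d1 w i, s => if isR (s 1) = true then some (.e0, fun _ => Dir.S) else
      if isL (s (hd w)) = true then some (.d2 w i, fun _ => Dir.S) else
      some (.d1' w i, fun j => if j = hd w then Dir.L else if j = 1 then Dir.R else Dir.S)
  | .d1' w i, _ => some (.d1 w i, fun j => if j = 1 then Dir.R else Dir.S)
  | .d2 w i, s => if isL (s 1) = true then some (nx a hb w i, fun _ => Dir.S) else
      some (.d2 w i, fun j => if j = 1 then Dir.L else if j = hd w then Dir.R else Dir.S)
  | .e0, s => if isL (s 2) = true then none else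
      some (.e1, fun j => if j = 2 then Dir.L else Dir.S)
  | .e1, s => if isL (s 1) = true then some (.e2, fun _ => Dir.S) else
      some (.e1, fun j => if j = 1 then Dir.L else Dir.S)
  | .e2, s => if isR (s 1) = true then some (.e0, fun _ => Dir.S) else
      some (.e2, fun j => if j = 1 then Dir.R else Dir.S)

/-- The clock. -/
def clk (a : ℕ) (hb : 0 < b) : FA Unit 3 where
  Q := Qc b
  finQ := inferInstance
  start := .s0
  accept := ∅
  δ := fun q s => {t | cδ a hb q s = some t}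

lemma clk_det (a : ℕ) (hb : 0 < b) : (clk a hb).Det := by
  intro q s t ht t' ht'
  have h1 : cδ a hb q s = some t := ht
  have h2 : cδ a hb q s = some t' := ht'
  rw [h1] at h2
  exact Option.some.inj h2

/-- The tape of a unary word. -/
def ut (n p : ℕ) : Sym Unit := tape (List.replicate n ()) p

lemma ut_isL (n p : ℕ) : isL (ut n p) = true ↔ p = 0 := by
  cases p with
  | zero => simp [ut, tape, isL]
  | succ p =>
    unfold ut
    simp only [tape]
    split <;> simp [isL]

lemma ut_isR (n p : ℕ) : isR (ut n p) = true ↔ n < p := by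
  cases p with
  | zero => simp [ut, tape, isR]
  | succ p =>
    unfold ut
    simp only [tape, List.getElem?_replicate]
    by_cases h : p < n
    · simp only [if_pos h, isR]
      constructor
      · intro h; exact absurd h (by simp)
      · intro h; omega
    · simp only [if_neg h, isR, true_iff]
      omega

/-- One step of the clock. -/
def cs (a : ℕ) (hb : 0 < b) (n : ℕ) (c : Qc b × (Fin 3 → ℕ)) : Option (Qc b × (Fin 3 → ℕ)) :=
  (cδ a hb c.1 (fun j => ut n (c.2 j))).map fun t =>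
    (t.1, fun j => move (n + 1) (c.2 j) (t.2 j))

/-- Runs of the clock. -/
def Cn (a : ℕ) (hb : 0 < b) (n : ℕ) : ℕ → Qc b × (Fin 3 → ℕ) → Qc b × (Fin 3 → ℕ) → Prop
  | 0, c, c' => c = c'
  | t + 1, c, c' => ∃ c1, cs a hb n c = some c1 ∧ Cn a hb n t c1 c'

lemma Cn.trans {hb : 0 < b} {n t : ℕ} : ∀ {s : ℕ} {c c1 c2 : Qc b × (Fin 3 → ℕ)},
    Cn a hb n t c c1 → Cn a hb n s c1 c2 → Cn a hb n (t + s) c c2 := by
  induction t with
  | zero =>
    intro s c c1 c2 h1 h2
    have h : c = c1 := h1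
    rw [h, zero_add]
    exact h2
  | succ t ih =>
    intro s c c1 c2 h1 h2
    obtain ⟨c3, h3, h4⟩ := h1
    have e : t + 1 + s = (t + s) + 1 := by omega
    rw [e]
    exact ⟨c3, h3, ih h4 h2⟩

lemma Cn.one {hb : 0 < b} {n : ℕ} {c c' : Qc b × (Fin 3 → ℕ)} (h : cs a hb n c = some c') :
    Cn a hb n 1 c c' := ⟨c', h, rfl⟩

lemma cn_snoc {hb : 0 < b} {n t : ℕ} : ∀ {c c' : Qc b × (Fin 3 → ℕ)},
    Cn a hb n (t + 1) c c' ↔ ∃ c1, Cn a hb n t c c1 ∧ cs a hb n c1 = some c' := by
  induction t with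
  | zero =>
    intro c c'
    constructor
    · rintro ⟨c1, h1, h2⟩
      have h : c1 = c' := h2
      rw [← h]
      exact ⟨c, rfl, h1⟩
    · rintro ⟨c1, h1, h2⟩
      have h : c = c1 := h1
      rw [h]
      exact ⟨c', h2, rfl⟩
  | succ t ih =>
    intro c c'
    constructor
    · rintro ⟨c1, h1, h2⟩
      obtain ⟨c2, h3, h4⟩ := ih.1 h2
      exact ⟨c2, ⟨c1, h1, h3⟩, h4⟩
    · rintro ⟨c1, ⟨c2, h1, h2⟩, h3⟩
      exact ⟨c2, h1, ih.2 ⟨c1, h2, h3⟩⟩

lemma cn_halt {hb : 0 < b} {n t : ℕ} : ∀ {t' : ℕ} {c c' c'' : Qc b × (Fin 3 → ℕ)},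
    Cn a hb n t c c' → cs a hb n c' = none → Cn a hb n t' c c'' → t' ≤ t := by
  induction t with
  | zero =>
    intro t' c c' c'' h1 h2 h3
    have h : c = c' := h1
    cases t' with
    | zero => exact le_rfl
    | succ t' =>
      obtain ⟨c1, h4, -⟩ := h3
      rw [h, h2] at h4
      exact absurd h4 (by simp)
  | succ t ih =>
    intro t' c c' c'' h1 h2 h3
    cases t' with
    | zero => exact Nat.zero_le _
    | succ t' =>
      obtain ⟨c1, h4, h5⟩ := h1
      obtain ⟨c2, h6, h7⟩ := h3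
      rw [h4] at h6
      rw [← Option.some.inj h6] at h7
      have := ih h5 h2 h7
      omega

lemma clk_step (a : ℕ) (hb : 0 < b) (n : ℕ) (c c' : Qc b × (Fin 3 → ℕ)) :
    (clk a hb).Step (List.replicate n ()) c c' ↔ cs a hb n c = some c' := by
  unfold cs
  rw [Option.map_eq_some_iff]
  constructor
  · rintro ⟨t, ht, rfl⟩
    refine ⟨t, ht, ?_⟩
    rw [List.length_replicate]
    rfl
  · rintro ⟨t, ht, rfl⟩
    refine ⟨t, ht, ?_⟩
    rw [List.length_replicate]
    rfl

lemma clk_reach (a : ℕ) (hb : 0 < b) (n t : ℕ) : ∀ c : Qc b × (Fin 3 → ℕ),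
    ReachN ((clk a hb).Step (List.replicate n ())) ((clk a hb).start, fun _ => 0) t c ↔
      Cn a hb n t (.s0, fun _ => 0) c := by
  induction t with
  | zero =>
    intro c
    constructor
    · intro h
      cases h
      rfl
    · intro h
      have h' : (Qc.s0, fun _ => 0) = c := h
      rw [← h']
      exact ReachN.zero
  | succ t ih =>
    intro c
    rw [cn_snoc]
    constructor
    · intro h
      cases h with
      | succ h1 h2 => exact ⟨_, (ih _).1 h1, (clk_step a hb n _ _).1 h2⟩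
    · rintro ⟨c1, h1, h2⟩
      exact ReachN.succ ((ih _).2 h1) ((clk_step a hb n _ _).2 h2)

/-! ### Runs -/

/-- Positions: the head `hd w` on `u`, the auxiliary head on `v`, the other head on `z`. -/
def ps (w : Bool) (u v z : ℕ) : Fin 3 → ℕ := fun j => if j = hd w then u else
  if j = 1 then v else z

lemma one_ne_hd (w : Bool) : (1 : Fin 3) ≠ hd w := by cases w <;> decide

@[simp] lemma ps_hd (w : Bool) (u v z : ℕ) : ps w u v z (hd w) = u := by simp [ps]

@[simp] lemma ps_one (w : Bool) (u v z : ℕ) : ps w u v z 1 = v := by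
  simp [ps, one_ne_hd w]

lemma mv_stay (n : ℕ) (w : Bool) (u v z : ℕ) :
    (fun j => move (n + 1) (ps w u v z j) Dir.S) = ps w u v z := rfl

lemma cs_d1_right (hb : 0 < b) {n : ℕ} (w : Bool) (i : Fin b) (u v z : ℕ) (hv : n < v) :
    cs a hb n (.d1 w i, ps w u v z) = some (.e0, ps w u v z) := by
  unfold cs
  simp only [cδ, ps_one, (ut_isR n v).2 hv, if_true, Option.map_some]
  rfl

lemma cs_d1_left (hb : 0 < b) {n : ℕ} (w : Bool) (i : Fin b) (v z : ℕ) (hv : v ≤ n) :
    cs a hb n (.d1 w i, ps w 0 v z) = some (.d2 w i, ps w 0 v z) := by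
  have h1 : isR (ut n v) = false := by
    rw [Bool.eq_false_iff]
    intro h
    have := (ut_isR n v).1 h
    omega
  unfold cs
  simp only [cδ, ps_one, ps_hd, h1, (ut_isL n 0).2 rfl, if_true, Bool.false_eq_true, if_false,
    Option.map_some]
  rfl

lemma cs_d1_mid (hb : 0 < b) {n : ℕ} (w : Bool) (i : Fin b) (u v z : ℕ) (hv : v ≤ n) :
    cs a hb n (.d1 w i, ps w (u + 1) v z) = some (.d1' w i, ps w u (v + 1) z) := by
  have h1 : isR (ut n v) = false := by
    rw [Bool.eq_false_iff]
    intro h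
    have := (ut_isR n v).1 h
    omega
  have h2 : isL (ut n (u + 1)) = false := by
    rw [Bool.eq_false_iff]
    intro h
    have := (ut_isL n (u + 1)).1 h
    omega
  unfold cs
  simp only [cδ, ps_one, ps_hd, h1, h2, Bool.false_eq_true, if_false, Option.map_some]
  congr 2
  funext j
  by_cases hj : j = hd w
  · subst hj
    simp only [ps_hd, if_true, move]
    omega
  · by_cases hj1 : j = 1
    · subst hj1
      simp only [ps_one, if_neg hj, if_true, move]
      omega
    · simp only [ps, if_neg hj, if_neg hj1, move]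

lemma cs_d1' (hb : 0 < b) {n : ℕ} (w : Bool) (i : Fin b) (u v z : ℕ) :
    cs a hb n (.d1' w i, ps w u v z) = some (.d1 w i, ps w u (min (v + 1) (n + 1)) z) := by
  unfold cs
  simp only [cδ, Option.map_some]
  congr 2
  funext j
  by_cases hj1 : j = 1
  · subst hj1
    simp only [ps_one, if_true, move]
  · by_cases hj : j = hd w
    · subst hj
      simp only [ps_hd, if_neg hj1, move]
    · simp only [ps, if_neg hj, if_neg hj1, move]

lemma cs_d2_left (hb : 0 < b) {n : ℕ} (w : Bool) (i : Fin b) (u z : ℕ) :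
    cs a hb n (.d2 w i, ps w u 0 z) = some (nx a hb w i, ps w u 0 z) := by
  unfold cs
  simp only [cδ, ps_one, (ut_isL n 0).2 rfl, if_true, Option.map_some]
  rfl

lemma cs_d2_mid (hb : 0 < b) {n : ℕ} (w : Bool) (i : Fin b) (u v z : ℕ) (hu : u ≤ n) :
    cs a hb n (.d2 w i, ps w u (v + 1) z) = some (.d2 w i, ps w (u + 1) v z) := by
  have h2 : isL (ut n (v + 1)) = false := by
    rw [Bool.eq_false_iff]
    intro h
    have := (ut_isL n (v + 1)).1 h
    omega
  unfold cs
  simp only [cδ, ps_one, h2, Bool.false_eq_true, if_false, Option.map_some]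
  congr 2
  funext j
  by_cases hj1 : j = 1
  · subst hj1
    simp only [ps_one, if_true, move]
    omega
  · by_cases hj : j = hd w
    · subst hj
      simp only [ps_hd, if_neg hj1, if_true, move]
      omega
    · simp only [ps, if_neg hj, if_neg hj1, move]

lemma loop1 (hb : 0 < b) {n : ℕ} (w : Bool) (i : Fin b) (z u : ℕ) : ∀ v, v + 2 * u ≤ n →
    Cn a hb n (2 * u + 1) (.d1 w i, ps w u v z) (.d2 w i, ps w 0 (v + 2 * u) z) := by
  induction u with
  | zero =>
    intro v hv
    exact Cn.one (cs_d1_left hb w i v z (by omega))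
  | succ u ih =>
    intro v hv
    have h1 := cs_d1_mid (a := a) hb w i u v z (n := n) (by omega)
    have h2 := cs_d1' (a := a) hb w i u (v + 1) z (n := n)
    have e : min (v + 1 + 1) (n + 1) = v + 2 := by omega
    rw [e] at h2
    have h3 := ((Cn.one h1).trans (Cn.one h2)).trans (ih (v + 2) (by omega))
    have e2 : v + 2 + 2 * u = v + 2 * (u + 1) := by ring
    have e3 : 1 + 1 + (2 * u + 1) = 2 * (u + 1) + 1 := by ring
    rw [e2, e3] at h3
    exact h3

lemma loop2 (hb : 0 < b) {n : ℕ} (w : Bool) (i : Fin b) (z v : ℕ) : ∀ u, u + v ≤ n + 1 →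
    Cn a hb n (v + 1) (.d2 w i, ps w u v z) (nx a hb w i, ps w (u + v) 0 z) := by
  induction v with
  | zero =>
    intro u hu
    exact Cn.one (cs_d2_left hb w i u z)
  | succ v ih =>
    intro u hu
    have h1 := cs_d2_mid (a := a) hb w i u v z (n := n) (by omega)
    have h3 := (Cn.one h1).trans (ih (u + 1) (by omega))
    have e2 : u + 1 + v = u + (v + 1) := by ring
    have e3 : 1 + (v + 1) = v + 1 + 1 := by ring
    rw [e2, e3] at h3
    exact h3

/-- A doubling. -/
lemma double (hb : 0 < b) {n : ℕ} (w : Bool) (i : Fin b) (z u : ℕ) (hu : 2 * u ≤ n) :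
    Cn a hb n (4 * u + 2) (.d1 w i, ps w u 0 z) (nx a hb w i, ps w (2 * u) 0 z) := by
  have h1 := loop1 (a := a) hb w i z u 0 (n := n) (by omega)
  have h2 := loop2 (a := a) hb w i z (0 + 2 * u) 0 (n := n) (by omega)
  have h3 := h1.trans h2
  have e2 : 0 + (0 + 2 * u) = 2 * u := by ring
  have e3 : 2 * u + 1 + (0 + 2 * u + 1) = 4 * u + 2 := by ring
  rw [e2, e3] at h3
  exact h3

/-- The last doubling. -/
lemma stop (hb : 0 < b) {n : ℕ} (w : Bool) (i : Fin b) (z d : ℕ) : ∀ u v, v + d = n + 1 →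
    n + 1 ≤ v + 2 * u →
    ∃ t u', t ≤ 2 * d + 1 ∧ Cn a hb n t (.d1 w i, ps w u v z) (.e0, ps w u' (n + 1) z) := by
  induction d using Nat.strong_induction_on with
  | _ d ih =>
    intro u v hv hu
    rcases Nat.eq_zero_or_pos d with hd | hd
    · refine ⟨1, u, by omega, ?_⟩
      have e : v = n + 1 := by omega
      rw [e]
      exact Cn.one (cs_d1_right hb w i u (n + 1) z (by omega))
    · obtain ⟨u, rfl⟩ : ∃ u1, u = u1 + 1 := ⟨u - 1, by omega⟩
      have h1 := cs_d1_mid (a := a) hb w i u v z (n := n) (by omega)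
      have h2 := cs_d1' (a := a) hb w i u (v + 1) z (n := n)
      obtain ⟨t, u', h3, h4⟩ := ih (n + 1 - min (v + 1 + 1) (n + 1)) (by omega) u
        (min (v + 1 + 1) (n + 1)) (by omega) (by omega)
      refine ⟨1 + 1 + t, u', by omega, ((Cn.one h1).trans (Cn.one h2)).trans h4⟩

/-- The exponent of the carried number. -/
def ex (a b i : ℕ) : ℕ := a * (i / b) + min (i % b) a

lemma ex_succ (hb : 0 < b) (hab : a < b) (i : ℕ) :
    ex a b (i + 1) = ex a b i + (if i % b < a then 1 else 0) := by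
  unfold ex
  have h1 := Nat.div_add_mod i b
  have h2 := Nat.mod_lt i hb
  have h1' : i / b * b + i % b = i := by rw [mul_comm]; exact h1
  have h1'' : (i / b + 1) * b = i / b * b + b := by ring
  rcases Nat.lt_or_ge (i % b + 1) b with h | h
  · have e1 : (i + 1) / b = i / b := by
      apply Nat.div_eq_of_lt_le
      · omega
      · omega
    have e2 : (i + 1) % b = i % b + 1 := by
      rw [Nat.add_mod, Nat.mod_eq_of_lt (show 1 < b by omega), Nat.mod_eq_of_lt h]
    rw [e1, e2]
    split_ifs <;> omega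
  · have h3 : i % b + 1 = b := by omega
    have h4 : i + 1 = b * (i / b + 1) := by rw [mul_add]; omega
    have e1 : (i + 1) / b = i / b + 1 := by
      rw [h4, Nat.mul_div_cancel_left _ hb]
    have e2 : (i + 1) % b = 0 := by rw [h4]; exact Nat.mul_mod_right _ _
    rw [e1, e2, mul_add]
    split_ifs <;> omega

lemma ex_le (hb : 0 < b) (hab : a < b) (i : ℕ) : ex a b i ≤ i := by
  induction i with
  | zero => simp [ex]
  | succ i ih =>
    rw [ex_succ hb hab]
    split_ifs <;> omega

lemma ex_bounds (hb : 0 < b) (hab : a < b) (i : ℕ) : a * i ≤ b * ex a b i ∧ b * ex a b i ≤ a * i + a * b := by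
  unfold ex
  have h1 := Nat.div_add_mod i b
  have h2 := Nat.mod_lt i hb
  have e1 : b * (a * (i / b) + min (i % b) a) = a * (b * (i / b)) + b * min (i % b) a := by ring
  have e2 : a * i = a * (b * (i / b)) + a * (i % b) := by
    conv_lhs => rw [← h1]
    ring
  rw [e1, e2]
  rcases Nat.le_total (i % b) a with h | h
  · rw [min_eq_left h]
    have h4 : a * (i % b) ≤ b * (i % b) := Nat.mul_le_mul_right _ hab.le
    have h5 : b * (i % b) ≤ b * a := Nat.mul_le_mul_left _ h
    have h6 : b * a = a * b := mul_comm _ _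
    omega
  · rw [min_eq_right h]
    have h4 : a * (i % b) ≤ a * b := Nat.mul_le_mul_left _ h2.le
    have h6 : b * a = a * b := mul_comm _ _
    omega

/-! ### The phases -/

lemma cs_s0 (hb : 0 < b) {n : ℕ} : cs a hb n (.s0, fun _ => 0) =
    some (.d1 false ⟨0, hb⟩, ps false 1 0 1) := by
  unfold cs
  simp only [cδ, Option.map_some]
  congr 2
  funext j
  fin_cases j
  · simp [ps, hd, move]
  · simp [ps, hd, move]
  · simp [ps, hd, move]

lemma ps_swap (u z : ℕ) : ps false u 0 z = ps true z 0 u := by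
  funext j
  fin_cases j <;> simp [ps, hd]

/-- One stage: doubling of the first number, and of the carried number if necessary. -/
lemma stage (hb : 0 < b) (hab : a < b) {n : ℕ} (i : ℕ) (hi : 2 ^ (i + 1) ≤ n) :
    ∃ t ≤ 8 * 2 ^ i + 4, Cn a hb n t
      (.d1 false ⟨i % b, Nat.mod_lt _ hb⟩, ps false (2 ^ i) 0 (2 ^ ex a b i))
      (.d1 false ⟨(i + 1) % b, Nat.mod_lt _ hb⟩,
        ps false (2 ^ (i + 1)) 0 (2 ^ ex a b (i + 1))) := by
  have h1 := double (a := a) hb (n := n) false ⟨i % b, Nat.mod_lt _ hb⟩ (2 ^ ex a b i) (2 ^ i)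
    (by rw [pow_succ] at hi; omega)
  have e1 : 2 * 2 ^ i = 2 ^ (i + 1) := by rw [pow_succ]; ring
  rw [e1] at h1
  have hmod : ((i % b + 1) % b) = (i + 1) % b := by
    rw [Nat.add_mod, Nat.mod_mod, ← Nat.add_mod]
  by_cases hc : i % b < a
  · have e2 : nx a hb false ⟨i % b, Nat.mod_lt _ hb⟩ = .d1 true ⟨i % b, Nat.mod_lt _ hb⟩ := by
      unfold nx
      rw [if_pos ⟨rfl, hc⟩]
    rw [e2, ps_swap (2 ^ (i + 1)) (2 ^ ex a b i)] at h1
    have hx : 2 ^ ex a b i ≤ 2 ^ i := Nat.pow_le_pow_right (by norm_num) (ex_le hb hab i)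
    have h2 := double (a := a) hb (n := n) true ⟨i % b, Nat.mod_lt _ hb⟩ (2 ^ (i + 1))
      (2 ^ ex a b i) (by omega)
    have e3 : nx a hb true ⟨i % b, Nat.mod_lt _ hb⟩ =
        .d1 false ⟨(i + 1) % b, Nat.mod_lt _ hb⟩ := by
      unfold nx
      rw [if_neg (by simp)]
      congr 2
    have e4 : 2 * 2 ^ ex a b i = 2 ^ ex a b (i + 1) := by
      rw [ex_succ hb hab, if_pos hc, pow_succ]
      ring
    rw [e3, e4, ← ps_swap (2 ^ (i + 1)) (2 ^ ex a b (i + 1))] at h2
    exact ⟨(4 * 2 ^ i + 2) + (4 * 2 ^ ex a b i + 2), by omega, h1.trans h2⟩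
  · have e2 : nx a hb false ⟨i % b, Nat.mod_lt _ hb⟩ =
        .d1 false ⟨(i + 1) % b, Nat.mod_lt _ hb⟩ := by
      unfold nx
      rw [if_neg (fun h => hc h.2)]
      congr 2
    have e4 : ex a b (i + 1) = ex a b i := by
      rw [ex_succ hb hab, if_neg hc, add_zero]
    rw [e2] at h1
    rw [e4]
    exact ⟨4 * 2 ^ i + 2, by omega, h1⟩

/-- All stages. -/
lemma stages (hb : 0 < b) (hab : a < b) {n : ℕ} (i : ℕ) (hi : 2 ^ i ≤ n) :
    ∃ t ≤ 12 * 2 ^ i, Cn a hb n t (.d1 false ⟨0, hb⟩, ps false 1 0 1)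
      (.d1 false ⟨i % b, Nat.mod_lt _ hb⟩, ps false (2 ^ i) 0 (2 ^ ex a b i)) := by
  induction i with
  | zero =>
    refine ⟨0, Nat.zero_le _, ?_⟩
    have e : ex a b 0 = 0 := by simp [ex]
    rw [e]
    have e2 : (⟨0 % b, Nat.mod_lt _ hb⟩ : Fin b) = ⟨0, hb⟩ := Fin.ext (Nat.zero_mod _)
    rw [e2]
    rfl
  | succ i ih =>
    have h2 : 2 ^ (i + 1) = 2 * 2 ^ i := by rw [pow_succ]; ring
    obtain ⟨t, ht, h3⟩ := ih (by omega)
    obtain ⟨t', ht', h4⟩ := stage hb hab i hi
    have h5 : 1 ≤ 2 ^ i := Nat.one_le_two_pow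
    exact ⟨t + t', by omega, h3.trans h4⟩

/-- The positions for the sweeps. -/
def pq (u v x : ℕ) : Fin 3 → ℕ := fun j => if j = 2 then x else if j = 1 then v else u

lemma cs_e0 (hb : 0 < b) {n : ℕ} (u v x : ℕ) :
    cs a hb n (.e0, pq u v (x + 1)) = some (.e1, pq u v x) := by
  have h2 : isL (ut n (x + 1)) = false := by
    rw [Bool.eq_false_iff]
    intro h
    have := (ut_isL n (x + 1)).1 h
    omega
  unfold cs
  have e : pq u v (x + 1) 2 = x + 1 := by simp [pq]
  simp only [cδ, e, h2, Bool.false_eq_true, if_false, Option.map_some]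
  congr 2
  funext j
  by_cases hj : j = 2
  · subst hj
    simp [pq, move]
  · simp only [pq, if_neg hj, move]

lemma cs_e0_halt (hb : 0 < b) {n : ℕ} (u v : ℕ) : cs a hb n (.e0, pq u v 0) = none := by
  unfold cs
  have e : pq u v 0 2 = 0 := by simp [pq]
  simp only [cδ, e, (ut_isL n 0).2 rfl, if_true, Option.map_none]

lemma run_e1 (hb : 0 < b) {n : ℕ} (u x v : ℕ) :
    Cn a hb n (v + 1) (.e1, pq u v x) (.e2, pq u 0 x) := by
  induction v with
  | zero =>
    refine Cn.one ?_
    unfold cs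
    have e : pq u 0 x 1 = 0 := by simp [pq]
    simp only [cδ, e, (ut_isL n 0).2 rfl, if_true, Option.map_some]
    rfl
  | succ v ih =>
    have h2 : isL (ut n (v + 1)) = false := by
      rw [Bool.eq_false_iff]
      intro h
      have := (ut_isL n (v + 1)).1 h
      omega
    have h1 : cs a hb n (.e1, pq u (v + 1) x) = some (.e1, pq u v x) := by
      unfold cs
      have e : pq u (v + 1) x 1 = v + 1 := by simp [pq]
      simp only [cδ, e, h2, Bool.false_eq_true, if_false, Option.map_some]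
      congr 2
      funext j
      by_cases hj : j = 1
      · subst hj
        simp [pq, move]
      · simp only [pq, if_neg hj, move]
    have h3 := (Cn.one h1).trans ih
    have e3 : 1 + (v + 1) = v + 1 + 1 := by ring
    rw [e3] at h3
    exact h3

lemma run_e2 (hb : 0 < b) {n : ℕ} (u x d : ℕ) : ∀ v, v + d = n + 1 →
    Cn a hb n (d + 1) (.e2, pq u v x) (.e0, pq u (n + 1) x) := by
  induction d with
  | zero =>
    intro v hv
    have hv' : v = n + 1 := by omega
    subst hv'
    refine Cn.one ?_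
    unfold cs
    have e : pq u (n + 1) x 1 = n + 1 := by simp [pq]
    simp only [cδ, e, (ut_isR n (n + 1)).2 (by omega), if_true, Option.map_some]
    rfl
  | succ d ih =>
    intro v hv
    have h2 : isR (ut n v) = false := by
      rw [Bool.eq_false_iff]
      intro h
      have := (ut_isR n v).1 h
      omega
    have h1 : cs a hb n (.e2, pq u v x) = some (.e2, pq u (v + 1) x) := by
      unfold cs
      have e : pq u v x 1 = v := by simp [pq]
      simp only [cδ, e, h2, Bool.false_eq_true, if_false, Option.map_some]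
      congr 2
      funext j
      by_cases hj : j = 1
      · subst hj
        simp only [pq, if_true, move]
        simp only [show (1 : Fin 3) ≠ 2 by decide, if_false]
        omega
      · simp only [pq, if_neg hj, move]
    have h3 := (Cn.one h1).trans (ih (v + 1) (by omega))
    have e3 : 1 + (d + 1) = d + 1 + 1 := by ring
    rw [e3] at h3
    exact h3

lemma sweeps (hb : 0 < b) {n : ℕ} (u x : ℕ) :
    Cn a hb n (x * (2 * n + 5)) (.e0, pq u (n + 1) x) (.e0, pq u (n + 1) 0) := by
  induction x with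
  | zero => rw [zero_mul]; rfl
  | succ x ih =>
    have h1 := Cn.one (cs_e0 (a := a) hb (n := n) u (n + 1) x)
    have h2 := run_e1 (a := a) hb (n := n) u x (n + 1)
    have h3 := run_e2 (a := a) hb (n := n) u x (n + 1) 0 (by omega)
    have h4 := ((h1.trans h2).trans h3).trans ih
    have e : 1 + (n + 1 + 1) + (n + 1 + 1) + x * (2 * n + 5) = (x + 1) * (2 * n + 5) := by ring
    rw [e] at h4
    exact h4

/-- The whole run, for nonempty words. -/
lemma clock_run (hb : 0 < b) (hab : a < b) {n : ℕ} (hn : 0 < n) :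
    ∃ t c, Cn a hb n t (.s0, fun _ => 0) c ∧ cs a hb n c = none ∧
      2 ^ ex a b (Nat.log 2 n) * (2 * n + 5) ≤ t ∧
      t ≤ 2 ^ ex a b (Nat.log 2 n) * (2 * n + 5) + 14 * n + 4 := by
  set I := Nat.log 2 n with hI
  have hI1 : 2 ^ I ≤ n := Nat.pow_log_le_self 2 hn.ne'
  have hI2 : n < 2 ^ (I + 1) := Nat.lt_pow_succ_log_self (by norm_num) n
  have h0 := Cn.one (cs_s0 (a := a) hb (n := n))
  obtain ⟨t1, ht1, h1⟩ := stages hb hab I hI1
  obtain ⟨t2, u', ht2, h2⟩ := stop (a := a) hb (n := n) false ⟨I % b, Nat.mod_lt _ hb⟩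
    (2 ^ ex a b I) (n + 1) (2 ^ I) 0 (by omega) (by rw [pow_succ] at hI2; omega)
  have e : ps false u' (n + 1) (2 ^ ex a b I) = pq u' (n + 1) (2 ^ ex a b I) := by
    funext j
    fin_cases j <;> simp [ps, pq, hd]
  rw [e] at h2
  have h3 := sweeps (a := a) hb (n := n) u' (2 ^ ex a b I)
  refine ⟨1 + t1 + t2 + 2 ^ ex a b I * (2 * n + 5), _, ((h0.trans h1).trans h2).trans h3,
    cs_e0_halt hb _ _, by omega, by omega⟩

/-- The run on the empty word. -/
lemma clock_run_zero (hb : 0 < b) :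
    ∃ t c, Cn a hb 0 t (.s0, fun _ => 0) c ∧ cs a hb 0 c = none ∧ 2 ≤ t := by
  have h0 := Cn.one (cs_s0 (a := a) hb (n := 0))
  obtain ⟨t2, u', ht2, h2⟩ := stop (a := a) hb (n := 0) false ⟨0, hb⟩ 1 1 1 0 (by omega)
    (by omega)
  have e : ps false u' (0 + 1) 1 = pq u' (0 + 1) 1 := by
    funext j
    fin_cases j <;> simp [ps, pq, hd]
  rw [e] at h2
  have h3 := sweeps (a := a) hb (n := 0) u' 1
  exact ⟨_, _, (h0.trans h2).trans h3, cs_e0_halt hb _ _, by omega⟩

/-- There is a clock for `n ^ (1 + a / b)`. -/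
theorem exists_clock (hb : 0 < b) (hab : a < b) : ∃ T : ℕ → ℕ, Clocks (clk a hb) T ∧
    (∀ n, n + 2 ≤ T n) ∧ (∀ n, n ^ (b + a) ≤ 2 ^ a * T n ^ b) ∧
    (∀ n, 0 < n → T n ^ b ≤ (25 * 2 ^ a) ^ b * n ^ (b + a)) := by
  have hex : ∀ n, ∃ t c, Cn a hb n t (.s0, fun _ => 0) c ∧ cs a hb n c = none ∧
      n + 2 ≤ t ∧ n ^ (b + a) ≤ 2 ^ a * t ^ b ∧
      (0 < n → t ^ b ≤ (25 * 2 ^ a) ^ b * n ^ (b + a)) := by
    intro n
    rcases Nat.eq_zero_or_pos n with hn | hn
    · subst hn
      obtain ⟨t, c, h1, h2, h3⟩ := clock_run_zero (a := a) hb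
      refine ⟨t, c, h1, h2, by omega, ?_, fun h => absurd h (lt_irrefl _)⟩
      rw [zero_pow (by omega)]
      exact Nat.zero_le _
    · obtain ⟨t, c, h1, h2, h3, h4⟩ := clock_run (a := a) hb hab hn
      set I := Nat.log 2 n with hI
      have hI1 : 2 ^ I ≤ n := Nat.pow_log_le_self 2 hn.ne'
      have hI2 : n < 2 ^ (I + 1) := Nat.lt_pow_succ_log_self (by norm_num) n
      obtain ⟨h5, h6⟩ := ex_bounds (a := a) hb hab I
      set x := 2 ^ ex a b I with hx
      have hx1 : 1 ≤ x := Nat.one_le_two_pow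
      have hxb : x ^ b = 2 ^ (b * ex a b I) := by rw [hx, ← pow_mul, mul_comm]
      have hxn : x * n ≤ t := by
        have : x * n ≤ x * (2 * n + 5) := Nat.mul_le_mul_left _ (by omega)
        omega
      refine ⟨t, c, h1, h2, ?_, ?_, fun _ => ?_⟩
      · have : 1 * (2 * n + 5) ≤ x * (2 * n + 5) := Nat.mul_le_mul_right _ hx1
        omega
      · have h7 : n ^ a ≤ 2 ^ a * x ^ b := by
          calc n ^ a ≤ (2 ^ (I + 1)) ^ a := Nat.pow_le_pow_left hI2.le a
            _ = 2 ^ a * 2 ^ (a * I) := by rw [← pow_mul, ← pow_add]; congr 1; ring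
            _ ≤ 2 ^ a * x ^ b := by
                rw [hxb]
                exact Nat.mul_le_mul_left _ (Nat.pow_le_pow_right (by norm_num) h5)
        calc n ^ (b + a) = n ^ b * n ^ a := pow_add _ _ _
          _ ≤ n ^ b * (2 ^ a * x ^ b) := Nat.mul_le_mul_left _ h7
          _ = 2 ^ a * (x * n) ^ b := by rw [mul_pow]; ring
          _ ≤ 2 ^ a * t ^ b := Nat.mul_le_mul_left _ (Nat.pow_le_pow_left hxn b)
      · have h7 : t ≤ 25 * (x * n) := by
          have h8 : x * (2 * n + 5) ≤ x * (7 * n) := Nat.mul_le_mul_left _ (by omega)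
          have h9 : 1 * n ≤ x * n := Nat.mul_le_mul_right _ hx1
          have h10 : x * (7 * n) = 7 * (x * n) := by ring
          omega
        have h8 : x ^ b ≤ (2 ^ a) ^ b * n ^ a := by
          rw [hxb]
          calc 2 ^ (b * ex a b I) ≤ 2 ^ (a * I + a * b) :=
                Nat.pow_le_pow_right (by norm_num) h6
            _ = (2 ^ a) ^ b * (2 ^ I) ^ a := by
                rw [← pow_mul, ← pow_mul, ← pow_add]; congr 1; ring
            _ ≤ (2 ^ a) ^ b * n ^ a := Nat.mul_le_mul_left _ (Nat.pow_le_pow_left hI1 a)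
        calc t ^ b ≤ (25 * (x * n)) ^ b := Nat.pow_le_pow_left h7 b
          _ = 25 ^ b * n ^ b * x ^ b := by rw [mul_pow, mul_pow]; ring
          _ ≤ 25 ^ b * n ^ b * ((2 ^ a) ^ b * n ^ a) := Nat.mul_le_mul_left _ h8
          _ = (25 * 2 ^ a) ^ b * n ^ (b + a) := by rw [mul_pow, pow_add]; ring
  choose T c h1 h2 h3 h4 h5 using hex
  refine ⟨T, ⟨clk_det a hb, fun n => ⟨⟨c n, (clk_reach a hb n _ _).2 (h1 n)⟩, ?_⟩⟩, h3, h4, h5⟩
  intro t c' h
  exact cn_halt (h1 n) (h2 n) ((clk_reach a hb n _ _).1 h)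

end Pool.Agent.Poly
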