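import Mathlib

/-!
Generalised inner product: star-closed sets on which it vanishes are small (Babai, Nisan, Szegedy).
-/

set_option autoImplicit false

namespace Pool.Agent.Poly

variable {τ : Type} [Fintype τ] [DecidableEq τ]

/-- The sign of the generalised inner product on the coordinates in `D`. -/
def sg {p : ℕ} (D : Finset τ) (x : Fin p → τ → Bool) : ℝ :=
  ∏ t ∈ D, (if ∀ i, x i t = true then -1 else 1 : ℝ)

/-- The constants: `bet p` belongs to `p + 1` players. -/
noncomputable def bet : ℕ → ℝ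
  | 0 => 0
  | p + 1 => Real.sqrt ((1 + bet p) / 2)

lemma bet_nonneg (p : ℕ) : 0 ≤ bet p := by
  cases p with
  | zero => exact le_rfl
  | succ p => exact Real.sqrt_nonneg _

lemma bet_lt_one (p : ℕ) : bet p < 1 := by
  induction p with
  | zero => exact one_pos
  | succ p ih =>
    have h0 := bet_nonneg p
    show Real.sqrt ((1 + bet p) / 2) < 1
    rw [Real.sqrt_lt' one_pos]
    linarith

/-- One player. -/
lemma sum_sg_one (D : Finset τ) : |∑ x : Fin 1 → τ → Bool, sg D x| ≤
    (2 ^ Fintype.card τ : ℝ) ^ 1 * (0 : ℝ) ^ D.card := by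
  classical
  have h1 : ∑ x : Fin 1 → τ → Bool, sg D x =
      ∑ y : τ → Bool, ∏ t, (if t ∈ D then (if y t = true then -1 else 1 : ℝ) else 1) := by
    rw [← Fintype.sum_equiv (Equiv.funUnique (Fin 1) (τ → Bool)) (fun x => sg D x)
      (fun y => ∏ t, (if t ∈ D then (if y t = true then -1 else 1 : ℝ) else 1))]
    intro x
    unfold sg
    rw [Finset.prod_ite_mem, Finset.univ_inter]
    refine Finset.prod_congr rfl fun t _ => ?_
    congr 1
    simp [Equiv.funUnique]
  have h2 : ∑ y : τ → Bool, ∏ t, (if t ∈ D then (if y t = true then -1 else 1 : ℝ) else 1) =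
      ∏ t : τ, ∑ b : Bool, (if t ∈ D then (if b = true then -1 else 1 : ℝ) else 1) := by
    rw [Finset.prod_univ_sum]
    rw [Fintype.piFinset_univ]
  rw [h1, h2]
  by_cases hD : D = ∅
  · subst hD
    simp
  · obtain ⟨t, ht⟩ := Finset.nonempty_iff_ne_empty.2 hD
    have h3 : ∏ t : τ, ∑ b : Bool, (if t ∈ D then (if b = true then -1 else 1 : ℝ) else 1) = 0 := by
      refine Finset.prod_eq_zero (Finset.mem_univ t) ?_
      simp [ht]
    rw [h3, abs_zero]
    positivity

omit [Fintype τ] [DecidableEq τ] in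
lemma sg_mul {p : ℕ} (D : Finset τ) (x0 x0' : τ → Bool) (xs : Fin p → τ → Bool) :
    sg D (Fin.cons x0 xs : Fin (p + 1) → τ → Bool) * sg D (Fin.cons x0' xs) =
      sg (D.filter fun t => x0 t ≠ x0' t) xs := by
  unfold sg
  rw [← Finset.prod_mul_distrib, Finset.prod_filter]
  refine Finset.prod_congr rfl fun t _ => ?_
  simp only [Fin.forall_fin_succ, Fin.cons_zero, Fin.cons_succ]
  by_cases hA : ∀ i, xs i t = true
  · cases h1 : x0 t <;> cases h2 : x0' t <;> simp [hA]
  · cases h1 : x0 t <;> cases h2 : x0' t <;> simp [hA]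

lemma sum_pow_card (D : Finset τ) (b : ℝ) :
    ∑ x : (τ → Bool) × (τ → Bool), b ^ (D.filter fun t => x.1 t ≠ x.2 t).card =
      (2 ^ Fintype.card τ : ℝ) ^ 2 * ((1 + b) / 2) ^ D.card := by
  classical
  have h1 : ∀ x : (τ → Bool) × (τ → Bool), b ^ (D.filter fun t => x.1 t ≠ x.2 t).card =
      ∏ t, (if t ∈ D then (if x.1 t ≠ x.2 t then b else 1 : ℝ) else 1) := by
    intro x
    rw [Finset.prod_ite_mem, Finset.univ_inter, ← Finset.prod_filter, Finset.prod_const]
  simp only [h1]
  have h2 : ∑ x : (τ → Bool) × (τ → Bool),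
      ∏ t, (if t ∈ D then (if x.1 t ≠ x.2 t then b else 1 : ℝ) else 1) =
      ∑ y : τ → Bool × Bool, ∏ t, (if t ∈ D then (if (y t).1 ≠ (y t).2 then b else 1 : ℝ)
        else 1) := by
    refine Fintype.sum_equiv (Equiv.arrowProdEquivProdArrow τ (fun _ => Bool) (fun _ => Bool)).symm
      _ _ ?_
    intro x
    rfl
  have h3 : ∑ y : τ → Bool × Bool, ∏ t, (if t ∈ D then (if (y t).1 ≠ (y t).2 then b else 1 : ℝ)
        else 1) = ∏ t : τ, ∑ u : Bool × Bool,
        (if t ∈ D then (if u.1 ≠ u.2 then b else 1 : ℝ) else 1) := by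
    rw [Finset.prod_univ_sum, Fintype.piFinset_univ]
  rw [h2, h3]
  have h4 : ∀ t : τ, ∑ u : Bool × Bool, (if t ∈ D then (if u.1 ≠ u.2 then b else 1 : ℝ) else 1) =
      4 * (if t ∈ D then (1 + b) / 2 else 1) := by
    intro t
    by_cases ht : t ∈ D
    · simp only [ht, if_true]
      rw [Fintype.sum_prod_type]
      simp only [Fintype.sum_bool]
      norm_num
      ring
    · simp [ht]
  simp only [h4]
  rw [Finset.prod_mul_distrib, Finset.prod_const, Finset.prod_ite_mem, Finset.univ_inter,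
    Finset.prod_const, Finset.card_univ]
  congr 1
  rw [← pow_mul, mul_comm, pow_mul]
  norm_num

/-- The discrepancy bound for cylinder functions. -/
theorem gip (p : ℕ) : ∀ (D : Finset τ) (P : Fin (p + 1) → (Fin (p + 1) → τ → Bool) → ℝ),
    (∀ i x, |P i x| ≤ 1) →
    (∀ i x x', (∀ j, j ≠ i → x j = x' j) → P i x = P i x') →
    |∑ x : Fin (p + 1) → τ → Bool, sg D x * ∏ i, P i x| ≤
      (2 ^ Fintype.card τ : ℝ) ^ (p + 1) * bet p ^ D.card := by
  classical
  induction p with
  | zero =>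
    intro D P h1 h2
    have h3 : ∀ x : Fin 1 → τ → Bool, ∏ i, P i x = P 0 (fun _ _ => false) := by
      intro x
      rw [Fin.prod_univ_one]
      exact h2 0 _ _ (fun j hj => absurd (Fin.ext (by have := j.2; simp only [Fin.val_zero]; omega)) hj)
    simp only [zero_add] at *
    have h4 : ∑ x : Fin 1 → τ → Bool, sg D x * ∏ i, P i x =
        (∑ x : Fin 1 → τ → Bool, sg D x) * P 0 (fun _ _ => false) := by
      rw [Finset.sum_mul]
      exact Finset.sum_congr rfl fun x _ => by rw [h3]
    rw [h4, abs_mul]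
    have h5 := sum_sg_one D
    calc _ ≤ |∑ x : Fin 1 → τ → Bool, sg D x| * 1 :=
          mul_le_mul_of_nonneg_left (h1 _ _) (abs_nonneg _)
      _ ≤ _ := by rw [mul_one]; exact h5
  | succ p ih =>
    intro D P h1 h2
    set N : ℝ := 2 ^ Fintype.card τ with hN
    have hN0 : 0 < N := by positivity
    let φ : (Fin (p + 1) → τ → Bool) → ℝ := fun xs => P 0 (Fin.cons (fun _ => false) xs)
    let Q : Fin (p + 1) → (τ → Bool) → (Fin (p + 1) → τ → Bool) → ℝ := fun i x0 xs =>
      P i.succ (Fin.cons x0 xs)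
    let G : (Fin (p + 1) → τ → Bool) → ℝ := fun xs =>
      ∑ x0 : τ → Bool, sg D (Fin.cons x0 xs : Fin (p + 2) → τ → Bool) * ∏ i, Q i x0 xs
    -- split the sum
    have e1 : ∑ x : Fin (p + 1 + 1) → τ → Bool, sg D x * ∏ i, P i x = ∑ xs, φ xs * G xs := by
      rw [← Fintype.sum_equiv (Fin.consEquiv (fun _ : Fin (p + 2) => τ → Bool))
        (fun y => sg D (Fin.cons y.1 y.2 : Fin (p + 2) → τ → Bool) *
          ∏ i, P i (Fin.cons y.1 y.2)) (fun x => sg D x * ∏ i, P i x) (fun y => rfl)]
      rw [Fintype.sum_prod_type_right]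
      refine Finset.sum_congr rfl fun xs _ => ?_
      simp only [G]
      rw [Finset.mul_sum]
      refine Finset.sum_congr rfl fun x0 _ => ?_
      rw [Fin.prod_univ_succ]
      have h3 : P 0 (Fin.cons x0 xs) = φ xs := by
        refine h2 0 _ _ fun j hj => ?_
        obtain ⟨i, rfl⟩ := Fin.exists_succ_eq.2 hj
        rw [Fin.cons_succ, Fin.cons_succ]
      rw [h3]
      ring
    have e2 : (∑ xs, φ xs * G xs) ^ 2 ≤ N ^ (p + 1) * ∑ xs, G xs ^ 2 := by
      refine (Finset.sum_mul_sq_le_sq_mul_sq _ _ _).trans ?_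
      refine mul_le_mul_of_nonneg_right ?_ (Finset.sum_nonneg fun _ _ => sq_nonneg _)
      calc ∑ xs, φ xs ^ 2 ≤ ∑ _xs : Fin (p + 1) → τ → Bool, (1 : ℝ) := by
            refine Finset.sum_le_sum fun xs _ => ?_
            rw [← sq_abs]
            exact pow_le_one₀ (abs_nonneg _) (h1 _ _)
        _ = N ^ (p + 1) := by
            rw [Finset.sum_const, Finset.card_univ, nsmul_eq_mul, mul_one]
            simp [hN, Fintype.card_pi]
    have e3 : ∑ xs, G xs ^ 2 = ∑ y : (τ → Bool) × (τ → Bool),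
        ∑ xs, sg (D.filter fun t => y.1 t ≠ y.2 t) xs * ∏ i, (Q i y.1 xs * Q i y.2 xs) := by
      rw [Finset.sum_comm]
      refine Finset.sum_congr rfl fun xs _ => ?_
      rw [sq, Finset.sum_mul_sum, Fintype.sum_prod_type]
      refine Finset.sum_congr rfl fun x0 _ => Finset.sum_congr rfl fun x0' _ => ?_
      rw [← sg_mul, Finset.prod_mul_distrib]
      ring
    have e4 : ∑ xs, G xs ^ 2 ≤ N ^ (p + 1) * (N ^ 2 * ((1 + bet p) / 2) ^ D.card) := by
      rw [e3, ← sum_pow_card, Finset.mul_sum]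
      refine Finset.sum_le_sum fun y _ => ?_
      refine (le_abs_self _).trans ?_
      refine ih (D.filter fun t => y.1 t ≠ y.2 t) (fun i xs => Q i y.1 xs * Q i y.2 xs) ?_ ?_
      · intro i xs
        rw [abs_mul]
        exact mul_le_one₀ (h1 _ _) (abs_nonneg _) (h1 _ _)
      · intro i xs xs' h
        have h3 : ∀ x0, Q i x0 xs = Q i x0 xs' := by
          intro x0
          refine h2 i.succ _ _ fun j hj => ?_
          refine Fin.cases ?_ (fun j => ?_) j hj
          · intro _
            rw [Fin.cons_zero, Fin.cons_zero]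
          · intro hj
            rw [Fin.cons_succ, Fin.cons_succ]
            exact h j (fun h' => hj (by rw [h']))
        rw [h3, h3]
    have hb : 0 ≤ (1 + bet p) / 2 := by have := bet_nonneg p; linarith
    have e5 : (∑ xs, φ xs * G xs) ^ 2 ≤ (N ^ (p + 1 + 1) * bet (p + 1) ^ D.card) ^ 2 := by
      refine e2.trans ((mul_le_mul_of_nonneg_left e4 (by positivity)).trans (le_of_eq ?_))
      have h3 : bet (p + 1) ^ 2 = (1 + bet p) / 2 := Real.sq_sqrt hb
      rw [mul_pow, ← pow_mul (bet (p + 1)), mul_comm D.card 2, pow_mul (bet (p + 1)), h3]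
      ring
    rw [e1]
    refine abs_le_of_sq_le_sq e5 ?_
    have := bet_nonneg (p + 1)
    positivity

/-- Sets whose star closure lies in the zero set of the generalised inner product are small. -/
theorem gip_star (p : ℕ) (X : Finset (Fin (p + 1) → τ → Bool))
    (h : ∀ y : Fin (p + 1) → τ → Bool, (∀ i, ∃ x ∈ X, ∀ j, j ≠ i → x j = y j) →
      sg Finset.univ y = 1) :
    (X.card : ℝ) ≤ (2 ^ Fintype.card τ : ℝ) ^ (p + 1) * bet p ^ Fintype.card τ := by
  classical
  let P : Fin (p + 1) → (Fin (p + 1) → τ → Bool) → ℝ := fun i y =>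
    if ∃ x ∈ X, ∀ j, j ≠ i → x j = y j then 1 else 0
  have h1 := gip p Finset.univ P (by
    intro i x
    simp only [P]
    split_ifs <;> simp) (by
    intro i x x' hx
    have : (∃ z ∈ X, ∀ j, j ≠ i → z j = x j) ↔ (∃ z ∈ X, ∀ j, j ≠ i → z j = x' j) := by
      constructor
      · rintro ⟨z, hz, hz2⟩
        exact ⟨z, hz, fun j hj => (hz2 j hj).trans (hx j hj)⟩
      · rintro ⟨z, hz, hz2⟩
        exact ⟨z, hz, fun j hj => (hz2 j hj).trans (hx j hj).symm⟩
    simp only [P, this])
  have h2 : ∀ y, sg Finset.univ y * ∏ i, P i y = ∏ i, P i y := by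
    intro y
    by_cases hy : ∀ i, ∃ x ∈ X, ∀ j, j ≠ i → x j = y j
    · rw [h y hy, one_mul]
    · push Not at hy
      obtain ⟨i, hi⟩ := hy
      have : ∏ i, P i y = 0 := by
        refine Finset.prod_eq_zero (Finset.mem_univ i) ?_
        simp only [P]
        rw [if_neg]
        rintro ⟨x, hx, hx2⟩
        obtain ⟨j, hj, hj2⟩ := hi x hx
        exact hj2 (hx2 j hj)
      rw [this, mul_zero]
  simp only [h2] at h1
  have h3 : (X.card : ℝ) ≤ ∑ y, ∏ i, P i y := by
    have h4 : ∑ y ∈ X, ∏ i, P i y ≤ ∑ y, ∏ i, P i y := by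
      refine Finset.sum_le_sum_of_subset_of_nonneg (Finset.subset_univ _) fun y _ _ => ?_
      refine Finset.prod_nonneg fun i _ => ?_
      simp only [P]
      split_ifs <;> norm_num
    refine le_trans (le_of_eq ?_) h4
    rw [Finset.sum_congr rfl (g := fun _ => (1 : ℝ)) (fun y hy => ?_)]
    · simp
    · refine Finset.prod_eq_one fun i _ => ?_
      simp only [P]
      rw [if_pos ⟨y, hy, fun j _ => rfl⟩]
  rw [Finset.card_univ] at h1
  exact h3.trans ((le_abs_self _).trans h1)

end Pool.Agent.Poly
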