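import Pool.Agent.Lib_helper16.Time.Paste

/-!
Cut and paste of several computations of a multihead finite automaton.
-/

set_option autoImplicit false

namespace Pool.Agent.Poly

open Pool.Agent.Heads Pool.Agent.Time

variable {α κ : Type} {k : ℕ} (A : FA α k)

/-- Accepting computations from a configuration, with the list of the steps at which the value of
`J` changes; all configurations satisfy `G`. -/
inductive PatP (w : List α) (G : Cf A → Prop) (J : Cf A → κ) : Cf A → List (Cf A × Cf A) → Prop
  | acc {c : Cf A} : G c → c.1 ∈ A.accept → PatP w G J c []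
  | stay {c c' : Cf A} {l : List (Cf A × Cf A)} : G c → A.Step w c c' → J c = J c' →
      PatP w G J c' l → PatP w G J c l
  | chg {c c' : Cf A} {l : List (Cf A × Cf A)} : G c → A.Step w c c' → J c ≠ J c' →
      PatP w G J c' l → PatP w G J c ((c, c') :: l)

variable {A}

lemma PatP.tail {w : List α} {G : Cf A → Prop} {J : Cf A → κ} {c : Cf A}
    {l : List (Cf A × Cf A)} (h : PatP A w G J c l) :
    ∀ x l', l = x :: l' → PatP A w G J x.2 l' := by
  induction h with
  | acc _ _ => intro x l' h; exact absurd h (by simp)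
  | stay _ _ _ _ ih => exact ih
  | chg _ _ _ h _ =>
    intro x l' he
    obtain ⟨rfl, rfl⟩ := List.cons.inj he
    exact h

lemma PatP.follow {w y : List α} (hlen : w.length = y.length) {G : Cf A → Prop} {J : Cf A → κ}
    {s : κ} (H : ∀ c : Cf A, G c → J c = s → ∀ a, tape w (c.2 a) = tape y (c.2 a))
    {c : Cf A} {l : List (Cf A × Cf A)} (h : PatP A w G J c l) (hs : J c = s) :
    (l = [] → ∃ c', Relation.ReflTransGen (A.Step y) c c' ∧ c'.1 ∈ A.accept) ∧
      ∀ x l', l = x :: l' → Relation.ReflTransGen (A.Step y) c x.2 := by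
  induction h with
  | acc hG ha =>
    exact ⟨fun _ => ⟨_, Relation.ReflTransGen.refl, ha⟩, fun x l' h => absurd h (by simp)⟩
  | stay hG hst hJ _ ih =>
    have h1 := step_transfer A hlen (H _ hG hs) hst
    obtain ⟨h2, h3⟩ := ih (hJ.symm.trans hs)
    refine ⟨fun hl => ?_, fun x l' hl => ?_⟩
    · obtain ⟨c', h4, h5⟩ := h2 hl
      exact ⟨c', Relation.ReflTransGen.head h1 h4, h5⟩
    · exact Relation.ReflTransGen.head h1 (h3 x l' hl)
  | chg hG hst hJ _ _ =>
    have h1 := step_transfer A hlen (H _ hG hs) hst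
    refine ⟨fun hl => absurd hl (by simp), fun x l' hl => ?_⟩
    obtain ⟨rfl, rfl⟩ := List.cons.inj hl
    exact Relation.ReflTransGen.single h1

/-- The cut and paste lemma: the word `y` looks like `w j` as long as `J = j`. -/
theorem pasteP {y : List α} {w : κ → List α} (hlen : ∀ j, (w j).length = y.length)
    {G : Cf A → Prop} {J : Cf A → κ}
    (H : ∀ j, ∀ c : Cf A, G c → J c = j → ∀ a, tape (w j) (c.2 a) = tape y (c.2 a))
    (l : List (Cf A × Cf A)) : ∀ c : Cf A, (∀ j, PatP A (w j) G J c l) →
      ∃ c', Relation.ReflTransGen (A.Step y) c c' ∧ c'.1 ∈ A.accept := by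
  induction l with
  | nil =>
    intro c h1
    exact ((h1 (J c)).follow (hlen _) (H (J c)) rfl).1 rfl
  | cons x l ih =>
    intro c h1
    obtain ⟨c', h3, h4⟩ := ih x.2 (fun j => (h1 j).tail x l rfl)
    exact ⟨c', (((h1 (J c)).follow (hlen _) (H (J c)) rfl).2 x l rfl).trans h3, h4⟩

open Classical in
/-- The number of changes of `J` along a run. -/
noncomputable def changesP (J : Cf A → κ) (r : ℕ → Cf A) (a b : ℕ) : ℕ :=
  ((Finset.Ico a b).filter (fun t => J (r t) ≠ J (r (t + 1)))).card

open Classical in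
/-- A run gives a pattern. -/
lemma patP_of_run {w : List α} {G : Cf A → Prop} {J : Cf A → κ} {r : ℕ → Cf A} {T : ℕ}
    (hr : ∀ t < T, A.Step w (r t) (r (t + 1))) (hG : ∀ t ≤ T, G (r t))
    (hacc : (r T).1 ∈ A.accept) (n : ℕ) : ∀ t, t + n = T →
      ∃ l, PatP A w G J (r t) l ∧ l.length ≤ changesP J r t T ∧
        ∀ x ∈ l, ∃ s < T, x = (r s, r (s + 1)) := by
  induction n with
  | zero =>
    intro t ht
    have : t = T := by omega
    subst this
    exact ⟨[], PatP.acc (hG t le_rfl) hacc, by simp, by simp⟩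
  | succ n ih =>
    intro t ht
    obtain ⟨l, h1, h2, h3⟩ := ih (t + 1) (by omega)
    have hins : Finset.Ico t T = insert t (Finset.Ico (t + 1) T) := by
      ext s
      simp only [Finset.mem_Ico, Finset.mem_insert]
      omega
    by_cases hJ : J (r t) = J (r (t + 1))
    · refine ⟨l, PatP.stay (hG t (by omega)) (hr t (by omega)) hJ h1, h2.trans ?_, h3⟩
      unfold changesP
      apply Finset.card_le_card
      apply Finset.filter_subset_filter
      rw [hins]
      exact Finset.subset_insert _ _
    · refine ⟨(r t, r (t + 1)) :: l, PatP.chg (hG t (by omega)) (hr t (by omega)) hJ h1, ?_, ?_⟩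
      · unfold changesP at h2 ⊢
        rw [hins, Finset.filter_insert, if_pos hJ, Finset.card_insert_of_notMem (by simp),
          List.length_cons]
        omega
      · intro x hx
        rcases List.mem_cons.1 hx with rfl | hx
        · exact ⟨t, by omega, rfl⟩
        · exact h3 x hx

open Classical in
/-- The first segment which contains no head. -/
noncomputable def firstFree {p : ℕ} (s e : Fin (p + 1) → ℕ) (c : Cf A) : Fin (p + 1) :=
  if h : ∃ j, ¬ inSeg (s j) (e j) c then
    (Finset.univ.filter fun j => ¬ inSeg (s j) (e j) c).min' (by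
      obtain ⟨j, hj⟩ := h
      exact ⟨j, by simpa using hj⟩)
  else 0

lemma firstFree_spec {p : ℕ} {s e : Fin (p + 1) → ℕ} {c : Cf A}
    (h : ∃ j, ¬ inSeg (s j) (e j) c) :
    ¬ inSeg (s (firstFree s e c)) (e (firstFree s e c)) c := by
  classical
  unfold firstFree
  rw [dif_pos h]
  have := Finset.min'_mem (Finset.univ.filter fun j => ¬ inSeg (s j) (e j) c) (by
      obtain ⟨j, hj⟩ := h
      exact ⟨j, by simpa using hj⟩)
  simpa using this

lemma firstFree_congr {p : ℕ} {s e : Fin (p + 1) → ℕ} {c c' : Cf A}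
    (h : ∀ j, inSeg (s j) (e j) c ↔ inSeg (s j) (e j) c') :
    firstFree s e c = firstFree s e c' := by
  classical
  unfold firstFree
  simp only [h]

open Classical in
/-- Changes of the first free segment are changes of one of the segments. -/
lemma changes_firstFree {p : ℕ} (s e : Fin (p + 1) → ℕ) (r : ℕ → Cf A) (a b : ℕ) :
    changesP (firstFree s e) r a b ≤ ∑ j, changes (inSeg (s j) (e j)) r a b := by
  unfold changesP changes
  refine le_trans (Finset.card_le_card ?_) (Finset.card_biUnion_le
    (s := Finset.univ) (t := fun j => (Finset.Ico a b).filter (fun t =>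
      ¬ (inSeg (s j) (e j) (r t) ↔ inSeg (s j) (e j) (r (t + 1))))))
  intro t ht
  obtain ⟨ht1, ht2⟩ := (@Finset.mem_filter _ _ (_) _ _).1 ht
  by_contra hcon
  refine ht2 (firstFree_congr fun j => ?_)
  by_contra h
  exact hcon (Finset.mem_biUnion.2 ⟨j, Finset.mem_univ j, Finset.mem_filter.2 ⟨ht1, h⟩⟩)

open Classical in
/-- Double counting: the total number of changes for `m` nested segments. -/
lemma sum_changes_le {r : ℕ → Cf A} {T m s e : ℕ}
    (hr : ∀ t < T, ∀ a, (r (t + 1)).2 a ≤ (r t).2 a + 1 ∧ (r t).2 a ≤ (r (t + 1)).2 a + 1) :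
    ∑ i ∈ Finset.range m, changes (inSeg (A := A) (s + i) (e - i)) r 0 T ≤ 2 * k * T := by
  have hstep : ∀ t < T, ((Finset.range m).filter (fun i =>
      ¬ (inSeg (A := A) (s + i) (e - i) (r t) ↔ inSeg (s + i) (e - i) (r (t + 1))))).card ≤
        2 * k := by
    intro t ht
    have hsub : (Finset.range m).filter (fun i =>
        ¬ (inSeg (A := A) (s + i) (e - i) (r t) ↔ inSeg (s + i) (e - i) (r (t + 1)))) ⊆
        (Finset.univ : Finset (Fin k)).biUnion (fun a =>
          {max ((r t).2 a) ((r (t + 1)).2 a) - s, e - max ((r t).2 a) ((r (t + 1)).2 a)}) := by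
      intro i hi
      rw [Finset.mem_filter] at hi
      obtain ⟨-, hi⟩ := hi
      have : ∃ a, ¬ (((s + i ≤ (r t).2 a) ∧ (r t).2 a < e - i) ↔
          ((s + i ≤ (r (t + 1)).2 a) ∧ (r (t + 1)).2 a < e - i)) := by
        by_contra h
        push Not at h
        apply hi
        unfold inSeg
        exact exists_congr h
      obtain ⟨a, ha⟩ := this
      rw [Finset.mem_biUnion]
      refine ⟨a, Finset.mem_univ _, ?_⟩
      rw [Finset.mem_insert, Finset.mem_singleton]
      have := hr t ht a
      omega
    refine (Finset.card_le_card hsub).trans ((Finset.card_biUnion_le).trans ?_)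
    refine (Finset.sum_le_sum (fun a _ => Finset.card_le_two)).trans ?_
    rw [Finset.sum_const, Finset.card_univ, Fintype.card_fin, smul_eq_mul]
    omega
  have h1 : ∀ i, changes (inSeg (A := A) (s + i) (e - i)) r 0 T =
      ∑ t ∈ Finset.range T, if ¬ (inSeg (A := A) (s + i) (e - i) (r t) ↔
        inSeg (s + i) (e - i) (r (t + 1))) then 1 else 0 := by
    intro i
    unfold changes
    rw [Finset.card_filter, Finset.range_eq_Ico]
  simp only [h1]
  rw [Finset.sum_comm]
  have h2 : ∀ t ∈ Finset.range T, (∑ i ∈ Finset.range m,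
      if ¬ (inSeg (A := A) (s + i) (e - i) (r t) ↔
        inSeg (s + i) (e - i) (r (t + 1))) then 1 else 0) ≤ 2 * k := by
    intro t ht
    rw [← Finset.card_filter]
    exact hstep t (Finset.mem_range.1 ht)
  refine (Finset.sum_le_sum h2).trans ?_
  rw [Finset.sum_const, Finset.card_range, smul_eq_mul]
  exact le_of_eq (by ring)

open Classical in
/-- One of `m` cuts is crossed rarely. -/
lemma exists_cutP {p : ℕ} {r : ℕ → Cf A} {T m : ℕ} {s e : Fin (p + 1) → ℕ} (hm : 0 < m)
    (hr : ∀ t < T, ∀ a, (r (t + 1)).2 a ≤ (r t).2 a + 1 ∧ (r t).2 a ≤ (r (t + 1)).2 a + 1) :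
    ∃ i < m, m * changesP (firstFree (A := A) (fun j => s j + i) (fun j => e j - i)) r 0 T ≤
      (p + 1) * (2 * k * T) := by
  by_contra hcon
  push Not at hcon
  have h1 : ∑ i ∈ Finset.range m,
      changesP (firstFree (A := A) (fun j => s j + i) (fun j => e j - i)) r 0 T ≤
      (p + 1) * (2 * k * T) := by
    calc _ ≤ ∑ i ∈ Finset.range m, ∑ j : Fin (p + 1),
          changes (inSeg (A := A) (s j + i) (e j - i)) r 0 T :=
          Finset.sum_le_sum fun i _ => changes_firstFree _ _ _ _ _
      _ = ∑ j : Fin (p + 1), ∑ i ∈ Finset.range m,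
          changes (inSeg (A := A) (s j + i) (e j - i)) r 0 T := Finset.sum_comm
      _ ≤ ∑ _j : Fin (p + 1), 2 * k * T := Finset.sum_le_sum fun j _ => sum_changes_le hr
      _ = (p + 1) * (2 * k * T) := by
          rw [Finset.sum_const, Finset.card_univ, Fintype.card_fin, smul_eq_mul]
  have hlt : ∑ i ∈ Finset.range m, ((p + 1) * (2 * k * T)) < ∑ i ∈ Finset.range m,
      m * changesP (firstFree (A := A) (fun j => s j + i) (fun j => e j - i)) r 0 T :=
    Finset.sum_lt_sum_of_nonempty ⟨0, Finset.mem_range.2 hm⟩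
      (fun i hi => hcon i (Finset.mem_range.1 hi))
  rw [Finset.sum_const, Finset.card_range, smul_eq_mul, ← Finset.mul_sum] at hlt
  exact absurd (Nat.mul_le_mul_left m h1) (by omega)

end Pool.Agent.Poly
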