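import Pool.Agent.Lib_helper16.Time.Travel

/-!
Travelling cost: `k` heads cannot visit all tuples of segments in short time.
-/

set_option autoImplicit false

namespace Pool.Agent.Poly

open Pool.Agent.Time

/-- The first cell of the segment of party `i`. -/
def lo {P M : ℕ} (B r s L : ℕ) (a : Fin (P + 1) → Fin M) (i : Fin (P + 1)) : ℕ :=
  (a i).val * B + s + (if i = Fin.last P then L - r else 0)

lemma blocks_far {x : ℕ → ℕ} (hx : Lip x) {a a' B Bm W t t' s w w' : ℕ} (hB : Bm + W ≤ B)
    (h1 : a * B ≤ x t) (h2 : x t < a * B + Bm) (h1' : a' * B ≤ x t') (h2' : x t' < a' * B + Bm)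
    (hs1 : t ≤ s) (hs2 : s < t + w) (hs1' : t' ≤ s) (hs2' : s < t' + w') (hw : w ≤ W)
    (hw' : w' ≤ W) (hne : a < a') : False := by
  have e1 : (a + 1) * B ≤ a' * B := Nat.mul_le_mul_right _ hne
  have e2 : (a + 1) * B = a * B + B := by ring
  rcases Nat.le_total t t' with h | h
  · obtain ⟨d, rfl⟩ := Nat.exists_eq_add_of_le h
    have := (hx.le t d).1
    omega
  · obtain ⟨d, rfl⟩ := Nat.exists_eq_add_of_le h
    have := (hx.le t' d).2
    omega

/-- If the windows are too long in total, some tuple of segments is never seen. -/
theorem uncoveredP {k P T r W B Bm M : ℕ} (hP : 0 < P) (x : Fin k → ℕ → ℕ)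
    (hx : ∀ h, Lip (x h)) {V : Type}
    [Fintype V] (p L w : V → ℕ) (hr : ∀ v, 16 * r ≤ L v) (hw : ∀ v, 16 * w v ≤ L v)
    (hW : ∀ v, w v ≤ W)
    (hsep : ∀ v v', v ≠ v' → L v = L v' → p v + L v ≤ p v' ∨ p v' + L v' ≤ p v)
    (hsc : ∀ v v', L v = L v' ∨ 2 * L v ≤ L v' ∨ 2 * L v' ≤ L v)
    (hfit : ∀ v, p v + L v ≤ Bm) (hB : Bm + W ≤ B)
    (hT : k ^ (P + 1) * (T + W + 1) < M ^ (P + 1) * ∑ v, w v) :
    ∃ (a : Fin (P + 1) → Fin M) (v : V), ∀ t ≤ T, ¬ ∀ i, ∃ h,
      lo B r (p v) (L v) a i ≤ x h t ∧ x h t < lo B r (p v) (L v) a i + r := by
  classical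
  by_contra hcon
  push Not at hcon
  have hcon' : ∀ u : (Fin (P + 1) → Fin M) × V, ∃ t ≤ T, ∃ H : Fin (P + 1) → Fin k, ∀ i,
      lo B r (p u.2) (L u.2) u.1 i ≤ x (H i) t ∧
      x (H i) t < lo B r (p u.2) (L u.2) u.1 i + r := by
    intro u
    obtain ⟨t, ht, h⟩ := hcon u.1 u.2
    choose H hH using h
    exact ⟨t, ht, H, hH⟩
  choose τ hτ H hH using hcon'
  have hsum : ∑ u : (Fin (P + 1) → Fin M) × V, w u.2 ≤
      ∑ _η : Fin (P + 1) → Fin k, (T + W + 1) := by
    rw [← Finset.sum_fiberwise (s := Finset.univ) (g := fun u => H u)]
    refine Finset.sum_le_sum ?_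
    intro η _
    have hcard : ∑ u ∈ Finset.univ.filter (fun u => H u = η), w u.2 =
        ((Finset.univ.filter (fun u => H u = η)).biUnion
          (fun u => Finset.Ico (τ u) (τ u + w u.2))).card := by
      rw [Finset.card_biUnion]
      · refine Finset.sum_congr rfl ?_
        intro u _
        simp
      · intro u hu u' hu' hne
        rw [Function.onFun, Finset.disjoint_left]
        intro s hs hs'
        rw [Finset.mem_coe, Finset.mem_filter] at hu hu'
        obtain ⟨-, hu⟩ := hu
        obtain ⟨-, hu'⟩ := hu'
        rw [Finset.mem_Ico] at hs hs'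
        have g := hH u
        have g' := hH u'
        rw [hu] at g
        rw [hu'] at g'
        obtain ⟨a, v⟩ := u
        obtain ⟨a', v'⟩ := u'
        simp only at g g' hs hs'
        by_cases haa : a = a'
        · subst haa
          have hvv : v ≠ v' := fun h => hne (by rw [h])
          have h0 : (0 : Fin (P + 1)) ≠ Fin.last P := by
            intro h
            have := congrArg Fin.val h
            simp only [Fin.val_zero, Fin.val_last] at this
            omega
          have e1 := g 0
          have e2 := g (Fin.last P)
          have e1' := g' 0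
          have e2' := g' (Fin.last P)
          simp only [lo, if_neg h0, if_true] at e1 e2 e1' e2'
          have f1 := hr v
          have f2 := hr v'
          refine window_disjoint (xa := fun t => x (η 0) t + (a (Fin.last P)).val * B)
            (xb := fun t => x (η (Fin.last P)) t + (a 0).val * B) ?_ ?_
            (r := r) (p := p v + (a 0).val * B + (a (Fin.last P)).val * B) (L := L v)
            (w := w v) (p' := p v' + (a 0).val * B + (a (Fin.last P)).val * B) (L' := L v')
            (w' := w v') (t := τ (a, v)) (t' := τ (a, v')) (s := s)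
            f1 f2 (hw v) (hw v') ?_ ?_ ?_ ?_ ?_ ?_ ?_ ?_ hs.1 hs.2 hs'.1 hs'.2 ?_
          · intro t
            have := hx (η 0) t
            simp only
            omega
          · intro t
            have := hx (η (Fin.last P)) t
            simp only
            omega
          · omega
          · omega
          · omega
          · omega
          · omega
          · omega
          · omega
          · omega
          · rcases hsc v v' with h5 | h5 | h5
            · refine Or.inl ⟨h5, ?_⟩
              rcases hsep v v' hvv h5 with h6 | h6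
              · left; omega
              · right; omega
            · exact Or.inr (Or.inl h5)
            · exact Or.inr (Or.inr h5)
        · obtain ⟨i, hi⟩ : ∃ i, a i ≠ a' i := by
            by_contra h
            push Not at h
            exact haa (funext h)
          have hi' : (a i).val ≠ (a' i).val := fun h => hi (Fin.ext h)
          have e1 := g i
          have e1' := g' i
          have f1 := hr v
          have f2 := hr v'
          have f3 := hfit v
          have f4 := hfit v'
          have q1 : (a i).val * B ≤ x (η i) (τ (a, v)) ∧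
              x (η i) (τ (a, v)) < (a i).val * B + Bm := by
            unfold lo at e1
            split_ifs at e1 <;> omega
          have q2 : (a' i).val * B ≤ x (η i) (τ (a', v')) ∧
              x (η i) (τ (a', v')) < (a' i).val * B + Bm := by
            unfold lo at e1'
            split_ifs at e1' <;> omega
          rcases Nat.lt_or_gt_of_ne hi' with h | h
          · exact blocks_far (hx (η i)) hB q1.1 q1.2 q2.1 q2.2 hs.1 hs.2 hs'.1 hs'.2
              (hW v) (hW v') h
          · exact blocks_far (hx (η i)) hB q2.1 q2.2 q1.1 q1.2 hs'.1 hs'.2 hs.1 hs.2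
              (hW v') (hW v) h
    rw [hcard]
    calc _ ≤ (Finset.range (T + W + 1)).card := by
          refine Finset.card_le_card ?_
          intro s hs
          rw [Finset.mem_biUnion] at hs
          obtain ⟨u, -, hs⟩ := hs
          rw [Finset.mem_Ico] at hs
          rw [Finset.mem_range]
          have := hτ u
          have := hW u.2
          omega
      _ = T + W + 1 := Finset.card_range _
  rw [Finset.sum_const, Finset.card_univ, Fintype.card_fun, Fintype.card_fin,
    Fintype.card_fin, smul_eq_mul, Fintype.sum_prod_type] at hsum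
  simp only [Finset.sum_const, Finset.card_univ, Fintype.card_fun, Fintype.card_fin,
    smul_eq_mul] at hsum
  omega

end Pool.Agent.Poly
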