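import Pool.Agent.Lib_helper16.Poly.ProdP
import Pool.Agent.Lib_helper16.Poly.TravelP
import Pool.Agent.Lib_helper16.Poly.PasteP
import Pool.Agent.Lib_helper16.Poly.Gip
import Pool.Agent.Lib_helper16.Time.Core

/-!
The contents of the words.
-/

set_option autoImplicit false

namespace Pool.Agent.Poly

open Pool.Agent.Heads
open Pool.Agent.Time (len st Nd)

variable {P M D m : ℕ}

/-- The contents: party, block, node, position. -/
abbrev Yt (P M D m : ℕ) : Type := Fin (P + 1) → Fin M → Nd D → Fin m → Bool

/-- The bits of one party. -/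
def Xz (z : Fin M → Nd D → Fin m → Bool) (a : ℕ) (π : List Bool) (t : ℕ) : Bool :=
  if h : (a < M ∧ π.length ≤ D) ∧ m ≤ t ∧ t < 2 * m then
    z ⟨a, h.1.1⟩ ⟨π, h.1.2⟩ ⟨t - m, by omega⟩ else false

/-- The bits of all parties. -/
def XY (Y : Yt P M D m) (a : ℕ) (i : Fin (P + 1)) : List Bool → ℕ → Bool := Xz (Y i) a

/-! ### Parities -/

lemma par_xor (u z z' : ℕ → Bool) (n : ℕ) : par (fun t => u t && xor (z t) (z' t)) n =
    xor (par (fun t => u t && z t) n) (par (fun t => u t && z' t) n) := by
  induction n with
  | zero => rfl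
  | succ n ih =>
    simp only [par, ih]
    cases par (fun t => u t && z t) n <;> cases par (fun t => u t && z' t) n <;> cases u n <;>
      cases z n <;> cases z' n <;> rfl

lemma par_false (φ : ℕ → Bool) (n : ℕ) (h : ∀ t < n, φ t = false) : par φ n = false := by
  induction n with
  | zero => rfl
  | succ n ih => rw [par, ih (fun t ht => h t (by omega)), h n (by omega)]; rfl

lemma sign_par (φ : ℕ → Bool) (n : ℕ) : (if par φ n = true then (-1 : ℝ) else 1) =
    ∏ t ∈ Finset.range n, (if φ t = true then (-1 : ℝ) else 1) := by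
  induction n with
  | zero => simp [par]
  | succ n ih =>
    rw [Finset.prod_range_succ, ← ih]
    rcases Bool.eq_false_or_eq_true (par φ n) with h1 | h1 <;>
      rcases Bool.eq_false_or_eq_true (φ n) with h2 | h2 <;> simp [par, h1, h2]

lemma Xz_ne {z : Fin M → Nd D → Fin m → Bool} {a : ℕ} {π : List Bool} {t : ℕ}
    (h : Xz z a π t = true) : (a < M ∧ π.length ≤ D) ∧ m ≤ t ∧ t < 2 * m := by
  unfold Xz at h
  split_ifs at h with h1
  exact h1

lemma Xz_val (z : Fin M → Nd D → Fin m → Bool) (a : Fin M) (v : Nd D) (u : Fin m) :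
    Xz z a.val v.1 (m + u.val) = z a v u := by
  unfold Xz
  rw [dif_pos ⟨⟨a.isLt, v.2⟩, by omega, by have := u.isLt; omega⟩]
  congr 1
  apply Fin.ext
  simp only
  omega

lemma pty_sg (Y : Yt P M D m) (a : Fin (P + 1) → Fin M) (v : Nd D) :
    (if pty (fun i => XY Y (a i)) (3 * m) v.1 = true then (-1 : ℝ) else 1) =
      sg Finset.univ (fun i => Y i (a i) v) := by
  unfold pty
  rw [sign_par, show 3 * m = m + m + m by ring, Finset.prod_range_add, Finset.prod_range_add]
  have h1 : ∀ t, (t < m ∨ 2 * m ≤ t) →
      (if decide (∀ i, XY Y (a i) i v.1 t = true) = true then (-1 : ℝ) else 1) = 1 := by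
    intro t ht
    rw [if_neg]
    intro h
    rw [decide_eq_true_iff] at h
    have := Xz_ne (h 0)
    omega
  rw [Finset.prod_eq_one (s := Finset.range m) (fun t ht => h1 t (Or.inl (Finset.mem_range.1 ht))),
    one_mul, Finset.prod_eq_one (s := Finset.range m) (f := fun x =>
      (if decide (∀ i, XY Y (a i) i v.1 (m + m + x) = true) = true then (-1 : ℝ) else 1))
      (fun t ht => h1 _ (Or.inr (by omega))), mul_one, Finset.prod_range]
  unfold sg
  refine Finset.prod_congr rfl fun u _ => ?_
  have h2 : ∀ i, XY Y (a i) i v.1 (m + u.val) = Y i (a i) v u := fun i => Xz_val _ _ _ _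
  simp only [h2, decide_eq_true_eq]

lemma pty_iff (Y : Yt P M D m) (a : Fin (P + 1) → Fin M) (v : Nd D) :
    pty (fun i => XY Y (a i)) (3 * m) v.1 = false ↔
      sg Finset.univ (fun i => Y i (a i) v) = 1 := by
  rw [← pty_sg]
  cases pty (fun i => XY Y (a i)) (3 * m) v.1
  · simp
  · simp only [if_true]
    constructor
    · intro h; exact absurd h (by simp)
    · intro h; exact absurd h (by norm_num)

/-- Good contents: all parities are even. -/
def Gd (Y : Yt P M D m) : Prop :=
  ∀ (a : Fin (P + 1) → Fin M) (v : Nd D), pty (fun i => XY Y (a i)) (3 * m) v.1 = false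

lemma gd_even (Y : Yt P M D m) (S : ℕ) (hS : D ≤ S) :
    Gd Y ↔ ∀ a : Fin (P + 1) → Fin M, Even' (XY Y) (3 * m) S (fun i => a i) := by
  constructor
  · intro h a π hπ
    by_cases hD : π.length ≤ D
    · exact h a ⟨π, hD⟩
    · unfold pty
      apply par_false
      intro t _
      rw [decide_eq_false_iff_not]
      intro h1
      have := Xz_ne (h1 0)
      exact hD this.1.2
  · intro h a v
    exact h a v.1 (v.2.trans hS)

/-! ### Many good contents -/

/-- The vector of the parities. -/
def pv (Y : Yt P M D m) : (Fin (P + 1) → Fin M) × Nd D → Bool :=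
  fun u => pty (fun i => XY Y (u.1 i)) (3 * m) u.2.1

lemma gd_iff_pv (Y : Yt P M D m) : Gd Y ↔ pv Y = fun _ => false := by
  constructor
  · intro h
    funext u
    exact h u.1 u.2
  · intro h a v
    exact congrFun h (a, v)

lemma pv_update (Y : Yt P M D m) (z : Fin M → Nd D → Fin m → Bool)
    (u : (Fin (P + 1) → Fin M) × Nd D) :
    pv (Function.update Y (Fin.last P) z) u =
      par (fun t => decide (∀ i : Fin P, XY Y (u.1 i.castSucc) i.castSucc u.2.1 t = true) &&
        Xz z (u.1 (Fin.last P)) u.2.1 t) (3 * m) := by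
  unfold pv pty
  congr 1
  funext t
  rw [Bool.eq_iff_iff, Bool.and_eq_true, decide_eq_true_iff, decide_eq_true_iff,
    Fin.forall_fin_succ']
  have h1 : ∀ i : Fin P, XY (Function.update Y (Fin.last P) z) (u.1 i.castSucc) i.castSucc =
      XY Y (u.1 i.castSucc) i.castSucc := by
    intro i
    unfold XY
    rw [Function.update_of_ne (Fin.castSucc_lt_last i).ne]
  have h2 : XY (Function.update Y (Fin.last P) z) (u.1 (Fin.last P)) (Fin.last P) =
      Xz z (u.1 (Fin.last P)) := by
    unfold XY
    rw [Function.update_self]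
  simp only [h1, h2]

/-- Pointwise exclusive or. -/
def xr (z z' : Fin M → Nd D → Fin m → Bool) : Fin M → Nd D → Fin m → Bool :=
  fun a v t => xor (z a v t) (z' a v t)

lemma Xz_xr (z z' : Fin M → Nd D → Fin m → Bool) (a : ℕ) (π : List Bool) (t : ℕ) :
    Xz (xr z z') a π t = xor (Xz z a π t) (Xz z' a π t) := by
  unfold Xz xr
  split_ifs <;> rfl

lemma pv_xr (Y : Yt P M D m) (z z' : Fin M → Nd D → Fin m → Bool)
    (u : (Fin (P + 1) → Fin M) × Nd D) :
    pv (Function.update Y (Fin.last P) (xr z z')) u =
      xor (pv (Function.update Y (Fin.last P) z) u)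
        (pv (Function.update Y (Fin.last P) z') u) := by
  rw [pv_update, pv_update, pv_update, ← par_xor]
  congr 1
  funext t
  rw [Xz_xr]

lemma xr_cancel {z z' z0 : Fin M → Nd D → Fin m → Bool} (h : xr z z0 = xr z' z0) : z = z' := by
  funext a v t
  have h1 := congrFun (congrFun (congrFun h a) v) t
  unfold xr at h1
  revert h1
  cases z a v t <;> cases z' a v t <;> cases z0 a v t <;> simp

open Classical in
/-- A representative with given parities. -/
noncomputable def rep {Z C : Type} [Inhabited Z] (g : Z → C) (c : C) : Z :=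
  if h : ∃ z, g z = c then h.choose else default

lemma rep_spec {Z C : Type} [Inhabited Z] (g : Z → C) (c : C) (h : ∃ z, g z = c) :
    g (rep g c) = c := by
  unfold rep
  rw [dif_pos h]
  exact h.choose_spec

/-- There are many good contents. -/
lemma many_good [DecidablePred (Gd (P := P) (M := M) (D := D) (m := m))] :
    Fintype.card (Yt P M D m) ≤
      (Finset.univ.filter (Gd (P := P) (M := M) (D := D) (m := m))).card *
        2 ^ Fintype.card ((Fin (P + 1) → Fin M) × Nd D) := by
  classical
  let g : Yt P M D m → (Fin M → Nd D → Fin m → Bool) → (Fin (P + 1) → Fin M) × Nd D → Bool :=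
    fun Y z => pv (Function.update Y (Fin.last P) z)
  let F : Yt P M D m → Yt P M D m × ((Fin (P + 1) → Fin M) × Nd D → Bool) := fun Y =>
    (Function.update Y (Fin.last P) (xr (Y (Fin.last P)) (rep (g Y) (pv Y))), pv Y)
  have hrep : ∀ Y, g Y (rep (g Y) (pv Y)) = pv Y := fun Y =>
    rep_spec _ _ ⟨Y (Fin.last P), by simp only [g, Function.update_eq_self]⟩
  have hF : ∀ Y, F Y ∈ (Finset.univ.filter (Gd (P := P) (M := M) (D := D) (m := m))) ×ˢ
      (Finset.univ : Finset ((Fin (P + 1) → Fin M) × Nd D → Bool)) := by
    intro Y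
    rw [Finset.mem_product]
    refine ⟨?_, Finset.mem_univ _⟩
    rw [Finset.mem_filter]
    refine ⟨Finset.mem_univ _, ?_⟩
    rw [gd_iff_pv]
    funext u
    simp only [F]
    rw [pv_xr, Function.update_eq_self]
    have h1 : pv (Function.update Y (Fin.last P) (rep (g Y) (pv Y))) = pv Y := hrep Y
    rw [h1]
    exact Bool.xor_self _
  have hinj : Function.Injective F := by
    intro Y Y' h
    obtain ⟨h1, h2⟩ := Prod.mk.inj h
    have hg : g Y = g Y' := by
      funext z
      simp only [g]
      have h3 := congrArg (fun W => Function.update W (Fin.last P) z) h1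
      simp only [Function.update_idem] at h3
      rw [h3]
    have h4 := congrFun h1 (Fin.last P)
    rw [Function.update_self, Function.update_self, hg, h2] at h4
    have h5 := xr_cancel h4
    funext i
    by_cases hi : i = Fin.last P
    · rw [hi]
      exact h5
    · have h6 := congrFun h1 i
      rwa [Function.update_of_ne hi, Function.update_of_ne hi] at h6
  have hcard := Finset.card_le_card_of_injOn (s := Finset.univ) F (fun Y _ => hF Y) hinj.injOn
  rw [Finset.card_product, Finset.card_univ, Finset.card_univ] at hcard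
  rw [Fintype.card_fun (α := (Fin (P + 1) → Fin M) × Nd D) (β := Bool),
    Fintype.card_bool] at hcard
  exact hcard

/-! ### Differences of words -/

lemma cat_diff {Λ : Type} {f f' : ℕ → List Λ} {B M : ℕ} (hB : 0 < B)
    (hf : ∀ a, (f a).length = B) (hf' : ∀ a, (f' a).length = B) (z : List Λ) (q : ℕ)
    (h : (cat f M ++ z)[q]? ≠ (cat f' M ++ z)[q]?) :
    ∃ a < M, ∃ q' < B, q = a * B + q' ∧ (f a)[q']? ≠ (f' a)[q']? := by
  rcases Nat.lt_or_ge q (M * B) with hq | hq
  · have h1 : q / B < M := (Nat.div_lt_iff_lt_mul hB).2 hq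
    have h2 : q % B < B := Nat.mod_lt _ hB
    have h3 : q = q / B * B + q % B := by
      rw [mul_comm]
      exact (Nat.div_add_mod q B).symm
    refine ⟨q / B, h1, q % B, h2, h3, ?_⟩
    rw [h3, cat_at hf M z (q / B) h1 (q % B) (by rw [hf]; exact h2),
      cat_at hf' M z (q / B) h1 (q % B) (by rw [hf']; exact h2)] at h
    exact h
  · exfalso
    apply h
    rw [List.getElem?_append_right (by rw [length_cat hf]; exact hq),
      List.getElem?_append_right (by rw [length_cat hf']; exact hq), length_cat hf,
      length_cat hf']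

lemma wd_diff {X X' : ℕ → Fin (P + 1) → List Bool → ℕ → Bool} {r S M j b0 : ℕ}
    {i0 : Fin (P + 1)} {π0 : List Bool} {Q : ℕ → Prop} (hπ : π0.length ≤ S)
    (h : ∀ b i π, ¬ (b = b0 ∧ i = i0 ∧ π = π0) → X b i π = X' b i π)
    (hQ : ∀ t, X b0 i0 π0 t ≠ X' b0 i0 π0 t → Q t) (q : ℕ)
    (hq : (wd X r S M j)[q]? ≠ (wd X' r S M j)[q]?) :
    ∃ t < r, Q t ∧ ((i0 = Fin.last P ∧
      q + 1 + t = b0 * BL r S + 1 + st r S π0 + len r (S - π0.length)) ∨
      (i0 ≠ Fin.last P ∧ q = b0 * BL r S + 1 + st r S π0 + t)) := by
  have hB : 0 < BL r S := by unfold BL; omega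
  obtain ⟨a, ha, q', hq', rfl, hd⟩ := cat_diff hB (fun a => length_blk (X a) r S)
    (fun a => length_blk (X' a) r S) _ q hq
  have hab : a = b0 := by
    by_contra hne
    apply hd
    have : X a = X' a := by
      funext i π
      exact h a i π (fun hh => hne hh.1)
    rw [this]
  subst hab
  cases q' with
  | zero => exact absurd rfl hd
  | succ q' =>
    have hd2 : (tree (X a) r S ++ List.replicate (len r S) Lt.gap)[q']? ≠
        (tree (X' a) r S ++ List.replicate (len r S) Lt.gap)[q']? := hd
    have hd3 : (tree (X a) r S)[q']? ≠ (tree (X' a) r S)[q']? := by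
      intro he
      apply hd2
      rw [List.getElem?_append, List.getElem?_append, length_tree, length_tree, he]
    by_cases hi : i0 = Fin.last P
    · have ho : ol (X a) r = ol (X' a) r := by
        funext π
        unfold ol
        refine List.map_congr_left fun t _ => ?_
        congr 1
        funext i
        rw [h a i.castSucc π (fun hh => (Fin.castSucc_lt_last i).ne (hh.2.1.trans hi))]
      unfold tree at hd3
      rw [ho] at hd3
      obtain ⟨t, ht, h1, h2⟩ := diff_tw_close Lt.op Lt.cl S (ol (X' a) r) (cll (X a) r)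
        (cll (X' a) r) π0 (length_ol _ _) (length_cll _ _) (length_cll _ _) (by
          intro π hne
          unfold cll
          rw [h a (Fin.last P) π (fun hh => hne hh.2.2)]) hπ q' hd3
      refine ⟨t, ht, ?_, Or.inl ⟨hi, by omega⟩⟩
      apply hQ
      intro he
      apply h1
      simp only [cll, List.getElem?_map]
      rw [List.getElem?_range ht]
      simp only [Option.map_some]
      rw [← hi, he]
    · have hc : cll (X a) r = cll (X' a) r := by
        funext π
        unfold cll
        rw [h a (Fin.last P) π (fun hh => hi hh.2.1.symm)]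
      unfold tree at hd3
      rw [hc] at hd3
      obtain ⟨t, ht, h1, h2⟩ := diff_tw_open Lt.op Lt.cl S (ol (X a) r) (ol (X' a) r)
        (cll (X' a) r) π0 (length_ol _ _) (length_ol _ _) (length_cll _ _) (by
          intro π hne
          unfold ol
          refine List.map_congr_left fun t _ => ?_
          congr 1
          funext i
          rw [h a i.castSucc π (fun hh => hne hh.2.2)]) hπ q' hd3
      refine ⟨t, ht, ?_, Or.inr ⟨hi, by omega⟩⟩
      apply hQ
      intro he
      apply h1
      simp only [ol, List.getElem?_map]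
      rw [List.getElem?_range ht]
      simp only [Option.map_some]
      congr 2
      funext i
      by_cases hii : i.castSucc = i0
      · rw [hii, he]
      · rw [h a i.castSucc π0 (fun hh => hii hh.2.1)]

end Pool.Agent.Poly
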