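import Pool.Agent.Lib_helper16.Poly.Cont

/-!
The lower bound for fixed parameters.
-/

set_option autoImplicit false

namespace Pool.Agent.Poly

open Pool.Agent.Heads
open Pool.Agent.Time (len st Nd Cf inSeg Lip exists_run Cb code enc code_inj tape_ne
  len_eq len_lt len_scale st_sep st_le sum_nodes)

variable {P M D m k : ℕ}

/-- The heads are not in all segments of a task. -/
def GP {A : FA (Lt P) k} (B r s L : ℕ) (a : Fin (P + 1) → Fin M) (c : Cf A) : Prop :=
  ¬ ∀ i, inSeg (lo B r s L a i) (lo B r s L a i + r) c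

lemma keyP (A : FA (Lt P) k) (hP : 0 < P) (S j T : ℕ) (hD : D + 3 = S) (hm : 0 < m)
    (Y : Yt P M D m)
    (hrun : ∃ t ≤ T, ∃ c, ReachN (A.Step (wd (XY Y) (3 * m) S M j)) (A.start, fun _ => 0) t c ∧
      c.1 ∈ A.accept)
    (h1 : k ^ (P + 1) * (T + m * 2 ^ (S - 1) + 1) <
      M ^ (P + 1) * ((D + 1) * (m * 2 ^ (S - 1)))) :
    ∃ (a : Fin (P + 1) → Fin M) (v : Nd D) (i : Fin m) (l : List (Cf A × Cf A)),
      PatP A (wd (XY Y) (3 * m) S M j)
        (GP (BL (3 * m) S) (3 * m) (st (3 * m) S v.1 + 2) (len (3 * m) (S - v.1.length)) a)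
        (firstFree (fun i' => lo (BL (3 * m) S) (3 * m) (st (3 * m) S v.1 + 2)
          (len (3 * m) (S - v.1.length)) a i' + i.val)
          (fun i' => lo (BL (3 * m) S) (3 * m) (st (3 * m) S v.1 + 2)
          (len (3 * m) (S - v.1.length)) a i' + 3 * m - i.val))
        (A.start, fun _ => 0) l ∧ l.length ≤ (P + 1) * (2 * k * T) / m ∧
      ∀ x ∈ l, (∀ a, x.1.2 a ≤ M * BL (3 * m) S + j + 1) ∧
        ∀ a, x.2.2 a ≤ M * BL (3 * m) S + j + 1 := by
  set w : List (Lt P) := wd (XY Y) (3 * m) S M j with hw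
  have hlen : w.length = M * BL (3 * m) S + j := length_wd _ _ _ _ _
  obtain ⟨t, ht, c, hc, hacc⟩ := hrun
  obtain ⟨r, hr0, hrt, hrs⟩ := exists_run hc
  -- the trajectories
  have hmove : ∀ N p (d : Dir), p ≤ N → move N p d ≤ p + 1 ∧ p ≤ move N p d + 1 := by
    intro N p d hp
    cases d <;> simp only [move] <;> omega
  have hbd : ∀ s a, (r s).2 a ≤ w.length + 1 := by
    intro s
    induction s with
    | zero => intro a; rw [hr0]; exact Nat.zero_le _
    | succ s ih =>
      intro a
      rcases Nat.lt_or_ge s t with h | h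
      · obtain ⟨tr, -, he⟩ := hrs s h
        rw [he]
        exact move_le _ _ _ (ih a)
      · rw [hrt (s + 1) (by omega), ← hrt s h]
        exact ih a
  have hlip : ∀ a, Lip (fun s => (r s).2 a) := by
    intro a s
    rcases Nat.lt_or_ge s t with h | h
    · obtain ⟨tr, -, he⟩ := hrs s h
      simp only
      rw [he]
      exact hmove _ _ _ (hbd s a)
    · simp only
      rw [hrt (s + 1) (by omega), hrt s h]
      omega
  -- an unseen task
  have hlen3 : ∀ v : Nd D, 16 * (3 * m) ≤ len (3 * m) (S - v.1.length) := by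
    intro v
    have hv := v.2
    have h2 : 3 ≤ S - v.1.length := by omega
    have h3 := len_eq (3 * m) (S - v.1.length)
    have h4 : 2 ^ 5 ≤ 2 ^ (S - v.1.length + 2) := Nat.pow_le_pow_right (by omega) (by omega)
    have h5 : 3 * m * 2 ^ 5 ≤ 3 * m * 2 ^ (S - v.1.length + 2) := Nat.mul_le_mul_left _ h4
    omega
  have hlen16 : ∀ h, 2 ≤ h → 16 * (m * 2 ^ (h - 1)) ≤ len (3 * m) h := by
    intro h hh
    have h3 := len_eq (3 * m) h
    have h4 : 2 ^ (h + 2) = 8 * 2 ^ (h - 1) := by
      have : h + 2 = (h - 1) + 3 := by omega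
      rw [this, pow_add]
      ring
    rw [h4] at h3
    have h5 : 2 ^ 1 ≤ 2 ^ (h - 1) := Nat.pow_le_pow_right (by omega) (by omega)
    have h6 : m * 2 ^ 1 ≤ m * 2 ^ (h - 1) := Nat.mul_le_mul_left _ h5
    have h7 : 3 * m * (8 * 2 ^ (h - 1)) = 24 * (m * 2 ^ (h - 1)) := by ring
    rw [h7] at h3
    omega
  obtain ⟨a, v, hv⟩ := uncoveredP (k := k) (P := P) (T := t) (r := 3 * m)
    (W := m * 2 ^ (S - 1)) (B := BL (3 * m) S) (Bm := len (3 * m) S + 2) (M := M) hP
    (fun a s => (r s).2 a) hlip (V := Nd D) (fun v => st (3 * m) S v.1 + 2)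
    (fun v => len (3 * m) (S - v.1.length)) (fun v => m * 2 ^ (S - v.1.length - 1)) hlen3
    (fun v => hlen16 _ (by have := v.2; omega))
    (by
      intro v
      exact Nat.mul_le_mul_left _ (Nat.pow_le_pow_right (by omega) (by omega)))
    (by
      intro v v' hne hL
      have hv := v.2
      have hv' := v'.2
      have hlv : v.1.length = v'.1.length := by
        rcases Nat.lt_trichotomy (S - v.1.length) (S - v'.1.length) with h | h | h
        · exact absurd hL (by have := len_lt (r := 3 * m) (by omega) h; omega)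
        · omega
        · exact absurd hL (by have := len_lt (r := 3 * m) (by omega) h; omega)
      have h3 := st_sep (3 * m) S v.1 v'.1 (fun h => hne (Subtype.ext h)) hlv (by omega)
      rw [← hlv]
      omega)
    (by
      intro v v'
      rcases Nat.lt_trichotomy (S - v.1.length) (S - v'.1.length) with h | h | h
      · exact Or.inr (Or.inl (len_scale _ h))
      · exact Or.inl (by rw [h])
      · exact Or.inr (Or.inr (len_scale _ h)))
    (by
      intro v
      have h3 := st_le (3 * m) S v.1 (by have := v.2; omega)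
      omega)
    (by
      have h3 := hlen16 S (by omega)
      have h4 : 2 ^ 1 ≤ 2 ^ (S - 1) := Nat.pow_le_pow_right (by omega) (by omega)
      have h5 : m * 2 ^ 1 ≤ m * 2 ^ (S - 1) := Nat.mul_le_mul_left _ h4
      unfold BL
      omega)
    (by
      have h3 := sum_nodes D m S (by omega)
      have h4 : k ^ (P + 1) * (t + m * 2 ^ (S - 1) + 1) ≤
          k ^ (P + 1) * (T + m * 2 ^ (S - 1) + 1) := Nat.mul_le_mul_left _ (by omega)
      exact lt_of_lt_of_le (lt_of_le_of_lt h4 h1) (Nat.mul_le_mul_left _ h3))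
  -- a good cut
  obtain ⟨i, hi, hcut⟩ := exists_cutP (A := A) (r := r) (T := t) (m := m) (p := P)
    (s := fun i' => lo (BL (3 * m) S) (3 * m) (st (3 * m) S v.1 + 2)
      (len (3 * m) (S - v.1.length)) a i')
    (e := fun i' => lo (BL (3 * m) S) (3 * m) (st (3 * m) S v.1 + 2)
      (len (3 * m) (S - v.1.length)) a i' + 3 * m) hm
    (fun s _ a => hlip a s)
  obtain ⟨l, hl1, hl2, hl3⟩ := patP_of_run (A := A) (w := w)
    (G := GP (BL (3 * m) S) (3 * m) (st (3 * m) S v.1 + 2) (len (3 * m) (S - v.1.length)) a)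
    (J := firstFree (fun i' => lo (BL (3 * m) S) (3 * m) (st (3 * m) S v.1 + 2)
      (len (3 * m) (S - v.1.length)) a i' + i)
      (fun i' => lo (BL (3 * m) S) (3 * m) (st (3 * m) S v.1 + 2)
      (len (3 * m) (S - v.1.length)) a i' + 3 * m - i)) (r := r) (T := t) hrs
    (by
      intro s hs h2
      exact hv s hs h2)
    (by rw [hrt t le_rfl]; exact hacc) t 0 (by omega)
  refine ⟨a, v, ⟨i, hi⟩, l, ?_, ?_, ?_⟩
  · rw [hr0] at hl1
    exact hl1
  · rw [Nat.le_div_iff_mul_le hm]
    refine le_trans ?_ (Nat.mul_le_mul_left (P + 1) (Nat.mul_le_mul_left (2 * k) ht))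
    refine le_trans ?_ hcut
    rw [mul_comm]
    exact Nat.mul_le_mul_left _ hl2
  · intro x hx
    obtain ⟨s, hs, rfl⟩ := hl3 x hx
    rw [← hlen]
    exact ⟨hbd s, hbd (s + 1)⟩

/-- Replace the contents of a task. -/
noncomputable def set' (a : Fin (P + 1) → Fin M) (v : Nd D) (o : Yt P M D m)
    (x : Fin (P + 1) → Fin m → Bool) : Yt P M D m := by
  classical
  exact fun i b u => if b = a i ∧ u = v then x i else o i b u

lemma set'_at (a : Fin (P + 1) → Fin M) (v : Nd D) (o : Yt P M D m)
    (x : Fin (P + 1) → Fin m → Bool) : (fun i => set' a v o x i (a i) v) = x := by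
  funext i
  simp [set']

lemma set'_set' (a : Fin (P + 1) → Fin M) (v : Nd D) (o : Yt P M D m)
    (x : Fin (P + 1) → Fin m → Bool) :
    set' a v (set' a v o x) (fun i => o i (a i) v) = o := by
  funext i b u
  unfold set'
  by_cases h : b = a i ∧ u = v
  · rw [if_pos h, h.1, h.2]
  · rw [if_neg h, if_neg h]

/-- The words for contents which agree except at one party. -/
lemma set'_diff {S j : ℕ} (hD : D + 3 = S) (a : Fin (P + 1) → Fin M) (v : Nd D)
    (o : Yt P M D m) (x y : Fin (P + 1) → Fin m → Bool) (i0 : Fin (P + 1))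
    (hxy : ∀ i, i ≠ i0 → x i = y i) (p : ℕ)
    (hp : tape (wd (XY (set' a v o x)) (3 * m) S M j) p ≠
      tape (wd (XY (set' a v o y)) (3 * m) S M j) p) :
    lo (BL (3 * m) S) (3 * m) (st (3 * m) S v.1 + 2) (len (3 * m) (S - v.1.length)) a i0 + m ≤
      p ∧ p < lo (BL (3 * m) S) (3 * m) (st (3 * m) S v.1 + 2)
        (len (3 * m) (S - v.1.length)) a i0 + 2 * m := by
  obtain ⟨q, rfl, hq⟩ := tape_ne hp
  have hv := v.2
  have hL : 3 * m ≤ len (3 * m) (S - v.1.length) := by
    have h3 := len_eq (3 * m) (S - v.1.length)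
    have h4 : 2 ^ 2 ≤ 2 ^ (S - v.1.length + 2) := Nat.pow_le_pow_right (by omega) (by omega)
    have h5 : 3 * m * 2 ^ 2 ≤ 3 * m * 2 ^ (S - v.1.length + 2) := Nat.mul_le_mul_left _ h4
    omega
  obtain ⟨t, ht, hQ, hpos⟩ := wd_diff (X := XY (set' a v o x)) (X' := XY (set' a v o y))
    (b0 := (a i0).val) (i0 := i0) (π0 := v.1) (Q := fun t => m ≤ t ∧ t < 2 * m)
    (by omega) (by
      intro b i π hne
      funext t
      unfold XY Xz
      split_ifs with h
      · refine congrFun ?_ _
        unfold set'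
        by_cases h2 : (⟨b, h.1.1⟩ : Fin M) = a i ∧ (⟨π, h.1.2⟩ : Nd D) = v
        · rw [if_pos h2, if_pos h2]
          apply hxy
          rintro rfl
          exact hne ⟨congrArg Fin.val h2.1, rfl, congrArg Subtype.val h2.2⟩
        · rw [if_neg h2, if_neg h2]
      · rfl) (by
      intro t ht
      by_contra hcon
      apply ht
      unfold XY Xz
      rw [dif_neg (fun h => hcon h.2), dif_neg (fun h => hcon h.2)]) q hq
  unfold lo
  rcases hpos with ⟨h1, h2⟩ | ⟨h1, h2⟩
  · rw [if_pos h1]
    omega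
  · rw [if_neg h1]
    omega

/-- The lower bound for fixed parameters. -/
theorem coreP (A : FA (Lt P) k) (hP : 0 < P) (S j T : ℕ) (hD : D + 3 = S) (hm : 0 < m)
    (hM : 0 < M)
    (hcor : ∀ Y : Yt P M D m, wd (XY Y) (3 * m) S M j ∈ A.lang →
      AccF (wd (XY Y) (3 * m) S M j) (ini P))
    (htime : ∀ Y : Yt P M D m, Gd Y → ∃ t ≤ T, ∃ c,
      ReachN (A.Step (wd (XY Y) (3 * m) S M j)) (A.start, fun _ => 0) t c ∧ c.1 ∈ A.accept)
    (h1 : k ^ (P + 1) * (T + m * 2 ^ (S - 1) + 1) <
      M ^ (P + 1) * ((D + 1) * (m * 2 ^ (S - 1))))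
    (h2 : (2 : ℝ) ^ (M ^ (P + 1) * Fintype.card (Nd D)) *
      ((M ^ (P + 1) * Fintype.card (Nd D) : ℕ) * (m *
        ((Nat.card A.Q * (M * BL (3 * m) S + j + 2) ^ k) ^ 2 + 1) ^
          ((P + 1) * (2 * k * T) / m) : ℕ)) * bet P ^ m < 1) : False := by
  classical
  have hfin := A.finQ
  have : Fintype A.Q := Fintype.ofFinite _
  have hkey : ∀ Y : Yt P M D m, Gd Y → _ := fun Y hY =>
    keyP A hP S j T hD hm Y (htime Y hY) h1
  choose a v i l hpat hlen hbd using hkey
  let N := M * BL (3 * m) S + j + 1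
  let E := (P + 1) * (2 * k * T) / m
  let K : Type := ((Fin (P + 1) → Fin M) × Nd D) ×
    (Fin m × (Fin E → Option (Cb A N × Cb A N)))
  let G : K → Finset (Yt P M D m) := fun κ => Finset.univ.filter (fun Y =>
    ∃ h : Gd Y, (((a Y h, v Y h), (i Y h, code N E (l Y h))) : K) = κ)
  have hb0 := bet_nonneg P
  -- each class is small
  have hsmall : ∀ κ, ((G κ).card : ℝ) ≤ Fintype.card (Yt P M D m) * bet P ^ m := by
    rintro ⟨⟨a0, v0⟩, ⟨i0, c0⟩⟩
    have hmem : ∀ Y, Y ∈ G ((a0, v0), (i0, c0)) ↔
        ∃ h : Gd Y, (((a Y h, v Y h), (i Y h, code N E (l Y h))) : K) =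
          ((a0, v0), (i0, c0)) := fun Y => by simp [G]
    let Xo : Yt P M D m → Finset (Fin (P + 1) → Fin m → Bool) := fun o =>
      Finset.univ.filter (fun x => set' a0 v0 o x ∈ G ((a0, v0), (i0, c0)))
    have hXo : ∀ o, ((Xo o).card : ℝ) ≤ (2 ^ m) ^ (P + 1) * bet P ^ m := by
      intro o
      have h3 := gip_star P (Xo o) (by
        intro y hy
        choose x hx hxy using hy
        have hx' : ∀ i', ∃ h : Gd (set' a0 v0 o (x i')),
            (((a _ h, v _ h), (i _ h, code N E (l _ h))) : K) = ((a0, v0), (i0, c0)) := by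
          intro i'
          have := hx i'
          rw [Finset.mem_filter] at this
          exact (hmem _).1 this.2
        choose hg hcode using hx'
        have e1 : ∀ i', a _ (hg i') = a0 := fun i' =>
          congrArg (fun κ : K => κ.1.1) (hcode i')
        have e2 : ∀ i', v _ (hg i') = v0 := fun i' =>
          congrArg (fun κ : K => κ.1.2) (hcode i')
        have e3 : ∀ i', i _ (hg i') = i0 := fun i' =>
          congrArg (fun κ : K => κ.2.1) (hcode i')
        have e4 : ∀ i', code N E (l _ (hg i')) = c0 := fun i' =>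
          congrArg (fun κ : K => κ.2.2) (hcode i')
        have e5 : ∀ i', l _ (hg i') = l _ (hg 0) := fun i' =>
          code_inj (hlen _ (hg i')) (hlen _ (hg 0)) (hbd _ (hg i')) (hbd _ (hg 0))
            ((e4 i').trans (e4 0).symm)
        have hp : ∀ i', PatP A (wd (XY (set' a0 v0 o (x i'))) (3 * m) S M j)
            (GP (BL (3 * m) S) (3 * m) (st (3 * m) S v0.1 + 2)
              (len (3 * m) (S - v0.1.length)) a0)
            (firstFree (fun i' => lo (BL (3 * m) S) (3 * m) (st (3 * m) S v0.1 + 2)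
              (len (3 * m) (S - v0.1.length)) a0 i' + i0.val)
              (fun i' => lo (BL (3 * m) S) (3 * m) (st (3 * m) S v0.1 + 2)
              (len (3 * m) (S - v0.1.length)) a0 i' + 3 * m - i0.val))
            (A.start, fun _ => 0) (l _ (hg 0)) := by
          intro i'
          have := hpat _ (hg i')
          rw [e1, e2, e3, e5] at this
          exact this
        have hacc := pasteP (y := wd (XY (set' a0 v0 o y)) (3 * m) S M j)
          (w := fun i' => wd (XY (set' a0 v0 o (x i'))) (3 * m) S M j)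
          (fun i' => by rw [length_wd, length_wd]) (by
            intro i' c hG hJ h
            by_contra hcon
            obtain ⟨q1, q2⟩ := set'_diff hD a0 v0 o (x i') y i' (hxy i') _ hcon
            have hi0 := i0.isLt
            have hex : ∃ i1, ¬ inSeg (A := A)
                (lo (BL (3 * m) S) (3 * m) (st (3 * m) S v0.1 + 2)
                  (len (3 * m) (S - v0.1.length)) a0 i1 + i0.val)
                (lo (BL (3 * m) S) (3 * m) (st (3 * m) S v0.1 + 2)
                  (len (3 * m) (S - v0.1.length)) a0 i1 + 3 * m - i0.val) c := by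
              by_contra hall
              push Not at hall
              apply hG
              intro i1
              obtain ⟨h', h3, h4⟩ := hall i1
              exact ⟨h', by omega, by omega⟩
            have hspec := firstFree_spec hex
            rw [hJ] at hspec
            exact hspec ⟨h, by omega, by omega⟩) _ _ hp
        obtain ⟨c', h4, h5⟩ := hacc
        have h6 := hcor (set' a0 v0 o y) ⟨c', h4, h5⟩
        have h7 : Gd (set' a0 v0 o y) := by
          rw [gd_even _ S (by omega)]
          by_contra hne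
          push Not at hne
          exact (run_wd (XY (set' a0 v0 o y)) (3 * m) S M j hP (by omega) hM).2 hne h6
        have h8 := (pty_iff _ a0 v0).1 (h7 a0 v0)
        rwa [set'_at] at h8)
      rwa [Fintype.card_fin] at h3
    have hsum : ∑ o, (Xo o).card = (G ((a0, v0), (i0, c0))).card *
        Fintype.card (Fin (P + 1) → Fin m → Bool) := by
      have h3 : ∑ o, (Xo o).card = ((Finset.univ : Finset (Yt P M D m ×
          (Fin (P + 1) → Fin m → Bool))).filter
          (fun p => set' a0 v0 p.1 p.2 ∈ G ((a0, v0), (i0, c0)))).card := by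
        rw [Finset.card_filter, Fintype.sum_prod_type]
        refine Finset.sum_congr rfl fun o _ => ?_
        simp only [Xo]
        rw [Finset.card_filter]
      rw [h3, ← Finset.card_univ, ← Finset.card_product]
      refine Finset.card_nbij' (fun p => (set' a0 v0 p.1 p.2, fun i => p.1 i (a0 i) v0))
        (fun p => (set' a0 v0 p.1 p.2, fun i => p.1 i (a0 i) v0)) ?_ ?_ ?_ ?_
      · intro p hp
        have hp' := (Finset.mem_filter.1 (Finset.mem_coe.1 hp)).2
        exact Finset.mem_coe.2 (Finset.mem_product.2 ⟨hp', Finset.mem_univ _⟩)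
      · intro p hp
        have hp' := (Finset.mem_product.1 (Finset.mem_coe.1 hp)).1
        refine Finset.mem_coe.2 (Finset.mem_filter.2 ⟨Finset.mem_univ _, ?_⟩)
        simp only
        rw [set'_set']
        exact hp'
      · rintro ⟨o, x⟩ _
        simp only
        rw [set'_set', set'_at]
      · rintro ⟨o, x⟩ _
        simp only
        rw [set'_set', set'_at]
    have hct : (Fintype.card (Fin (P + 1) → Fin m → Bool) : ℝ) = (2 ^ m) ^ (P + 1) := by
      rw [Fintype.card_fun, Fintype.card_fun, Fintype.card_bool, Fintype.card_fin,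
        Fintype.card_fin]
      push_cast
      rfl
    have h3 : ((G ((a0, v0), (i0, c0))).card : ℝ) * (2 ^ m) ^ (P + 1) ≤
        (Fintype.card (Yt P M D m) * bet P ^ m) * (2 ^ m) ^ (P + 1) := by
      have h4 : (∑ o, ((Xo o).card : ℝ)) = ((G ((a0, v0), (i0, c0))).card : ℝ) *
          (2 ^ m) ^ (P + 1) := by
        rw [← hct, ← Nat.cast_mul, ← hsum, Nat.cast_sum]
      rw [← h4]
      calc ∑ o, ((Xo o).card : ℝ) ≤ ∑ _o : Yt P M D m, (2 ^ m) ^ (P + 1) * bet P ^ m :=
            Finset.sum_le_sum fun o _ => hXo o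
        _ = _ := by
          rw [Finset.sum_const, Finset.card_univ, nsmul_eq_mul]
          ring
    exact le_of_mul_le_mul_right h3 (by positivity)
  -- all good contents are in some class
  have hcover : (Finset.univ.filter (Gd (P := P) (M := M) (D := D) (m := m))) ⊆
      (Finset.univ : Finset K).biUnion G := by
    intro Y hY
    have hY' := (Finset.mem_filter.1 hY).2
    rw [Finset.mem_biUnion]
    refine ⟨((a Y hY', v Y hY'), (i Y hY', code N E (l Y hY'))), Finset.mem_univ _, ?_⟩
    exact Finset.mem_filter.2 ⟨Finset.mem_univ _, hY', rfl⟩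
  have hcount : ((Finset.univ.filter (Gd (P := P) (M := M) (D := D) (m := m))).card : ℝ) ≤
      Fintype.card K * (Fintype.card (Yt P M D m) * bet P ^ m) := by
    have h3 := (Finset.card_le_card hcover).trans Finset.card_biUnion_le
    have h4 : ((∑ κ, (G κ).card : ℕ) : ℝ) ≤
        Fintype.card K * (Fintype.card (Yt P M D m) * bet P ^ m) := by
      rw [Nat.cast_sum]
      calc ∑ κ, ((G κ).card : ℝ) ≤
            ∑ _κ : K, (Fintype.card (Yt P M D m) * bet P ^ m) :=
            Finset.sum_le_sum fun κ _ => hsmall κ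
        _ = _ := by rw [Finset.sum_const, Finset.card_univ, nsmul_eq_mul]
    exact le_trans (Nat.cast_le.2 h3) h4
  have hmany := many_good (P := P) (M := M) (D := D) (m := m)
  have hcV : Fintype.card ((Fin (P + 1) → Fin M) × Nd D) =
      M ^ (P + 1) * Fintype.card (Nd D) := by
    rw [Fintype.card_prod, Fintype.card_fun, Fintype.card_fin, Fintype.card_fin]
  have hcK : Fintype.card K = M ^ (P + 1) * Fintype.card (Nd D) * (m *
        ((Nat.card A.Q * (M * BL (3 * m) S + j + 2) ^ k) ^ 2 + 1) ^ E) := by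
    rw [← hcV]
    simp only [K, Fintype.card_prod, Fintype.card_fin, Fintype.card_fun, Fintype.card_option,
        Nat.card_eq_fintype_card, pow_two]
    rfl
  rw [hcV] at hmany
  have hYpos : (0 : ℝ) < Fintype.card (Yt P M D m) := by
    have : Nonempty (Yt P M D m) := ⟨fun _ _ _ _ => false⟩
    exact_mod_cast Fintype.card_pos
  have hfinal : (Fintype.card (Yt P M D m) : ℝ) * 1 ≤ Fintype.card (Yt P M D m) *
      ((2 : ℝ) ^ (M ^ (P + 1) * Fintype.card (Nd D)) * Fintype.card K * bet P ^ m) := by
    have h3 : (Fintype.card (Yt P M D m) : ℝ) ≤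
        ((Finset.univ.filter (Gd (P := P) (M := M) (D := D) (m := m))).card : ℝ) *
        2 ^ (M ^ (P + 1) * Fintype.card (Nd D)) := by
      exact_mod_cast hmany
    have h4 := mul_le_mul_of_nonneg_right hcount
      (show (0 : ℝ) ≤ 2 ^ (M ^ (P + 1) * Fintype.card (Nd D)) by positivity)
    calc (Fintype.card (Yt P M D m) : ℝ) * 1 = Fintype.card (Yt P M D m) := mul_one _
      _ ≤ _ := h3.trans h4
      _ = _ := by ring
  have h5 := le_of_mul_le_mul_left hfinal hYpos
  rw [hcK] at h5
  push_cast at h5 h2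
  exact absurd h5 (not_le.2 h2)

end Pool.Agent.Poly
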