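import Pool.Agent.Lib_helper16.Poly.AsympP
import Pool.Agent.Lib_helper16.Poly.ClockP

/-!
The separation: from natural numbers to real numbers.
-/

set_option autoImplicit false

namespace Pool.Agent.Poly

open Pool.Agent.Heads Filter Asymptotics

instance (P : ℕ) : Finite (Lt P) := by
  let e : Lt P → Fin 5 × (Bool × (Fin P → Bool)) × Bool := fun y => match y with
    | .hash => (0, (false, fun _ => false), false)
    | .gap => (1, (false, fun _ => false), false)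
    | .fin => (2, (false, fun _ => false), false)
    | .op x => (3, x, false)
    | .cl x => (4, (false, fun _ => false), x)
  refine Finite.of_injective e ?_
  intro y y' h
  cases y <;> cases y' <;> simp_all [e]

lemma log_le (n : ℕ) (hn : 2 ≤ n) : Real.log n ≤ 2 * (Nat.log 2 n : ℝ) := by
  have h1 : n < 2 ^ (Nat.log 2 n + 1) := Nat.lt_pow_succ_log_self (by norm_num) n
  have h2 : 1 ≤ Nat.log 2 n := Nat.le_log_of_pow_le (by norm_num) (by simpa using hn)
  have h3 : Real.log n ≤ Real.log ((2 : ℝ) ^ (Nat.log 2 n + 1)) := by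
    apply Real.log_le_log
    · exact_mod_cast (by omega : 0 < n)
    · exact_mod_cast h1.le
  rw [Real.log_pow] at h3
  have h4 : Real.log 2 ≤ 1 := by
    have := Real.log_two_lt_d9
    linarith
  have h5 : (1 : ℝ) ≤ (Nat.log 2 n : ℝ) := by exact_mod_cast h2
  have h6 : ((Nat.log 2 n + 1 : ℕ) : ℝ) * Real.log 2 ≤ ((Nat.log 2 n + 1 : ℕ) : ℝ) * 1 :=
    mul_le_mul_of_nonneg_left h4 (Nat.cast_nonneg _)
  push_cast at h6 h3
  linarith

/-- The language of the automaton with clock. -/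
def LT (g : ℕ) (T : ℕ → ℕ) : Set (List (Lt (2 * g + 1))) :=
  {w | ∃ t ≤ T w.length, ∃ c, Rn w t (ini (2 * g + 1)) c ∧ c.state = .acc}

/-- The general form. -/
theorem general (T : ℕ → ℕ) {k : ℕ} {C : FA Unit k} (hC : Clocks C T) (h0 : ∀ n, n + 2 ≤ T n)
    (ε : ℝ) (hε : 0 < ε) (hT : ∀ᶠ n : ℕ in atTop, (T n : ℝ) ≤ (n : ℝ) ^ (2 - ε)) :
    ∃ (g kk : ℕ) (_ : 1 ≤ kk) (M : PDA (Lt (2 * g + 1)) kk), M.Det ∧ M.lang = LT g T ∧
      (∀ w t c, M.Reach w t c → t ≤ T w.length) ∧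
      ∀ f : ℕ → ℝ, f =o[atTop] (fun n : ℕ => (T n : ℝ) * Real.log n) →
        ∀ (k' : ℕ) (_ : 1 ≤ k') (A : FA (Lt (2 * g + 1)) k'), A.lang = LT g T →
          ¬ ∀ w ∈ LT g T, ∃ t : ℕ, ∃ c, (t : ℝ) ≤ f w.length ∧
            ReachN (A.Step w) (A.start, fun _ => 0) t c ∧ c.1 ∈ A.accept := by
  obtain ⟨g, hg⟩ : ∃ g : ℕ, 1 ≤ ε * (g + 1) := by
    obtain ⟨g, hg⟩ := exists_nat_gt (1 / ε)
    refine ⟨g, ?_⟩
    rw [div_lt_iff₀ hε] at hg
    nlinarith
  refine ⟨g, 2 * g + 1 + 1 + k, by omega, prd (2 * g + 1) C, prd_det hC.1, ?_,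
    fun w t c h => prd_time hC w t c h, ?_⟩
  · ext w
    exact prd_lang hC w
  · intro f hf k' hk' A hA htime
    refine lowerP g T h0 ?_ hk' A (fun w => by rw [hA]; rfl) (fun n => ⌊f n⌋₊) ?_ ?_
    · obtain ⟨N, hN⟩ := eventually_atTop.1 hT
      refine ⟨N + 1, fun n hn => ?_⟩
      have h1 := hN n (by omega)
      have hn1 : (1 : ℝ) ≤ n := by exact_mod_cast (by omega : 1 ≤ n)
      have h2 : (T n : ℝ) ^ (g + 1) ≤ (n : ℝ) ^ (2 * g + 1) := by
        calc (T n : ℝ) ^ (g + 1) ≤ ((n : ℝ) ^ (2 - ε)) ^ (g + 1) :=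
              pow_le_pow_left₀ (Nat.cast_nonneg _) h1 _
          _ = (n : ℝ) ^ ((2 - ε) * (g + 1 : ℕ)) := by
              rw [← Real.rpow_natCast, ← Real.rpow_mul (by linarith)]
          _ ≤ (n : ℝ) ^ ((2 * g + 1 : ℕ) : ℝ) := by
              apply Real.rpow_le_rpow_of_exponent_le hn1
              push_cast
              nlinarith
          _ = (n : ℝ) ^ (2 * g + 1) := Real.rpow_natCast _ _
      exact_mod_cast h2
    · intro K
      have h1 := hf.def (c := 1 / (2 * (K + 1))) (by positivity)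
      obtain ⟨N, hN⟩ := eventually_atTop.1 h1
      refine ⟨N + 2, fun n hn => ?_⟩
      have h2 := hN n (by omega)
      have h3 := log_le n (by omega)
      have hlog0 : 0 ≤ Real.log n := Real.log_natCast_nonneg n
      rw [Real.norm_eq_abs, Real.norm_eq_abs, abs_of_nonneg (a := (T n : ℝ) * Real.log n)
        (by positivity)] at h2
      have h4 : ((K * ⌊f n⌋₊ : ℕ) : ℝ) ≤ ((T n * Nat.log 2 n : ℕ) : ℝ) := by
        push_cast
        have h5 : ((⌊f n⌋₊ : ℕ) : ℝ) ≤ |f n| := by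
          rcases le_total 0 (f n) with h | h
          · exact (Nat.floor_le h).trans (le_abs_self _)
          · rw [Nat.floor_of_nonpos h]
            simp
        have h6 : (K : ℝ) * ⌊f n⌋₊ ≤ (K + 1) * (1 / (2 * (K + 1)) * (T n * Real.log n)) := by
          have h7 : ((⌊f n⌋₊ : ℕ) : ℝ) ≤ 1 / (2 * (K + 1)) * (T n * Real.log n) := h5.trans h2
          have h8 : (0 : ℝ) ≤ ⌊f n⌋₊ := Nat.cast_nonneg _
          have h9 : (K : ℝ) * ⌊f n⌋₊ ≤ (K + 1) * ⌊f n⌋₊ := by nlinarith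
          exact h9.trans (mul_le_mul_of_nonneg_left h7 (by positivity))
        have h7 : ((K : ℝ) + 1) * (1 / (2 * (K + 1)) * (T n * Real.log n)) =
            T n * Real.log n / 2 := by
          field_simp
        rw [h7] at h6
        have h8 : (T n : ℝ) * Real.log n / 2 ≤ T n * Nat.log 2 n := by
          have h9 : (T n : ℝ) * Real.log n ≤ T n * (2 * (Nat.log 2 n : ℝ)) :=
            mul_le_mul_of_nonneg_left h3 (Nat.cast_nonneg _)
          linarith
        exact h6.trans h8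
      exact_mod_cast h4
    · intro w hw
      rw [hA] at hw
      obtain ⟨t, c, h1, h2, h3⟩ := htime w hw
      exact ⟨t, Nat.le_floor h1, c, h2, h3⟩

/-- Clocks for rational exponents. -/
theorem exists_clock_rat (c : ℚ) (hc1 : 1 ≤ c) (hc2 : c < 2) :
    ∃ (T : ℕ → ℕ) (C : FA Unit 3) (K : ℝ), Clocks C T ∧ (∀ n, n + 2 ≤ T n) ∧ 0 < K ∧
      (∀ n : ℕ, (T n : ℝ) ≤ K * ((n : ℝ) + 1) ^ (c : ℝ)) ∧
      (∀ n : ℕ, 0 < n → (T n : ℝ) ≤ K * (n : ℝ) ^ (c : ℝ)) ∧
      (∀ n : ℕ, (n : ℝ) ^ (c : ℝ) ≤ K * T n) := by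
  have hden : (0 : ℚ) < c.den := by exact_mod_cast c.den_pos
  have hnd : (c.num : ℚ) = c * c.den := by
    rw [Rat.mul_den_eq_num]
  have h1 : (c.den : ℤ) ≤ c.num := by
    have : (c.den : ℚ) ≤ c.num := by rw [hnd]; nlinarith
    exact_mod_cast this
  have h2 : c.num < 2 * (c.den : ℤ) := by
    have : (c.num : ℚ) < 2 * c.den := by rw [hnd]; nlinarith
    exact_mod_cast this
  obtain ⟨a, ha⟩ : ∃ a : ℕ, c.num = c.den + a := ⟨(c.num - c.den).toNat, by omega⟩
  set b := c.den with hb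
  have hb0 : 0 < b := c.den_pos
  have hab : a < b := by omega
  have hcr : (c : ℝ) = ((b + a : ℕ) : ℝ) / b := by
    have h3 : (c : ℚ) = ((b + a : ℕ) : ℚ) / b := by
      rw [eq_div_iff (by positivity), ← hnd, ha]
      push_cast
      rfl
    rw [h3]
    push_cast
    rfl
  have hbr : (0 : ℝ) < b := by exact_mod_cast hb0
  obtain ⟨T, hT1, hT2, hT3, hT4⟩ := exists_clock hb0 hab
  have hroot : ∀ x : ℝ, 0 ≤ x → (x ^ (b + a)) = (x ^ (c : ℝ)) ^ b := by
    intro x hx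
    rw [← Real.rpow_natCast (x ^ (c : ℝ)) b, ← Real.rpow_mul hx, hcr,
      div_mul_cancel₀ _ hbr.ne', Real.rpow_natCast]
  have hK0 : (0 : ℝ) < 25 * 2 ^ a + T 0 := by positivity
  have hup : ∀ n : ℕ, 0 < n → (T n : ℝ) ≤ 25 * 2 ^ a * (n : ℝ) ^ (c : ℝ) := by
    intro n hn
    have h3 : (T n : ℝ) ^ b ≤ (25 * 2 ^ a) ^ b * (n : ℝ) ^ (b + a) := by
      exact_mod_cast hT4 n hn
    rw [hroot n (Nat.cast_nonneg _), ← mul_pow] at h3
    exact le_of_pow_le_pow_left₀ hb0.ne' (by positivity) h3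
  refine ⟨T, clk a hb0, 25 * 2 ^ a + T 0, hT1, hT2, hK0, ?_, ?_, ?_⟩
  · intro n
    rcases Nat.eq_zero_or_pos n with hn | hn
    · subst hn
      have : ((0 : ℕ) : ℝ) + 1 = 1 := by norm_num
      rw [this, Real.one_rpow, mul_one]
      have : (0 : ℝ) ≤ 25 * 2 ^ a := by positivity
      linarith
    · refine (hup n hn).trans ?_
      have h3 : (n : ℝ) ^ (c : ℝ) ≤ ((n : ℝ) + 1) ^ (c : ℝ) := by
        apply Real.rpow_le_rpow (Nat.cast_nonneg _) (by linarith)
        have : (0 : ℚ) ≤ c := by linarith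
        exact_mod_cast this
      have h4 : (25 * 2 ^ a : ℝ) ≤ 25 * 2 ^ a + T 0 := by
        have : (0 : ℝ) ≤ T 0 := Nat.cast_nonneg _
        linarith
      exact mul_le_mul h4 h3 (by positivity) hK0.le
  · intro n hn
    refine (hup n hn).trans (mul_le_mul_of_nonneg_right ?_ (by positivity))
    have : (0 : ℝ) ≤ T 0 := Nat.cast_nonneg _
    linarith
  · intro n
    have h3 : (n : ℝ) ^ (b + a) ≤ 2 ^ a * (T n : ℝ) ^ b := by exact_mod_cast hT3 n
    have h4 : (2 : ℝ) ^ a ≤ (2 ^ a) ^ b := by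
      apply le_self_pow₀ (one_le_pow₀ (by norm_num)) hb0.ne'
    rw [hroot n (Nat.cast_nonneg _)] at h3
    have h5 : ((n : ℝ) ^ (c : ℝ)) ^ b ≤ (2 ^ a * T n) ^ b := by
      rw [mul_pow]
      exact h3.trans (mul_le_mul_of_nonneg_right h4 (by positivity))
    have h6 := le_of_pow_le_pow_left₀ hb0.ne' (by positivity) h5
    refine h6.trans (mul_le_mul_of_nonneg_right ?_ (Nat.cast_nonneg _))
    have h7 : (0 : ℝ) ≤ T 0 := Nat.cast_nonneg _
    have h8 : (0 : ℝ) < 2 ^ a := by positivity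
    linarith

lemma eventually_le_rpow (K c : ℝ) (hc : c < 2) :
    ∀ᶠ n : ℕ in atTop, K * (n : ℝ) ^ c ≤ (n : ℝ) ^ (2 - (2 - c) / 2) := by
  have h1 : Tendsto (fun n : ℕ => (n : ℝ) ^ ((2 - c) / 2)) atTop atTop :=
    (tendsto_rpow_atTop (by linarith)).comp tendsto_natCast_atTop_atTop
  filter_upwards [h1.eventually_ge_atTop K, eventually_gt_atTop 0] with n hn hn0
  have hn0' : (0 : ℝ) < n := by exact_mod_cast hn0
  calc K * (n : ℝ) ^ c ≤ (n : ℝ) ^ ((2 - c) / 2) * (n : ℝ) ^ c :=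
        mul_le_mul_of_nonneg_right hn (by positivity)
    _ = (n : ℝ) ^ (2 - (2 - c) / 2) := by
        rw [← Real.rpow_add hn0']
        congr 1
        ring

end Pool.Agent.Poly
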