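import Pool.Agent.Lib_helper16.Time.Word

/-!
Words of the shape of a balanced binary tree with labels over arbitrary alphabets.
-/

set_option autoImplicit false

namespace Pool.Agent.Poly

open Pool.Agent.Time (len st)

variable {α β Λ : Type}

/-- The opening word of a label. -/
def opens (o : α → Λ) (l : List α) : List Λ := l.map o

/-- The closing word of a label. -/
def closes (c : β → Λ) (l : List β) : List Λ := l.reverse.map c

@[simp] lemma length_opens (o : α → Λ) (l : List α) : (opens o l).length = l.length := by
  simp [opens]

@[simp] lemma length_closes (c : β → Λ) (l : List β) : (closes c l).length = l.length := by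
  simp [closes]

/-- The word of height `h` whose opening labels are given by `f` and whose closing labels are
given by `g`; nodes of the binary tree are lists of Booleans. -/
def gtw (o : α → Λ) (c : β → Λ) : ℕ → (List Bool → List α) → (List Bool → List β) → List Λ
  | 0, f, g => opens o (f []) ++ closes c (g [])
  | h + 1, f, g => opens o (f []) ++ (gtw o c h (fun π => f (false :: π))
      (fun π => g (false :: π)) ++ (gtw o c h (fun π => f (true :: π))
        (fun π => g (true :: π)) ++ closes c (g [])))

lemma length_gtw (o : α → Λ) (c : β → Λ) {r : ℕ} (h : ℕ) : ∀ (f : List Bool → List α)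
    (g : List Bool → List β), (∀ π, (f π).length = r) →
    (∀ π, (g π).length = r) → (gtw o c h f g).length = len r h := by
  induction h with
  | zero =>
    intro f g hf hg
    simp only [gtw, List.length_append, length_opens, length_closes, hf, hg, len]
    ring
  | succ h ih =>
    intro f g hf hg
    simp only [gtw, List.length_append, length_opens, length_closes, hf, hg, len]
    rw [ih _ _ (fun π => hf _) (fun π => hg _), ih _ _ (fun π => hf _) (fun π => hg _)]
    ring

/-! ### Differences -/

/-- The positions at which two words differ satisfy `P`. -/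
def Diff (u u' : List Λ) (P : ℕ → Prop) : Prop := ∀ q, u[q]? ≠ u'[q]? → P q

lemma Diff.refl (u : List Λ) (P : ℕ → Prop) : Diff u u P := fun _ h => absurd rfl h

lemma Diff.mono {u u' : List Λ} {P Q : ℕ → Prop} (h : Diff u u' P) (hPQ : ∀ q, P q → Q q) :
    Diff u u' Q := fun q hq => hPQ q (h q hq)

lemma Diff.append {u u' v v' : List Λ} {P Q : ℕ → Prop} (h : u.length = u'.length)
    (hu : Diff u u' P) (hv : Diff v v' Q) :
    Diff (u ++ v) (u' ++ v') (fun q => P q ∨ ∃ q', q = u.length + q' ∧ Q q') := by
  intro q hq
  rw [List.getElem?_append, List.getElem?_append, ← h] at hq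
  split_ifs at hq with h1
  · exact Or.inl (hu q hq)
  · exact Or.inr ⟨q - u.length, by omega, hv _ hq⟩

lemma diff_opens (o : α → Λ) {l l' : List α} {r : ℕ} (h : l.length = r) (h' : l'.length = r) :
    Diff (opens o l) (opens o l') (fun q => ∃ i < r, l[i]? ≠ l'[i]? ∧ q = i) := by
  intro q hq
  simp only [opens, List.getElem?_map] at hq
  have h1 : l[q]? ≠ l'[q]? := fun h => hq (by rw [h])
  refine ⟨q, ?_, h1, rfl⟩
  by_contra h2
  apply h1
  rw [List.getElem?_eq_none (by omega), List.getElem?_eq_none (by omega)]

lemma diff_closes (c : β → Λ) {l l' : List β} {r : ℕ} (h : l.length = r) (h' : l'.length = r) :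
    Diff (closes c l) (closes c l') (fun q => ∃ i < r, l[i]? ≠ l'[i]? ∧ q + 1 + i = r) := by
  intro q hq
  simp only [closes, List.getElem?_map] at hq
  have h1 : l.reverse[q]? ≠ l'.reverse[q]? := fun h => hq (by rw [h])
  have h2 : q < r := by
    by_contra h2
    apply h1
    rw [List.getElem?_eq_none (by rw [List.length_reverse]; omega),
      List.getElem?_eq_none (by rw [List.length_reverse]; omega)]
  rw [List.getElem?_reverse (by omega), List.getElem?_reverse (by omega), h, h'] at h1
  exact ⟨r - 1 - q, by omega, h1, by omega⟩

lemma diff_tw_close (o : α → Λ) (c : β → Λ) {r : ℕ} (h : ℕ) : ∀ (f : List Bool → List α) (g g' : List Bool → List β) (π0 : List Bool),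
    (∀ π, (f π).length = r) → (∀ π, (g π).length = r) → (∀ π, (g' π).length = r) →
    (∀ π, π ≠ π0 → g π = g' π) → π0.length ≤ h →
    Diff (gtw o c h f g) (gtw o c h f g') (fun q => ∃ i < r, (g π0)[i]? ≠ (g' π0)[i]? ∧
      q + 1 + i = st r h π0 + len r (h - π0.length)) := by
  induction h with
  | zero =>
    intro f g g' π0 hf hg hg' hne hπ
    have h1 : π0 = [] := List.length_eq_zero_iff.1 (Nat.le_zero.1 hπ)
    subst h1
    refine ((Diff.refl (opens o (f [])) (fun _ => False)).append rfl
      (diff_closes c (hg []) (hg' []))).mono ?_
    rintro q (h | ⟨q', rfl, i, hi, h2, h3⟩)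
    · exact h.elim
    · refine ⟨i, hi, h2, ?_⟩
      rw [length_opens, hf]
      show r + q' + 1 + i = 0 + 2 * r
      omega
  | succ h ih =>
    intro f g g' π0 hf hg hg' hne hπ
    cases π0 with
    | nil =>
      have e1 : (fun π => g (false :: π)) = fun π => g' (false :: π) :=
        funext fun π => hne _ (by simp)
      have e2 : (fun π => g (true :: π)) = fun π => g' (true :: π) :=
        funext fun π => hne _ (by simp)
      show Diff (opens o (f []) ++ (_ ++ (_ ++ closes c (g [])))) (opens o (f []) ++
        (_ ++ (_ ++ closes c (g' [])))) _
      rw [e1, e2]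
      refine ((Diff.refl (opens o (f [])) (fun _ => False)).append rfl
        ((Diff.refl _ (fun _ => False)).append rfl
          ((Diff.refl _ (fun _ => False)).append rfl
            (diff_closes c (hg []) (hg' []))))).mono ?_
      rintro q (h | ⟨q', rfl, h | ⟨q', rfl, h | ⟨q', rfl, i, hi, h2, h3⟩⟩⟩)
      · exact h.elim
      · exact h.elim
      · exact h.elim
      · refine ⟨i, hi, h2, ?_⟩
        rw [length_opens, hf, length_gtw o c h _ _ (fun π => hf _) (fun π => hg' _),
          length_gtw o c h _ _ (fun π => hf _) (fun π => hg' _)]
        show r + (len r h + (len r h + q')) + 1 + i = 0 + (2 * r + 2 * len r h)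
        omega
    | cons b π0 =>
      have hnil : g [] = g' [] := hne [] (by simp)
      have e : h + 1 - (b :: π0).length = h - π0.length := by
        rw [List.length_cons]; omega
      have hπ' : π0.length ≤ h := by simpa using hπ
      cases b with
      | false =>
        have e2 : (fun π => g (true :: π)) = fun π => g' (true :: π) :=
          funext fun π => hne _ (by simp)
        have h1 := ih (fun π => f (false :: π)) (fun π => g (false :: π))
          (fun π => g' (false :: π)) π0 (fun π => hf _) (fun π => hg _) (fun π => hg' _)
          (fun π hp => hne _ (by simpa using hp)) hπ'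
        show Diff (opens o (f []) ++ (_ ++ (_ ++ closes c (g [])))) (opens o (f []) ++
          (_ ++ (_ ++ closes c (g' [])))) _
        rw [e2, hnil]
        refine ((Diff.refl (opens o (f [])) (fun _ => False)).append rfl
          (h1.append (by
            rw [length_gtw o c h _ _ (fun π => hf _) (fun π => hg _),
              length_gtw o c h _ _ (fun π => hf _) (fun π => hg' _)])
            (Diff.refl _ (fun _ => False)))).mono ?_
        rintro q (h | ⟨q', rfl, ⟨i, hi, h2, h3⟩ | ⟨q', rfl, h⟩⟩)
        · exact h.elim
        · refine ⟨i, hi, h2, ?_⟩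
          rw [length_opens, hf, e]
          show r + q' + 1 + i = r + 0 + st r h π0 + len r (h - π0.length)
          omega
        · exact h.elim
      | true =>
        have e1 : (fun π => g (false :: π)) = fun π => g' (false :: π) :=
          funext fun π => hne _ (by simp)
        have h1 := ih (fun π => f (true :: π)) (fun π => g (true :: π))
          (fun π => g' (true :: π)) π0 (fun π => hf _) (fun π => hg _) (fun π => hg' _)
          (fun π hp => hne _ (by simpa using hp)) hπ'
        show Diff (opens o (f []) ++ (_ ++ (_ ++ closes c (g [])))) (opens o (f []) ++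
          (_ ++ (_ ++ closes c (g' [])))) _
        rw [e1, hnil]
        refine ((Diff.refl (opens o (f [])) (fun _ => False)).append rfl
          ((Diff.refl _ (fun _ => False)).append rfl
            (h1.append (by
              rw [length_gtw o c h _ _ (fun π => hf _) (fun π => hg _),
                length_gtw o c h _ _ (fun π => hf _) (fun π => hg' _)])
              (Diff.refl _ (fun _ => False))))).mono ?_
        rintro q (h | ⟨q', rfl, h | ⟨q', rfl, ⟨i, hi, h2, h3⟩ | ⟨q', rfl, h⟩⟩⟩)
        · exact h.elim
        · exact h.elim
        · refine ⟨i, hi, h2, ?_⟩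
          rw [length_opens, hf, length_gtw o c h _ _ (fun π => hf _) (fun π => hg' _), e]
          show r + (len r h + q') + 1 + i = r + len r h + st r h π0 + len r (h - π0.length)
          omega
        · exact h.elim

lemma diff_tw_open (o : α → Λ) (c : β → Λ) {r : ℕ} (h : ℕ) : ∀ (f f' : List Bool → List α) (g : List Bool → List β) (π0 : List Bool),
    (∀ π, (f π).length = r) → (∀ π, (f' π).length = r) → (∀ π, (g π).length = r) →
    (∀ π, π ≠ π0 → f π = f' π) → π0.length ≤ h →
    Diff (gtw o c h f g) (gtw o c h f' g) (fun q => ∃ i < r, (f π0)[i]? ≠ (f' π0)[i]? ∧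
      q = st r h π0 + i) := by
  induction h with
  | zero =>
    intro f f' g π0 hf hf' hg hne hπ
    have h1 : π0 = [] := List.length_eq_zero_iff.1 (Nat.le_zero.1 hπ)
    subst h1
    refine ((diff_opens o (hf []) (hf' [])).append (by rw [length_opens, length_opens, hf, hf'])
      (Diff.refl (closes c (g [])) (fun _ => False))).mono ?_
    rintro q (⟨i, hi, h2, rfl⟩ | ⟨q', rfl, h⟩)
    · refine ⟨q, hi, h2, ?_⟩
      show q = 0 + q
      omega
    · exact h.elim
  | succ h ih =>
    intro f f' g π0 hf hf' hg hne hπ
    cases π0 with
    | nil =>
      have e1 : (fun π => f (false :: π)) = fun π => f' (false :: π) :=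
        funext fun π => hne _ (by simp)
      have e2 : (fun π => f (true :: π)) = fun π => f' (true :: π) :=
        funext fun π => hne _ (by simp)
      show Diff (opens o (f []) ++ (_ ++ (_ ++ closes c (g [])))) (opens o (f' []) ++
        (_ ++ (_ ++ closes c (g [])))) _
      rw [e1, e2]
      refine ((diff_opens o (hf []) (hf' [])).append
        (by rw [length_opens, length_opens, hf, hf']) (Diff.refl _ (fun _ => False))).mono ?_
      rintro q (⟨i, hi, h2, rfl⟩ | ⟨q', rfl, h⟩)
      · refine ⟨q, hi, h2, ?_⟩
        show q = 0 + q
        omega
      · exact h.elim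
    | cons b π0 =>
      have hnil : f [] = f' [] := hne [] (by simp)
      have hπ' : π0.length ≤ h := by simpa using hπ
      cases b with
      | false =>
        have e2 : (fun π => f (true :: π)) = fun π => f' (true :: π) :=
          funext fun π => hne _ (by simp)
        have h1 := ih (fun π => f (false :: π)) (fun π => f' (false :: π))
          (fun π => g (false :: π)) π0 (fun π => hf _) (fun π => hf' _) (fun π => hg _)
          (fun π hp => hne _ (by simpa using hp)) hπ'
        show Diff (opens o (f []) ++ (_ ++ (_ ++ closes c (g [])))) (opens o (f' []) ++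
          (_ ++ (_ ++ closes c (g [])))) _
        rw [e2, hnil]
        refine ((Diff.refl (opens o (f' [])) (fun _ => False)).append rfl
          (h1.append (by
            rw [length_gtw o c h _ _ (fun π => hf _) (fun π => hg _),
              length_gtw o c h _ _ (fun π => hf' _) (fun π => hg _)])
            (Diff.refl _ (fun _ => False)))).mono ?_
        rintro q (h | ⟨q', rfl, ⟨i, hi, h2, rfl⟩ | ⟨q', rfl, h⟩⟩)
        · exact h.elim
        · refine ⟨i, hi, h2, ?_⟩
          rw [length_opens, hf']
          show r + (st r h π0 + i) = r + 0 + st r h π0 + i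
          omega
        · exact h.elim
      | true =>
        have e1 : (fun π => f (false :: π)) = fun π => f' (false :: π) :=
          funext fun π => hne _ (by simp)
        have h1 := ih (fun π => f (true :: π)) (fun π => f' (true :: π))
          (fun π => g (true :: π)) π0 (fun π => hf _) (fun π => hf' _) (fun π => hg _)
          (fun π hp => hne _ (by simpa using hp)) hπ'
        show Diff (opens o (f []) ++ (_ ++ (_ ++ closes c (g [])))) (opens o (f' []) ++
          (_ ++ (_ ++ closes c (g [])))) _
        rw [e1, hnil]
        refine ((Diff.refl (opens o (f' [])) (fun _ => False)).append rfl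
          ((Diff.refl _ (fun _ => False)).append rfl
            (h1.append (by
              rw [length_gtw o c h _ _ (fun π => hf _) (fun π => hg _),
                length_gtw o c h _ _ (fun π => hf' _) (fun π => hg _)])
              (Diff.refl _ (fun _ => False))))).mono ?_
        rintro q (h | ⟨q', rfl, h | ⟨q', rfl, ⟨i, hi, h2, rfl⟩ | ⟨q', rfl, h⟩⟩⟩)
        · exact h.elim
        · exact h.elim
        · refine ⟨i, hi, h2, ?_⟩
          rw [length_opens, hf', length_gtw o c h _ _ (fun π => hf' _) (fun π => hg _)]
          show r + (len r h + (st r h π0 + i)) = r + len r h + st r h π0 + i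
          omega
        · exact h.elim

end Pool.Agent.Poly
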