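import Pool.Agent.Lib_helper16.Heads.Defs
import Pool.Agent.Lib_helper16.Poly.GWord

/-!
The pushdown automaton: definition and elementary runs.
-/

set_option autoImplicit false

namespace Pool.Agent.Poly

open Pool.Agent.Heads
open Pool.Agent.Time (len st)

/-- The input letters. -/
inductive Lt (P : ℕ) where
  | hash : Lt P
  | gap : Lt P
  | fin : Lt P
  | op : Bool × (Fin P → Bool) → Lt P
  | cl : Bool → Lt P

variable {P : ℕ}

/-- The scanned symbol is `hash`. -/
def isHash : Sym (Lt P) → Bool
  | Sym.letter Lt.hash => true
  | _ => false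

/-- The scanned symbol is `gap`. -/
def isGap : Sym (Lt P) → Bool
  | Sym.letter Lt.gap => true
  | _ => false

/-- The scanned symbol is an opening letter. -/
def isOp : Sym (Lt P) → Bool
  | Sym.letter (Lt.op _) => true
  | _ => false

/-- The scanned symbol is a closing letter. -/
def isCl : Sym (Lt P) → Bool
  | Sym.letter (Lt.cl _) => true
  | _ => false

/-- The scanned symbol ends a block. -/
def isEnd : Sym (Lt P) → Bool
  | Sym.letter Lt.hash => true
  | Sym.letter Lt.fin => true
  | Sym.right => true
  | _ => false

/-- The scanned symbol is the left endmarker. -/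
def isLeft : Sym (Lt P) → Bool
  | Sym.left => true
  | _ => false

/-- The flag of an opening letter. -/
def flagOf : Sym (Lt P) → Bool
  | Sym.letter (Lt.op b) => b.1
  | _ => false

/-- The `i`-th bit of an opening letter. -/
def bitOf (i : Fin P) : Sym (Lt P) → Bool
  | Sym.letter (Lt.op b) => b.2 i
  | _ => false

/-- The bit of a closing letter. -/
def clOf : Sym (Lt P) → Bool
  | Sym.letter (Lt.cl b) => b
  | _ => false

/-- The states. -/
inductive Qt (P : ℕ) where
  | start : Qt P
  | go : Qt P
  | sess : Bool → Qt P
  | back : Fin (P + 1) → Qt P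
  | acc : Qt P
  deriving DecidableEq

instance : Finite (Qt P) := by
  let e : Qt P → Option (Option (Option (Bool ⊕ Fin (P + 1)))) := fun q => match q with
    | .start => none
    | .go => some none
    | .acc => some (some none)
    | .sess b => some (some (some (Sum.inl b)))
    | .back i => some (some (some (Sum.inr i)))
  refine Finite.of_injective e ?_
  intro q q' h
  cases q <;> cases q' <;> simp_all [e]

/-- The first head on a hash. -/
def firstHash (s : Fin (P + 1) → Sym (Lt P)) : Option (Fin (P + 1)) :=
  Fin.find? (fun i => isHash (s i))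

/-- The transitions. -/
def dst : Qt P → (Fin (P + 1) → Sym (Lt P)) → Option (Bool × Bool) →
    Option (Qt P × (Fin (P + 1) → Dir) × Op (Bool × Bool))
  | .start, _, _ => some (.go, fun _ => Dir.R, Op.none)
  | .go, s, _ => if ∀ i, isHash (s i) = true then some (.sess false, fun _ => Dir.R, Op.none)
      else none
  | .sess b, s, g =>
      if ∀ i, isOp (s i) = true then
        some (.sess b, fun _ => Dir.R, Op.push (flagOf (s (Fin.last P)),
          decide (∀ i : Fin P, bitOf i (s i.castSucc) = true)))
      else if ∀ i, isCl (s i) = true then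
        match g with
        | none => none
        | some (f, u) =>
          let b' := xor b (u && clOf (s (Fin.last P)))
          if f = true then (if b' = true then none else some (.sess false, fun _ => Dir.R, Op.pop))
          else some (.sess b', fun _ => Dir.R, Op.pop)
      else if ∀ i, isGap (s i) = true then some (.sess b, fun _ => Dir.R, Op.none)
      else if ∀ i, isEnd (s i) = true then
        match firstHash s with
        | none => some (.acc, fun _ => Dir.S, Op.none)
        | some i => some (.back i, fun j => if j = i then Dir.S else Dir.L, Op.none)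
      else none
  | .back i, s, _ =>
      if (∀ j, j < i → isLeft (s j) = true) ∧ (∀ j, i < j → isHash (s j) = true) then
        some (.go, fun j => if j < i then Dir.R else Dir.S, Op.none)
      else some (.back i, fun j => if j < i then (if isLeft (s j) = true then Dir.S else Dir.L)
        else if i < j then (if isHash (s j) = true then Dir.S else Dir.L) else Dir.S, Op.none)
  | .acc, _, _ => none

/-- Configurations. -/
abbrev Cg (P : ℕ) : Type := Cfg (Qt P) (Fin (P + 1) → ℕ) (Bool × Bool)

/-- One step. -/
def stp (w : List (Lt P)) (c : Cg P) : Option (Cg P) :=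
  (dst c.state (fun i => tape w (c.pos i)) c.stack.head?).map fun t =>
    ⟨t.1, fun i => move (w.length + 1) (c.pos i) (t.2.1 i), t.2.2.apply c.stack⟩

/-- Runs. -/
def Rn (w : List (Lt P)) : ℕ → Cg P → Cg P → Prop
  | 0, c, c' => c = c'
  | t + 1, c, c' => ∃ c1, stp w c = some c1 ∧ Rn w t c1 c'

lemma Rn.trans {w : List (Lt P)} {t : ℕ} : ∀ {s : ℕ} {c c1 c2 : Cg P}, Rn w t c c1 →
    Rn w s c1 c2 → Rn w (t + s) c c2 := by
  induction t with
  | zero =>
    intro s c c1 c2 h1 h2
    have h : c = c1 := h1
    rw [h, zero_add]
    exact h2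
  | succ t ih =>
    intro s c c1 c2 h1 h2
    obtain ⟨c3, h3, h4⟩ := h1
    have e : t + 1 + s = (t + s) + 1 := by omega
    rw [e]
    exact ⟨c3, h3, ih h4 h2⟩

lemma Rn.one {w : List (Lt P)} {c c' : Cg P} (h : stp w c = some c') : Rn w 1 c c' :=
  ⟨c', h, rfl⟩

/-- Some run reaches the accepting state. -/
def AccF (w : List (Lt P)) (c : Cg P) : Prop := ∃ t c', Rn w t c c' ∧ c'.state = .acc

lemma stp_acc {w : List (Lt P)} {c : Cg P} (h : c.state = .acc) : stp w c = none := by
  unfold stp
  rw [h]
  rfl

lemma accF_step {w : List (Lt P)} {c c' : Cg P} (h : stp w c = some c') :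
    AccF w c ↔ AccF w c' := by
  constructor
  · rintro ⟨t, c1, h1, h2⟩
    cases t with
    | zero =>
      have h3 : c = c1 := h1
      rw [h3, stp_acc h2] at h
      exact absurd h (by simp)
    | succ t =>
      obtain ⟨c2, h3, h4⟩ := h1
      rw [h] at h3
      rw [← Option.some.inj h3] at h4
      exact ⟨t, c1, h4, h2⟩
  · rintro ⟨t, c1, h1, h2⟩
    exact ⟨t + 1, c1, ⟨c', h, h1⟩, h2⟩

lemma accF_rn {w : List (Lt P)} {t : ℕ} : ∀ {c c' : Cg P}, Rn w t c c' →
    (AccF w c ↔ AccF w c') := by
  induction t with
  | zero =>
    intro c c' h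
    have h' : c = c' := h
    rw [h']
  | succ t ih =>
    intro c c' h
    obtain ⟨c1, h1, h2⟩ := h
    exact (accF_step h1).trans (ih h2)

lemma not_accF {w : List (Lt P)} {c : Cg P} (h : stp w c = none) (h2 : c.state ≠ .acc) :
    ¬ AccF w c := by
  rintro ⟨t, c1, h1, h3⟩
  cases t with
  | zero =>
    have h4 : c = c1 := h1
    rw [h4] at h2
    exact h2 h3
  | succ t =>
    obtain ⟨c2, h4, -⟩ := h1
    rw [h] at h4
    exact absurd h4 (by simp)

/-! ### Occurrences -/

/-- The word `u` occurs in `w` at the offset `x`. -/
def At {Λ : Type} (w : List Λ) (x : ℕ) (u : List Λ) : Prop := ∀ q < u.length, w[x + q]? = u[q]?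

lemma At.left {Λ : Type} {w : List Λ} {x : ℕ} {u v : List Λ} (h : At w x (u ++ v)) : At w x u := by
  intro q hq
  rw [h q (by rw [List.length_append]; omega), List.getElem?_append_left hq]

lemma At.right {Λ : Type} {w : List Λ} {x : ℕ} {u v : List Λ} (h : At w x (u ++ v)) :
    At w (x + u.length) v := by
  intro q hq
  have := h (u.length + q) (by rw [List.length_append]; omega)
  rw [List.getElem?_append_right (by omega)] at this
  rw [add_assoc, this]
  congr 1
  omega

lemma At.head {Λ : Type} {w : List Λ} {x : ℕ} {a : Λ} {u : List Λ} (h : At w x (a :: u)) :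
    w[x]? = some a := by
  have := h 0 (by simp)
  simpa using this

lemma At.tail {Λ : Type} {w : List Λ} {x : ℕ} {a : Λ} {u : List Λ} (h : At w x (a :: u)) :
    At w (x + 1) u := by
  intro q hq
  have := h (q + 1) (by simpa using hq)
  rw [show x + 1 + q = x + (q + 1) by ring, this]
  simp

lemma At.self {Λ : Type} (u v z : List Λ) : At (u ++ (v ++ z)) u.length v := by
  intro q hq
  rw [List.getElem?_append_right (by omega), List.getElem?_append_left (by omega)]
  congr 1
  omega

lemma At.lt {Λ : Type} {w : List Λ} {x : ℕ} {a : Λ} (h : w[x]? = some a) : x < w.length := by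
  by_contra hx
  rw [List.getElem?_eq_none (by omega)] at h
  exact absurd h (by simp)

lemma tape_at {Λ : Type} {w : List Λ} {x : ℕ} {a : Λ} (h : w[x]? = some a) :
    tape w (x + 1) = Sym.letter a := by
  simp only [tape, h]

lemma move_R {N x : ℕ} (h : x + 1 ≤ N) : move N x Dir.R = x + 1 := by
  simp only [move]; omega

end Pool.Agent.Poly
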