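import Pool.Agent.Lib_helper16.Heads.LTS
import Pool.Agent.Lib_helper16.Poly.Back

/-!
The pushdown automaton with a clock.
-/

set_option autoImplicit false

namespace Pool.Agent.Poly

open Pool.Agent.Heads

/-- `T` is the running time of a deterministic multihead finite automaton on unary words: the
computation on the word of length `n` has exactly `T n` steps. -/
def Clocks {k : ℕ} (C : FA Unit k) (T : ℕ → ℕ) : Prop :=
  C.Det ∧ ∀ n, (∃ c, ReachN (C.Step (List.replicate n ())) (C.start, fun _ => 0) (T n) c) ∧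
    ∀ t c, ReachN (C.Step (List.replicate n ())) (C.start, fun _ => 0) t c → t ≤ T n

/-- Forget the letters. -/
def forget {α : Type} : Sym α → Sym Unit
  | Sym.left => Sym.left
  | Sym.letter _ => Sym.letter ()
  | Sym.right => Sym.right

lemma forget_tape {α : Type} (w : List α) (p : ℕ) :
    forget (tape w p) = tape (List.replicate w.length ()) p := by
  cases p with
  | zero => rfl
  | succ p =>
    rcases Nat.lt_or_ge p w.length with h | h
    · have h1 : w[p]? = some w[p] := List.getElem?_eq_getElem h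
      have h2 : (List.replicate w.length ())[p]? = some () := by
        rw [List.getElem?_replicate, if_pos h]
      simp only [tape, h1, h2, forget]
    · have h1 : w[p]? = none := List.getElem?_eq_none h
      have h2 : (List.replicate w.length ())[p]? = none :=
        List.getElem?_eq_none (by simpa using h)
      simp only [tape, h1, h2, forget]

variable {P k : ℕ}

/-- The pushdown automaton with a clock. -/
def prd (P : ℕ) (C : FA Unit k) : PDA (Lt P) (P + 1 + k) where
  Q := Qt P × C.Q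
  Γ := Bool × Bool
  finQ := by have := C.finQ; infer_instance
  finΓ := inferInstance
  start := (.start, C.start)
  accept := {q | q.1 = .acc}
  δ := fun q x g => {t | ∃ u v, dst q.1 (fun i => x (Fin.castAdd k i)) g = some u ∧
    v ∈ C.δ q.2 (fun i => forget (x (Fin.natAdd (P + 1) i))) ∧
    t = ((u.1, v.1), Fin.append u.2.1 v.2, u.2.2)}

lemma prd_det {C : FA Unit k} (hC : C.Det) : (prd P C).Det := by
  rintro q x g a ⟨u, v, h1, h2, rfl⟩ b ⟨u', v', h3, h4, rfl⟩
  rw [h1] at h3
  obtain rfl := Option.some.inj h3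
  rw [hC _ _ h2 h4]

lemma rn_snoc {w : List (Lt P)} {t : ℕ} : ∀ {c c' : Cg P},
    Rn w (t + 1) c c' ↔ ∃ c1, Rn w t c c1 ∧ stp w c1 = some c' := by
  induction t with
  | zero =>
    intro c c'
    constructor
    · rintro ⟨c1, h1, h2⟩
      have h : c1 = c' := h2
      rw [← h]
      exact ⟨c, rfl, h1⟩
    · rintro ⟨c1, h1, h2⟩
      have h : c = c1 := h1
      rw [h]
      exact ⟨c', h2, rfl⟩
  | succ t ih =>
    intro c c'
    constructor
    · rintro ⟨c1, h1, h2⟩
      obtain ⟨c2, h3, h4⟩ := ih.1 h2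
      exact ⟨c2, ⟨c1, h1, h3⟩, h4⟩
    · rintro ⟨c1, ⟨c2, h1, h2⟩, h3⟩
      exact ⟨c2, h1, ih.2 ⟨c1, h2, h3⟩⟩

lemma append_move (N : ℕ) (p1 : Fin (P + 1) → ℕ) (p2 : Fin k → ℕ) (d1 : Fin (P + 1) → Dir)
    (d2 : Fin k → Dir) :
    (fun i => move N (Fin.append p1 p2 i) (Fin.append d1 d2 i)) =
      Fin.append (fun i => move N (p1 i) (d1 i)) (fun i => move N (p2 i) (d2 i)) := by
  funext i
  refine Fin.addCases (fun i => ?_) (fun i => ?_) i
  · simp only [Fin.append_left]
  · simp only [Fin.append_right]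

/-- The configuration of the product. -/
def pc {C : FA Unit k} (c1 : Cg P) (c2 : C.Q × (Fin k → ℕ)) :
    Cfg (prd P C).Q (Fin (P + 1 + k) → ℕ) (prd P C).Γ :=
  ⟨(c1.state, c2.1), Fin.append c1.pos c2.2, c1.stack⟩

lemma prd_step {C : FA Unit k} (w : List (Lt P)) (c1 : Cg P) (c2 : C.Q × (Fin k → ℕ))
    (c' : Cfg (prd P C).Q (Fin (P + 1 + k) → ℕ) (prd P C).Γ) :
    (prd P C).Step w (pc c1 c2) c' ↔ ∃ c1' c2', stp w c1 = some c1' ∧
      C.Step (List.replicate w.length ()) c2 c2' ∧ c' = pc c1' c2' := by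
  have e1 : (fun i => tape w ((pc (C := C) c1 c2).pos (Fin.castAdd k i))) =
      fun i => tape w (c1.pos i) := by
    funext i
    simp only [pc, Fin.append_left]
  have e2 : (fun i => forget (tape w ((pc (C := C) c1 c2).pos (Fin.natAdd (P + 1) i)))) =
      fun i => tape (List.replicate w.length ()) (c2.2 i) := by
    funext i
    simp only [pc, Fin.append_right, forget_tape]
  constructor
  · rintro ⟨t, ⟨u, v, h1, h2, rfl⟩, rfl⟩
    have h1' : dst c1.state (fun i => tape w (c1.pos i)) c1.stack.head? = some u := by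
      rw [← e1]; exact h1
    have h2' : v ∈ C.δ c2.1 (fun i => tape (List.replicate w.length ()) (c2.2 i)) := by
      rw [← e2]; exact h2
    refine ⟨⟨u.1, fun i => move (w.length + 1) (c1.pos i) (u.2.1 i), u.2.2.apply c1.stack⟩,
      (v.1, fun i => move (w.length + 1) (c2.2 i) (v.2 i)), ?_, ⟨v, h2', ?_⟩, ?_⟩
    · unfold stp
      rw [h1']
      rfl
    · rw [List.length_replicate]
    · unfold pc
      simp only
      rw [append_move]
      rfl
  · rintro ⟨c1', c2', h1, ⟨v, h2, rfl⟩, rfl⟩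
    unfold stp at h1
    rw [Option.map_eq_some_iff] at h1
    obtain ⟨u, h3, rfl⟩ := h1
    refine ⟨((u.1, v.1), Fin.append u.2.1 v.2, u.2.2), ⟨u, v, ?_, ?_, rfl⟩, ?_⟩
    · rw [← e1] at h3; exact h3
    · rw [← e2] at h2; exact h2
    · unfold pc
      simp only
      rw [append_move, List.length_replicate]
      rfl

lemma prd_reach {C : FA Unit k} (w : List (Lt P)) (t : ℕ) :
    ∀ c, (prd P C).Reach w t c ↔ ∃ c1 c2, Rn w t (ini P) c1 ∧
      ReachN (C.Step (List.replicate w.length ())) (C.start, fun _ => 0) t c2 ∧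
      c = pc c1 c2 := by
  have e0 : (prd P C).init = pc (ini P) (C.start, fun _ => 0) := by
    unfold PDA.init pc ini
    simp only
    congr 1
    funext i
    refine Fin.addCases (fun i => ?_) (fun i => ?_) i
    · simp only [Fin.append_left]
    · simp only [Fin.append_right]
  induction t with
  | zero =>
    intro c
    constructor
    · intro h
      cases h
      exact ⟨ini P, _, rfl, ReachN.zero, e0⟩
    · rintro ⟨c1, c2, h1, h2, rfl⟩
      have h : ini P = c1 := h1
      rw [← h]
      cases h2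
      rw [← e0]
      exact PDA.Reach.zero
  | succ t ih =>
    intro c
    constructor
    · intro h
      cases h with
      | succ h1 h2 =>
        obtain ⟨c1, c2, h3, h4, rfl⟩ := (ih _).1 h1
        obtain ⟨c1', c2', h5, h6, rfl⟩ := (prd_step w c1 c2 c).1 h2
        exact ⟨c1', c2', rn_snoc.2 ⟨c1, h3, h5⟩, ReachN.succ h4 h6, rfl⟩
    · rintro ⟨c1', c2', h1, h2, rfl⟩
      obtain ⟨c1, h3, h5⟩ := rn_snoc.1 h1
      cases h2 with
      | succ h4 h6 =>
        exact PDA.Reach.succ ((ih _).2 ⟨c1, _, h3, h4, rfl⟩)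
          ((prd_step w c1 _ _).2 ⟨c1', c2', h5, h6, rfl⟩)

lemma reachN_prefix {B : Type} {R : B → B → Prop} {a : B} {t : ℕ} {c : B}
    (h : ReachN R a t c) : ∀ s ≤ t, ∃ c', ReachN R a s c' := by
  induction h with
  | zero =>
    intro s hs
    have : s = 0 := by omega
    subst this
    exact ⟨a, ReachN.zero⟩
  | @succ t b c h1 h2 ih =>
    intro s hs
    rcases Nat.lt_or_ge t s with h | h
    · have : s = t + 1 := by omega
      subst this
      exact ⟨c, ReachN.succ h1 h2⟩
    · exact ih s h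

/-- Every computation of the automaton with a clock is short. -/
lemma prd_time {C : FA Unit k} {T : ℕ → ℕ} (hC : Clocks C T) (w : List (Lt P)) (t : ℕ)
    (c : Cfg (prd P C).Q (Fin (P + 1 + k) → ℕ) (prd P C).Γ) (h : (prd P C).Reach w t c) :
    t ≤ T w.length := by
  obtain ⟨c1, c2, -, h2, -⟩ := (prd_reach w t c).1 h
  exact (hC.2 w.length).2 t c2 h2

/-- The language. -/
lemma prd_lang {C : FA Unit k} {T : ℕ → ℕ} (hC : Clocks C T) (w : List (Lt P)) :
    w ∈ (prd P C).lang ↔ ∃ t ≤ T w.length, ∃ c, Rn w t (ini P) c ∧ c.state = .acc := by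
  constructor
  · rintro ⟨t, c, h1, h2⟩
    have h3 := prd_time hC w t c h1
    obtain ⟨c1, c2, h4, h5, rfl⟩ := (prd_reach w t c).1 h1
    exact ⟨t, h3, c1, h4, h2⟩
  · rintro ⟨t, h1, c, h2, h3⟩
    obtain ⟨cT, h4⟩ := (hC.2 w.length).1
    obtain ⟨c2, h5⟩ := reachN_prefix h4 t h1
    exact ⟨t, pc c c2, (prd_reach w t _).2 ⟨c, c2, h2, h5, rfl⟩, h3⟩

end Pool.Agent.Poly
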