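import Pool.Agent.Lib_helper16.Poly.Mach0

/-!
The pushdown automaton: runs on trees and blocks.
-/

set_option autoImplicit false

namespace Pool.Agent.Poly

open Pool.Agent.Heads
open Pool.Agent.Time (len st)

variable {P : ℕ}

lemma Rn.cast {w : List (Lt P)} {t t' : ℕ} {c : Cg P} {q : Qt P} {p p' : Fin (P + 1) → ℕ}
    {σ : List (Bool × Bool)} (h : Rn w t c ⟨q, p, σ⟩) (ht : t' = t) (hp : ∀ i, p' i = p i) :
    Rn w t' c ⟨q, p', σ⟩ := by
  rw [ht, funext hp]
  exact h

/-! ### Steps -/

lemma tape_fun {w : List (Lt P)} {x : Fin (P + 1) → ℕ} {a : Fin (P + 1) → Lt P}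
    (h : ∀ i, w[x i]? = some (a i)) :
    (fun i => tape w (x i + 1)) = fun i => Sym.letter (a i) := funext fun i => tape_at (h i)

lemma move_fun {w : List (Lt P)} {x : Fin (P + 1) → ℕ} {a : Fin (P + 1) → Lt P}
    (h : ∀ i, w[x i]? = some (a i)) :
    (fun i => move (w.length + 1) (x i + 1) Dir.R) = fun i => x i + 1 + 1 := funext fun i =>
  move_R (by have := At.lt (h i); omega)

lemma step_op {w : List (Lt P)} {x : Fin (P + 1) → ℕ}
    {l : Fin (P + 1) → Bool × (Fin P → Bool)} (h : ∀ i, w[x i]? = some (Lt.op (l i)))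
    (b : Bool) (σ : List (Bool × Bool)) :
    stp w ⟨.sess b, fun i => x i + 1, σ⟩ = some ⟨.sess b, fun i => x i + 1 + 1,
      ((l (Fin.last P)).1, decide (∀ i : Fin P, (l i.castSucc).2 i = true)) :: σ⟩ := by
  unfold stp
  simp only [tape_fun h]
  have h1 : ∀ i, isOp (Sym.letter (Lt.op (l i))) = true := fun i => rfl
  simp only [dst, h1, implies_true, if_true, Option.map_some]
  rw [move_fun h]
  rfl

lemma step_cl {w : List (Lt P)} {x : Fin (P + 1) → ℕ}
    {g : Fin (P + 1) → Bool} (h : ∀ i, w[x i]? = some (Lt.cl (g i)))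
    (b u : Bool) (σ : List (Bool × Bool)) :
    stp w ⟨.sess b, fun i => x i + 1, (false, u) :: σ⟩ =
      some ⟨.sess (xor b (u && g (Fin.last P))), fun i => x i + 1 + 1, σ⟩ := by
  unfold stp
  simp only [tape_fun h]
  have h1 : ∀ i, isOp (P := P) (Sym.letter (Lt.cl (g i))) = false := fun i => rfl
  have h2 : ∀ i, isCl (P := P) (Sym.letter (Lt.cl (g i))) = true := fun i => rfl
  have h3 : ¬ ∀ i, isOp (P := P) (Sym.letter (Lt.cl (g i))) = true := by
    intro h
    have := h (Fin.last P)
    rw [h1] at this
    exact absurd this (by simp)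
  simp only [dst, if_neg h3, h2, implies_true, if_true, List.head?_cons]
  simp only [clOf, Bool.false_eq_true, if_false, Option.map_some]
  rw [move_fun h]
  rfl

lemma step_cl_true {w : List (Lt P)} {x : Fin (P + 1) → ℕ}
    {g : Fin (P + 1) → Bool} (h : ∀ i, w[x i]? = some (Lt.cl (g i)))
    (b u : Bool) (σ : List (Bool × Bool)) :
    stp w ⟨.sess b, fun i => x i + 1, (true, u) :: σ⟩ =
      if xor b (u && g (Fin.last P)) = true then none
      else some ⟨.sess false, fun i => x i + 1 + 1, σ⟩ := by
  unfold stp
  simp only [tape_fun h]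
  have h1 : ∀ i, isOp (P := P) (Sym.letter (Lt.cl (g i))) = false := fun i => rfl
  have h2 : ∀ i, isCl (P := P) (Sym.letter (Lt.cl (g i))) = true := fun i => rfl
  have h3 : ¬ ∀ i, isOp (P := P) (Sym.letter (Lt.cl (g i))) = true := by
    intro h
    have := h (Fin.last P)
    rw [h1] at this
    exact absurd this (by simp)
  simp only [dst, if_neg h3, h2, implies_true, if_true, List.head?_cons]
  simp only [clOf]
  split_ifs with h4
  · rfl
  · simp only [Option.map_some]
    rw [move_fun h]
    rfl

lemma step_gap {w : List (Lt P)} {x : Fin (P + 1) → ℕ} (h : ∀ i, w[x i]? = some Lt.gap)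
    (b : Bool) (σ : List (Bool × Bool)) :
    stp w ⟨.sess b, fun i => x i + 1, σ⟩ = some ⟨.sess b, fun i => x i + 1 + 1, σ⟩ := by
  unfold stp
  simp only [tape_fun h]
  have h3 : ¬ ∀ _i : Fin (P + 1), isOp (P := P) (Sym.letter Lt.gap) = true := by
    intro h
    exact absurd (h (Fin.last P)) (by simp [isOp])
  have h4 : ¬ ∀ _i : Fin (P + 1), isCl (P := P) (Sym.letter Lt.gap) = true := by
    intro h
    exact absurd (h (Fin.last P)) (by simp [isCl])
  have h5 : ∀ _i : Fin (P + 1), isGap (P := P) (Sym.letter Lt.gap) = true := fun i => rfl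
  simp only [dst, if_neg h3, if_neg h4, if_pos h5, Option.map_some]
  rw [move_fun h]
  rfl

lemma step_go {w : List (Lt P)} {x : Fin (P + 1) → ℕ} (h : ∀ i, w[x i]? = some Lt.hash)
    (σ : List (Bool × Bool)) :
    stp w ⟨.go, fun i => x i + 1, σ⟩ = some ⟨.sess false, fun i => x i + 1 + 1, σ⟩ := by
  unfold stp
  simp only [tape_fun h]
  have h5 : ∀ _i : Fin (P + 1), isHash (P := P) (Sym.letter Lt.hash) = true := fun i => rfl
  simp only [dst, if_pos h5, Option.map_some]
  rw [move_fun h]
  rfl

/-! ### Phases -/

/-- Parity of the first values. -/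
def par (φ : ℕ → Bool) : ℕ → Bool
  | 0 => false
  | n + 1 => xor (par φ n) (φ n)

lemma run_open {w : List (Lt P)} {x : Fin (P + 1) → ℕ} {r : ℕ}
    {l : Fin (P + 1) → ℕ → Bool × (Fin P → Bool)}
    (h : ∀ i, ∀ t < r, w[x i + t]? = some (Lt.op (l i t))) (b : Bool)
    (σ : List (Bool × Bool)) : ∀ s ≤ r,
    Rn w s ⟨.sess b, fun i => x i + 1, σ⟩ ⟨.sess b, fun i => x i + s + 1,
      ((List.range s).map fun t => ((l (Fin.last P) t).1,
        decide (∀ i : Fin P, (l i.castSucc t).2 i = true))).reverse ++ σ⟩ := by
  intro s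
  induction s with
  | zero => intro _; rfl
  | succ s ih =>
    intro hs
    refine (ih (by omega)).trans (Rn.one ?_)
    rw [step_op (x := fun i => x i + s) (fun i => h i s (by omega))]
    rw [List.range_succ, List.map_append, List.reverse_append]
    rfl

lemma run_close {w : List (Lt P)} {l : ℕ → Bool × Bool} {g : Fin (P + 1) → ℕ → Bool}
    (hl0 : (l 0).1 = true) (hl : ∀ t, 0 < t → (l t).1 = false) (σ : List (Bool × Bool))
    (s : ℕ) : ∀ (x : Fin (P + 1) → ℕ) (b : Bool),
    (∀ i, ∀ q ≤ s, w[x i + q]? = some (Lt.cl (g i (s - q)))) →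
    (xor b (par (fun t => (l t).2 && g (Fin.last P) t) (s + 1)) = false →
      Rn w (s + 1) ⟨.sess b, fun i => x i + 1, ((List.range (s + 1)).map l).reverse ++ σ⟩
        ⟨.sess false, fun i => x i + (s + 1) + 1, σ⟩) ∧
    (xor b (par (fun t => (l t).2 && g (Fin.last P) t) (s + 1)) = true →
      ¬ AccF w ⟨.sess b, fun i => x i + 1, ((List.range (s + 1)).map l).reverse ++ σ⟩) := by
  induction s with
  | zero =>
    intro x b h
    have h0 : ∀ i, w[x i]? = some (Lt.cl (g i 0)) := fun i => h i 0 le_rfl
    obtain ⟨f, u⟩ : ∃ f, l 0 = (true, f) := ⟨(l 0).2, by rw [← hl0]⟩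
    have h1 := step_cl_true h0 b f σ
    have h2 : ((List.range (0 + 1)).map l).reverse ++ σ = (true, f) :: σ := by
      simp [List.range_succ, u]
    rw [h2]
    simp only [par, u, Bool.false_xor]
    constructor
    · intro h3
      refine Rn.one ?_
      rw [h1, if_neg (by rw [h3]; simp)]
    · intro h3
      refine not_accF ?_ (by simp)
      rw [h1, if_pos h3]
  | succ s ih =>
    intro x b h
    have h0 : ∀ i, w[x i]? = some (Lt.cl (g i (s + 1))) := fun i => h i 0 (Nat.zero_le _)
    obtain ⟨f, u⟩ : ∃ f, l (s + 1) = (false, f) :=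
      ⟨(l (s + 1)).2, by rw [← hl (s + 1) (Nat.succ_pos s)]⟩
    have h1 := step_cl h0 b f (((List.range (s + 1)).map l).reverse ++ σ)
    have h2 : ((List.range (s + 1 + 1)).map l).reverse ++ σ =
        (false, f) :: (((List.range (s + 1)).map l).reverse ++ σ) := by
      rw [List.range_succ, List.map_append, List.reverse_append]
      simp [u]
    rw [h2]
    have h3 := ih (fun i => x i + 1) (xor b (f && g (Fin.last P) (s + 1))) (by
      intro i q hq
      have := h i (q + 1) (by omega)
      rw [show x i + 1 + q = x i + (q + 1) by ring, this]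
      congr 3
      omega)
    have h4 : xor (xor b (f && g (Fin.last P) (s + 1)))
        (par (fun t => (l t).2 && g (Fin.last P) t) (s + 1)) =
        xor b (par (fun t => (l t).2 && g (Fin.last P) t) (s + 1 + 1)) := by
      conv_rhs => rw [par]
      simp only [u]
      rw [Bool.xor_assoc, Bool.xor_comm (f && g (Fin.last P) (s + 1))]
    rw [h4] at h3
    constructor
    · intro h5
      have h6 := h3.1 h5
      have e : s + 1 + 1 = 1 + (s + 1) := by omega
      rw [e]
      refine (Rn.one h1).trans ?_
      convert h6 using 3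
      ring
    · intro h5
      rw [accF_step h1]
      exact h3.2 h5

/-! ### Trees -/

/-- The opening label of a node. -/
def ol (X : Fin (P + 1) → List Bool → ℕ → Bool) (r : ℕ) (π : List Bool) :
    List (Bool × (Fin P → Bool)) :=
  (List.range r).map fun t => (decide (t = 0), fun i : Fin P => X i.castSucc π t)

/-- The closing label of a node. -/
def cll (X : Fin (P + 1) → List Bool → ℕ → Bool) (r : ℕ) (π : List Bool) : List Bool :=
  (List.range r).map (X (Fin.last P) π)

@[simp] lemma length_ol (X : Fin (P + 1) → List Bool → ℕ → Bool) (r : ℕ) (π : List Bool) :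
    (ol X r π).length = r := by simp [ol]

@[simp] lemma length_cll (X : Fin (P + 1) → List Bool → ℕ → Bool) (r : ℕ) (π : List Bool) :
    (cll X r π).length = r := by simp [cll]

/-- The word of a tree. -/
def tree (X : Fin (P + 1) → List Bool → ℕ → Bool) (r h : ℕ) : List (Lt P) :=
  gtw Lt.op Lt.cl h (ol X r) (cll X r)

lemma length_tree (X : Fin (P + 1) → List Bool → ℕ → Bool) (r h : ℕ) :
    (tree X r h).length = len r h :=
  length_gtw _ _ h _ _ (length_ol X r) (length_cll X r)

/-- The data at a child. -/
def sub (X : Fin (P + 1) → List Bool → ℕ → Bool) (b : Bool) :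
    Fin (P + 1) → List Bool → ℕ → Bool := fun i π t => X i (b :: π) t

lemma tree_succ (X : Fin (P + 1) → List Bool → ℕ → Bool) (r h : ℕ) :
    tree X r (h + 1) = opens Lt.op (ol X r []) ++ (tree (sub X false) r h ++
      (tree (sub X true) r h ++ closes Lt.cl (cll X r []))) := rfl

/-- The parity at a node. -/
def pty (X : Fin (P + 1) → Fin (P + 1) → List Bool → ℕ → Bool) (r : ℕ) (π : List Bool) : Bool :=
  par (fun t => decide (∀ i, X i i π t = true)) r

lemma at_open {w : List (Lt P)} {x : ℕ} {X : Fin (P + 1) → List Bool → ℕ → Bool} {r : ℕ}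
    {π : List Bool} (h : At w x (opens Lt.op (ol X r π))) (t : ℕ) (ht : t < r) :
    w[x + t]? = some (Lt.op (decide (t = 0), fun i : Fin P => X i.castSucc π t)) := by
  rw [h t (by simpa using ht)]
  simp [opens, ol, ht]

lemma at_close {w : List (Lt P)} {x : ℕ} {X : Fin (P + 1) → List Bool → ℕ → Bool} {r : ℕ}
    {π : List Bool} (h : At w x (closes Lt.cl (cll X r π))) (q : ℕ) (hq : q < r) :
    w[x + q]? = some (Lt.cl (X (Fin.last P) π (r - 1 - q))) := by
  rw [h q (by simpa using hq)]
  have h1 : (cll X r π).reverse[q]? = some (X (Fin.last P) π (r - 1 - q)) := by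
    rw [List.getElem?_reverse (by simpa using hq), length_cll]
    simp only [cll, List.getElem?_map]
    rw [List.getElem?_range (by omega)]
    rfl
  simp only [closes, List.getElem?_map, h1, Option.map_some]

lemma and_all (X : Fin (P + 1) → Fin (P + 1) → List Bool → ℕ → Bool) (π : List Bool) (t : ℕ) :
    (decide (∀ i : Fin P, X i.castSucc i.castSucc π t = true) &&
      X (Fin.last P) (Fin.last P) π t) = decide (∀ i, X i i π t = true) := by
  rw [Bool.eq_iff_iff, Bool.and_eq_true, decide_eq_true_iff, decide_eq_true_iff,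
    Fin.forall_fin_succ']

/-- The label of one node, with a word in between which does not change the configuration. -/
lemma run_node {w : List (Lt P)} {r : ℕ} (hr : 0 < r)
    (X : Fin (P + 1) → Fin (P + 1) → List Bool → ℕ → Bool) (x y : Fin (P + 1) → ℕ)
    (σ : List (Bool × Bool)) (ho : ∀ i, At w (x i) (opens Lt.op (ol (X i) r [])))
    (hc : ∀ i, At w (y i) (closes Lt.cl (cll (X i) r []))) :
    ∃ σ', Rn w r ⟨.sess false, fun i => x i + 1, σ⟩ ⟨.sess false, fun i => x i + r + 1, σ'⟩ ∧
      (pty X r [] = false → Rn w r ⟨.sess false, fun i => y i + 1, σ'⟩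
        ⟨.sess false, fun i => y i + r + 1, σ⟩) ∧
      (pty X r [] = true → ¬ AccF w ⟨.sess false, fun i => y i + 1, σ'⟩) := by
  refine ⟨_, run_open (l := fun i t => (decide (t = 0), fun j : Fin P => X i j.castSucc [] t))
    (fun i t ht => at_open (ho i) t ht) false σ r le_rfl, ?_⟩
  obtain ⟨s, rfl⟩ : ∃ s, r = s + 1 := ⟨r - 1, by omega⟩
  have h1 := run_close (w := w) (l := fun t => (decide (t = 0),
    decide (∀ i : Fin P, X i.castSucc i.castSucc [] t = true)))
    (g := fun i t => X i (Fin.last P) [] t) (by simp) (by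
      intro t ht
      simp only [decide_eq_false_iff_not]
      omega) σ s y false (by
      intro i q hq
      rw [at_close (hc i) q (by omega)]
      rfl)
  have h2 : xor false (par (fun t => (decide (∀ i : Fin P, X i.castSucc i.castSucc [] t = true) &&
      X (Fin.last P) (Fin.last P) [] t)) (s + 1)) = pty X (s + 1) [] := by
    rw [Bool.false_xor]
    unfold pty
    congr 1
    funext t
    exact and_all X [] t
  simp only at h1
  rw [h2] at h1
  exact h1

/-- The run on a tree. -/
lemma run_tree {w : List (Lt P)} {r : ℕ} (hr : 0 < r) (h : ℕ) :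
    ∀ (X : Fin (P + 1) → Fin (P + 1) → List Bool → ℕ → Bool) (x : Fin (P + 1) → ℕ)
      (σ : List (Bool × Bool)), (∀ i, At w (x i) (tree (X i) r h)) →
    ((∀ π, π.length ≤ h → pty X r π = false) →
      Rn w (len r h) ⟨.sess false, fun i => x i + 1, σ⟩
        ⟨.sess false, fun i => x i + len r h + 1, σ⟩) ∧
    ((∃ π, π.length ≤ h ∧ pty X r π = true) →
      ¬ AccF w ⟨.sess false, fun i => x i + 1, σ⟩) := by
  induction h with
  | zero =>
    intro X x σ hx
    have ho : ∀ i, At w (x i) (opens Lt.op (ol (X i) r [])) := fun i => (hx i).left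
    have hc : ∀ i, At w (x i + r) (closes Lt.cl (cll (X i) r [])) := fun i => by
      have := (hx i).right
      rwa [length_opens, length_ol] at this
    obtain ⟨σ', h1, h2, h3⟩ := run_node hr X x (fun i => x i + r) σ ho hc
    constructor
    · intro h4
      have h5 := h1.trans (h2 (h4 [] le_rfl))
      show Rn w (2 * r) _ ⟨.sess false, fun i => x i + 2 * r + 1, σ⟩
      exact h5.cast (by ring) (fun i => by ring)
    · rintro ⟨π, hπ, h4⟩
      have : π = [] := List.length_eq_zero_iff.1 (Nat.le_zero.1 hπ)
      subst this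
      rw [accF_rn h1]
      exact h3 h4
  | succ h ih =>
    intro X x σ hx
    have hx' : ∀ i, At w (x i) (opens Lt.op (ol (X i) r []) ++ (tree (sub (X i) false) r h ++
      (tree (sub (X i) true) r h ++ closes Lt.cl (cll (X i) r [])))) := hx
    have ho : ∀ i, At w (x i) (opens Lt.op (ol (X i) r [])) := fun i => (hx' i).left
    have hx2 : ∀ i, At w (x i + r) (tree (sub (X i) false) r h ++
      (tree (sub (X i) true) r h ++ closes Lt.cl (cll (X i) r []))) := fun i => by
      have := (hx' i).right
      rwa [length_opens, length_ol] at this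
    have hx3 : ∀ i, At w (x i + r + len r h)
      (tree (sub (X i) true) r h ++ closes Lt.cl (cll (X i) r [])) := fun i => by
      have := (hx2 i).right
      rwa [length_tree] at this
    have hc : ∀ i, At w (x i + r + len r h + len r h) (closes Lt.cl (cll (X i) r [])) :=
      fun i => by
        have := (hx3 i).right
        rwa [length_tree] at this
    obtain ⟨σ', h1, h2, h3⟩ := run_node hr X x (fun i => x i + r + len r h + len r h) σ ho hc
    obtain ⟨h4, h5⟩ := ih (fun i => sub (X i) false) (fun i => x i + r) σ'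
      (fun i => (hx2 i).left)
    obtain ⟨h6, h7⟩ := ih (fun i => sub (X i) true) (fun i => x i + r + len r h) σ'
      (fun i => (hx3 i).left)
    constructor
    · intro h8
      have g1 := h4 (fun π hπ => h8 (false :: π) (by simpa using hπ))
      have g2 := h6 (fun π hπ => h8 (true :: π) (by simpa using hπ))
      have g3 := h2 (h8 [] (Nat.zero_le _))
      have g4 := ((h1.trans g1).trans g2).trans g3
      show Rn w (2 * r + 2 * len r h) _
        ⟨.sess false, fun i => x i + (2 * r + 2 * len r h) + 1, σ⟩
      exact g4.cast (by ring) (fun i => by ring)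
    · rintro ⟨π, hπ, h8⟩
      rw [accF_rn h1]
      by_cases hA : ∃ π, π.length ≤ h ∧ pty (fun i => sub (X i) false) r π = true
      · exact h5 hA
      · have g1 := h4 (by
          intro π hπ
          by_contra hcon
          exact hA ⟨π, hπ, by simpa using hcon⟩)
        rw [accF_rn g1]
        by_cases hB : ∃ π, π.length ≤ h ∧ pty (fun i => sub (X i) true) r π = true
        · exact h7 hB
        · have g2 := h6 (by
            intro π hπ
            by_contra hcon
            exact hB ⟨π, hπ, by simpa using hcon⟩)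
          rw [accF_rn g2]
          apply h3
          cases π with
          | nil => exact h8
          | cons b π =>
            exfalso
            cases b with
            | false => exact hA ⟨π, by simpa using hπ, h8⟩
            | true => exact hB ⟨π, by simpa using hπ, h8⟩

end Pool.Agent.Poly
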