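import Pool.Agent.Lib_helper16.Poly.Run

/-!
The pushdown automaton: words, sessions, and the way back.
-/

set_option autoImplicit false

namespace Pool.Agent.Poly

open Pool.Agent.Heads
open Pool.Agent.Time (len st)

variable {P : ℕ}

/-! ### Words -/

/-- The word of a block. -/
def blk (X : Fin (P + 1) → List Bool → ℕ → Bool) (r S : ℕ) : List (Lt P) :=
  Lt.hash :: (tree X r S ++ List.replicate (len r S) Lt.gap)

/-- The length of a block. -/
def BL (r S : ℕ) : ℕ := 1 + 2 * len r S

lemma length_blk (X : Fin (P + 1) → List Bool → ℕ → Bool) (r S : ℕ) :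
    (blk X r S).length = BL r S := by
  unfold blk BL
  rw [List.length_cons, List.length_append, length_tree, List.length_replicate]
  ring

/-- Concatenation. -/
def cat {Λ : Type} (f : ℕ → List Λ) : ℕ → List Λ
  | 0 => []
  | M + 1 => cat f M ++ f M

lemma length_cat {Λ : Type} {f : ℕ → List Λ} {B : ℕ} (hf : ∀ a, (f a).length = B) (M : ℕ) :
    (cat f M).length = M * B := by
  induction M with
  | zero => simp [cat]
  | succ M ih => rw [cat, List.length_append, ih, hf]; ring

lemma cat_at {Λ : Type} {f : ℕ → List Λ} {B : ℕ} (hf : ∀ a, (f a).length = B) (M : ℕ) :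
    ∀ z : List Λ, ∀ a < M, At (cat f M ++ z) (a * B) (f a) := by
  induction M with
  | zero => intro z a ha; exact absurd ha (Nat.not_lt_zero a)
  | succ M ih =>
    intro z a ha
    rw [cat, List.append_assoc]
    rcases Nat.lt_or_ge a M with h | h
    · exact ih (f M ++ z) a h
    · have : a = M := by omega
      subst this
      have h1 := At.self (cat f a) (f a) z
      rwa [length_cat hf] at h1

/-- The words. -/
def wd (X : ℕ → Fin (P + 1) → List Bool → ℕ → Bool) (r S M j : ℕ) : List (Lt P) :=
  cat (fun a => blk (X a) r S) M ++ List.replicate j Lt.fin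

lemma length_wd (X : ℕ → Fin (P + 1) → List Bool → ℕ → Bool) (r S M j : ℕ) :
    (wd X r S M j).length = M * BL r S + j := by
  unfold wd
  rw [List.length_append, length_cat (fun a => length_blk (X a) r S), List.length_replicate]

lemma wd_at (X : ℕ → Fin (P + 1) → List Bool → ℕ → Bool) (r S : ℕ) {M a : ℕ} (j : ℕ)
    (ha : a < M) : At (wd X r S M j) (a * BL r S) (blk (X a) r S) :=
  cat_at (fun a => length_blk (X a) r S) M _ a ha

lemma not_hash_opens {α : Type} (o : α → Lt P) (ho : ∀ a, o a ≠ Lt.hash) (l : List α) :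
    ∀ y ∈ opens o l, y ≠ Lt.hash := by
  intro y hy
  obtain ⟨a, -, rfl⟩ := List.mem_map.1 hy
  exact ho a

lemma not_hash_closes {α : Type} (o : α → Lt P) (ho : ∀ a, o a ≠ Lt.hash) (l : List α) :
    ∀ y ∈ closes o l, y ≠ Lt.hash := by
  intro y hy
  obtain ⟨a, -, rfl⟩ := List.mem_map.1 hy
  exact ho a

lemma not_hash_tree (r h : ℕ) : ∀ (X : Fin (P + 1) → List Bool → ℕ → Bool),
    ∀ y ∈ tree X r h, y ≠ Lt.hash := by
  have h1 : ∀ a : Bool × (Fin P → Bool), (Lt.op a : Lt P) ≠ Lt.hash := fun a => by simp
  have h2 : ∀ a : Bool, (Lt.cl a : Lt P) ≠ Lt.hash := fun a => by simp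
  induction h with
  | zero =>
    intro X y hy
    rcases List.mem_append.1 hy with h | h
    · exact not_hash_opens _ h1 _ y h
    · exact not_hash_closes _ h2 _ y h
  | succ h ih =>
    intro X y hy
    rw [tree_succ] at hy
    rcases List.mem_append.1 hy with h | h
    · exact not_hash_opens _ h1 _ y h
    rcases List.mem_append.1 h with h | h
    · exact ih _ y h
    rcases List.mem_append.1 h with h | h
    · exact ih _ y h
    · exact not_hash_closes _ h2 _ y h

lemma blk_not_hash (X : Fin (P + 1) → List Bool → ℕ → Bool) (r S q : ℕ) (hq : 0 < q) :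
    (blk X r S)[q]? ≠ some Lt.hash := by
  obtain ⟨q, rfl⟩ : ∃ q', q = q' + 1 := ⟨q - 1, by omega⟩
  unfold blk
  rw [List.getElem?_cons_succ]
  intro h
  rcases List.mem_append.1 (List.mem_of_getElem? h) with h | h
  · exact not_hash_tree r S X _ h rfl
  · exact absurd (List.eq_of_mem_replicate h) (by simp)

lemma wd_hash (X : ℕ → Fin (P + 1) → List Bool → ℕ → Bool) (r S : ℕ) {M a : ℕ} (j : ℕ)
    (ha : a < M) : (wd X r S M j)[a * BL r S]? = some Lt.hash :=
  (wd_at X r S j ha).head

lemma wd_not_hash (X : ℕ → Fin (P + 1) → List Bool → ℕ → Bool) (r S : ℕ) {M a : ℕ} (j : ℕ)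
    (ha : a < M) {q : ℕ} (hq : 0 < q) (hq2 : q < BL r S) :
    isHash (tape (wd X r S M j) (a * BL r S + q + 1)) = false := by
  have h1 := wd_at X r S j ha q (by rw [length_blk]; exact hq2)
  have h2 := blk_not_hash (X a) r S q hq
  cases h3 : (wd X r S M j)[a * BL r S + q]? with
  | none => simp only [tape, h3, isHash]
  | some y =>
    rw [tape_at h3]
    rw [h3] at h1
    rw [← h1] at h2
    cases y with
    | hash => exact absurd rfl h2
    | _ => rfl

lemma wd_end (X : ℕ → Fin (P + 1) → List Bool → ℕ → Bool) (r S M j : ℕ) :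
    isEnd (tape (wd X r S M j) (M * BL r S + 1)) = true ∧
      isHash (tape (wd X r S M j) (M * BL r S + 1)) = false ∧
      isOp (tape (wd X r S M j) (M * BL r S + 1)) = false ∧
      isCl (tape (wd X r S M j) (M * BL r S + 1)) = false ∧
      isGap (tape (wd X r S M j) (M * BL r S + 1)) = false := by
  have h1 := length_cat (fun a => length_blk (X a) r S) M
  cases j with
  | zero =>
    have h2 : (wd X r S M 0)[M * BL r S]? = none :=
      List.getElem?_eq_none (by rw [length_wd]; omega)
    simp only [tape, h2]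
    exact ⟨rfl, rfl, rfl, rfl, rfl⟩
  | succ j =>
    have h2 : (wd X r S M (j + 1))[M * BL r S]? = some Lt.fin := by
      unfold wd
      rw [List.getElem?_append_right (by omega), h1, Nat.sub_self]
      rfl
    rw [tape_at h2]
    exact ⟨rfl, rfl, rfl, rfl, rfl⟩

/-! ### Sessions -/

lemma run_gaps {w : List (Lt P)} {x : Fin (P + 1) → ℕ} {r : ℕ}
    (h : ∀ i, ∀ t < r, w[x i + t]? = some Lt.gap) (b : Bool) (σ : List (Bool × Bool)) :
    ∀ s ≤ r, Rn w s ⟨.sess b, fun i => x i + 1, σ⟩ ⟨.sess b, fun i => x i + s + 1, σ⟩ := by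
  intro s
  induction s with
  | zero => intro _; rfl
  | succ s ih =>
    intro hs
    refine (ih (by omega)).trans (Rn.one ?_)
    rw [step_gap (x := fun i => x i + s) (fun i => h i s (by omega))]
    rfl

section

variable (X : ℕ → Fin (P + 1) → List Bool → ℕ → Bool) (r S M j : ℕ)

/-- The parities are even for the blocks `a`. -/
def Even' (a : Fin (P + 1) → ℕ) : Prop :=
  ∀ π : List Bool, π.length ≤ S → pty (fun i => X (a i)) r π = false

lemma sess_run (hr : 0 < r) (a : Fin (P + 1) → ℕ) (ha : ∀ i, a i < M) :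
    (Even' X r S a → Rn (wd X r S M j) (BL r S) ⟨.go, fun i => a i * BL r S + 1, []⟩
      ⟨.sess false, fun i => (a i + 1) * BL r S + 1, []⟩) ∧
    (¬ Even' X r S a → ¬ AccF (wd X r S M j) ⟨.go, fun i => a i * BL r S + 1, []⟩) := by
  have h1 := step_go (w := wd X r S M j) (x := fun i => a i * BL r S)
    (fun i => wd_hash X r S j (ha i)) []
  have h2 : ∀ i, At (wd X r S M j) (a i * BL r S + 1)
      (tree (X (a i)) r S ++ List.replicate (len r S) Lt.gap) :=
    fun i => (wd_at X r S j (ha i)).tail
  have h3 := run_tree hr S (fun i => X (a i)) (fun i => a i * BL r S + 1) []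
    (fun i => (h2 i).left)
  constructor
  · intro h4
    have h5 := h3.1 h4
    have h6 := run_gaps (w := wd X r S M j) (x := fun i => a i * BL r S + 1 + len r S)
      (r := len r S) (fun i t ht => by
        have := (h2 i).right
        rw [length_tree] at this
        rw [this t (by simpa using ht)]
        simp [ht]) false [] (len r S) le_rfl
    refine (((Rn.one h1).trans h5).trans h6).cast ?_ ?_
    · unfold BL; ring
    · intro i
      unfold BL
      ring
  · intro h4
    rw [accF_step h1]
    apply h3.2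
    unfold Even' at h4
    push Not at h4
    obtain ⟨π, h5, h6⟩ := h4
    exact ⟨π, h5, by simpa using h6⟩

lemma sess_end (a : Fin (P + 1) → ℕ) (ha : ∀ i, a i < M) (i0 : Fin (P + 1))
    (h0 : a i0 + 1 < M) (h1 : ∀ i < i0, a i + 1 = M) :
    stp (wd X r S M j) ⟨.sess false, fun i => (a i + 1) * BL r S + 1, []⟩ =
      some ⟨.back i0, fun i => if i = i0 then (a i + 1) * BL r S + 1 else (a i + 1) * BL r S,
        []⟩ := by
  obtain ⟨e1, e2, e3, e4, e5⟩ := wd_end X r S M j
  have hsym : ∀ i, (a i + 1 < M ∧ tape (wd X r S M j) ((a i + 1) * BL r S + 1) =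
      Sym.letter Lt.hash) ∨ (a i + 1 = M) := by
    intro i
    rcases Nat.lt_or_ge (a i + 1) M with h | h
    · exact Or.inl ⟨h, tape_at (wd_hash X r S j h)⟩
    · exact Or.inr (by have := ha i; omega)
  have hh : tape (wd X r S M j) ((a i0 + 1) * BL r S + 1) = Sym.letter Lt.hash :=
    tape_at (wd_hash X r S j h0)
  have f1 : ¬ ∀ i, isOp (tape (wd X r S M j) ((a i + 1) * BL r S + 1)) = true := by
    intro h
    have := h i0
    rw [hh] at this
    exact absurd this (by simp [isOp])
  have f2 : ¬ ∀ i, isCl (tape (wd X r S M j) ((a i + 1) * BL r S + 1)) = true := by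
    intro h
    have := h i0
    rw [hh] at this
    exact absurd this (by simp [isCl])
  have f3 : ¬ ∀ i, isGap (tape (wd X r S M j) ((a i + 1) * BL r S + 1)) = true := by
    intro h
    have := h i0
    rw [hh] at this
    exact absurd this (by simp [isGap])
  have f4 : ∀ i, isEnd (tape (wd X r S M j) ((a i + 1) * BL r S + 1)) = true := by
    intro i
    rcases hsym i with ⟨-, h⟩ | h
    · rw [h]; rfl
    · rw [h]; exact e1
  have f5 : firstHash (fun i => tape (wd X r S M j) ((a i + 1) * BL r S + 1)) = some i0 := by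
    unfold firstHash
    rw [Fin.find?_eq_some_iff]
    refine ⟨by simp only [hh]; rfl, ?_⟩
    intro i hi
    show isHash (tape (wd X r S M j) ((a i + 1) * BL r S + 1)) = false
    rw [h1 i hi]
    exact e2
  unfold stp
  simp only [dst, if_neg f1, if_neg f2, if_neg f3, if_pos f4, f5, Option.map_some]
  congr 2
  funext i
  by_cases hi : i = i0
  · simp only [hi, if_true, move]
  · simp only [if_neg hi, move]
    omega

lemma sess_acc (a : Fin (P + 1) → ℕ) (ha : ∀ i, a i + 1 = M) :
    stp (wd X r S M j) ⟨.sess false, fun i => (a i + 1) * BL r S + 1, []⟩ =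
      some ⟨.acc, fun i => (a i + 1) * BL r S + 1, []⟩ := by
  obtain ⟨e1, e2, e3, e4, e5⟩ := wd_end X r S M j
  have f0 : (fun i => tape (wd X r S M j) ((a i + 1) * BL r S + 1)) =
      fun _ => tape (wd X r S M j) (M * BL r S + 1) := funext fun i => by rw [ha i]
  have f5 : firstHash (fun _ => tape (wd X r S M j) (M * BL r S + 1)) = none := by
    unfold firstHash
    rw [Fin.find?_eq_none_iff]
    intro i
    simpa using e2
  unfold stp
  simp only [f0]
  simp only [dst, e1, e3, e4, e5, f5]
  simp only [Bool.false_eq_true, forall_const, if_false, if_true, Option.map_some]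
  rfl

end

end Pool.Agent.Poly
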